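import Pool.Agent.H891R2.RF.Defs

set_option autoImplicit false

/-!
R10: words and their inverses, powers.
-/

namespace Pool.Agent.H891R2.RF.R10

open Finset LaurentPolynomial Pool.Agent.H891R2.Jones Pool.Agent.H891R2.MT

theorem act_inv (side s : Bool) (z : ℤ[T;T⁻¹] × ℤ[T;T⁻¹]) : act side s (act side (!s) z) = z := by
  obtain ⟨a, b⟩ := z
  cases side <;> cases s
  · simp only [act, Bool.false_eq_true, if_false, Bool.not_false, if_true]
    ext1
    · show -T (-3) * (-T 3 * a + T 1 * b) + T (-1) * (T (-1) * b) = a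
      have hA : (T (-3) * T 3 : ℤ[T;T⁻¹]) = 1 := by rw [← T_add]; norm_num
      have hB : (T (-3) * T 1 : ℤ[T;T⁻¹]) = T (-1) * T (-1) := by
        rw [← T_add, ← T_add]; norm_num
      linear_combination a * hA - b * hB
    · show T 1 * (T (-1) * b) = b
      rw [← mul_assoc, ← T_add]; norm_num
  · simp only [act, Bool.false_eq_true, if_false, Bool.not_true, if_true]
    ext1
    · show -T 3 * (-T (-3) * a + T (-1) * b) + T 1 * (T 1 * b) = a
      have hA : (T 3 * T (-3) : ℤ[T;T⁻¹]) = 1 := by rw [← T_add]; norm_num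
      have hB : (T 3 * T (-1) : ℤ[T;T⁻¹]) = T 1 * T 1 := by
        rw [← T_add, ← T_add]; norm_num
      linear_combination a * hA - b * hB
    · show T (-1) * (T 1 * b) = b
      rw [← mul_assoc, ← T_add]; norm_num
  · simp only [act, Bool.false_eq_true, if_false, Bool.not_false, if_true]
    ext1
    · show T (-1) * (T 1 * a) = a
      rw [← mul_assoc, ← T_add]; norm_num
    · show T 1 * (T 1 * a) - T 3 * (T (-1) * a - T (-3) * b) = b
      rw [mul_sub, ← mul_assoc, ← mul_assoc, ← mul_assoc, ← T_add, ← T_add, ← T_add]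
      norm_num
  · simp only [act, Bool.false_eq_true, if_false, Bool.not_true, if_true]
    ext1
    · show T 1 * (T (-1) * a) = a
      rw [← mul_assoc, ← T_add]; norm_num
    · show T (-1) * (T (-1) * a) - T (-3) * (T 1 * a - T 3 * b) = b
      rw [mul_sub, ← mul_assoc, ← mul_assoc, ← mul_assoc, ← T_add, ← T_add, ← T_add]
      norm_num

theorem act_inv' (side s : Bool) (z : ℤ[T;T⁻¹] × ℤ[T;T⁻¹]) : act side (!s) (act side s z) = z := by
  have := act_inv side (!s) z
  rwa [Bool.not_not] at this

/-- one step of the slope -/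
def fact (side s : Bool) (x : ℤ × ℤ) : ℤ × ℤ :=
  if side then (x.1 + (if s then 1 else -1) * x.2, x.2)
  else (x.1, x.2 + (if s then 1 else -1) * x.1)

theorem fact_inv (side s : Bool) (z : ℤ × ℤ) : fact side s (fact side (!s) z) = z := by
  obtain ⟨a, b⟩ := z
  cases side <;> cases s <;> simp [fact]

theorem fact_inv' (side s : Bool) (z : ℤ × ℤ) : fact side (!s) (fact side s z) = z := by
  have := fact_inv side (!s) z
  rwa [Bool.not_not] at this

/-- apply a word -/
def app {α : Type} (f : Bool → Bool → α → α) (w : List (Bool × Bool)) (z : α) : α :=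
  w.foldr (fun x z => f x.1 x.2 z) z

theorem app_append {α : Type} (f : Bool → Bool → α → α) (w w' : List (Bool × Bool)) (z : α) :
    app f (w ++ w') z = app f w (app f w' z) := by
  unfold app; rw [List.foldr_append]

theorem app_cons {α : Type} (f : Bool → Bool → α → α) (x : Bool × Bool) (w : List (Bool × Bool))
    (z : α) : app f (x :: w) z = f x.1 x.2 (app f w z) := rfl

theorem inv_cons (x : Bool × Bool) (w : List (Bool × Bool)) :
    inv (x :: w) = inv w ++ [(x.1, !x.2)] := by
  simp [inv]

theorem app_inv {α : Type} (f : Bool → Bool → α → α)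
    (hf : ∀ side s z, f side s (f side (!s) z) = z) (w : List (Bool × Bool)) :
    ∀ z, app f w (app f (inv w) z) = z := by
  induction w with
  | nil => intro z; rfl
  | cons x w ih =>
    intro z
    rw [inv_cons, app_append, app_cons, ih]
    exact hf _ _ _

theorem app_inv' {α : Type} (f : Bool → Bool → α → α)
    (hf : ∀ side s z, f side (!s) (f side s z) = z) (w : List (Bool × Bool)) :
    ∀ z, app f (inv w) (app f w z) = z := by
  induction w with
  | nil => intro z; rfl
  | cons x w ih =>
    intro z
    rw [inv_cons, app_append, app_cons]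
    show app f (inv w) (f x.1 (!x.2) (f x.1 x.2 (app f w z))) = z
    rw [hf, ih]

theorem vec_app (w w' : List (Bool × Bool)) (v : Bool) :
    vec (w ++ w') v = app act w (vec w' v) := by
  induction w with
  | nil => rfl
  | cons x w ih =>
    obtain ⟨side, s⟩ := x
    rw [List.cons_append, app_cons, ← ih]
    rfl

theorem frac_app (w w' : List (Bool × Bool)) (v : Bool) :
    frac (w ++ w') v = app fact w (frac w' v) := by
  induction w with
  | nil => rfl
  | cons x w ih =>
    obtain ⟨side, s⟩ := x
    rw [List.cons_append, app_cons, ← ih]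
    rfl

theorem vec_inv (w w' : List (Bool × Bool)) (v : Bool) : vec (w ++ inv w ++ w') v = vec w' v := by
  rw [List.append_assoc, vec_app, vec_app, app_inv act act_inv]

theorem vec_inv' (w w' : List (Bool × Bool)) (v : Bool) : vec (inv w ++ w ++ w') v = vec w' v := by
  rw [List.append_assoc, vec_app, vec_app, app_inv' act act_inv']

theorem frac_inv (w w' : List (Bool × Bool)) (v : Bool) : frac (w ++ inv w ++ w') v = frac w' v := by
  rw [List.append_assoc, frac_app, frac_app, app_inv fact fact_inv]

theorem det_app (w : List (Bool × Bool)) (x y : ℤ × ℤ) :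
    (app fact w x).1 * (app fact w y).2 - (app fact w y).1 * (app fact w x).2 =
      x.1 * y.2 - y.1 * x.2 := by
  induction w with
  | nil => rfl
  | cons a w ih =>
    obtain ⟨side, s⟩ := a
    rw [app_cons, app_cons, ← ih]
    cases side
    · simp only [fact, Bool.false_eq_true, if_false]
      ring
    · simp only [fact, if_true]
      ring

theorem dist_append (w w₁ w₂ : List (Bool × Bool)) (v₁ v₂ : Bool) :
    dist (w ++ w₁, v₁) (w ++ w₂, v₂) = dist (w₁, v₁) (w₂, v₂) := by
  unfold dist
  simp only
  rw [frac_app, frac_app, det_app]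

/-- the word `x^n` or `y^n` -/
def pw (side : Bool) (n : ℤ) : List (Bool × Bool) := List.replicate n.natAbs (side, decide (0 < n))

theorem pow_x (e : ℤ) (s : Bool) (he : e = if s then 1 else -1) (u : ℤ[T;T⁻¹]) (m : ℕ) :
    ∃ c, dd * c = T (e * m) * ((-1) ^ m * T (-4 * (e * m)) - 1) ∧
      app act (List.replicate m (true, s)) (u, 0) = (T (e * m) * u, c * u) := by
  induction m with
  | zero =>
    refine ⟨0, ?_, ?_⟩
    · simp
    · simp [app]
  | succ m ih =>
    obtain ⟨c, hc, h⟩ := ih
    refine ⟨T (e * m - e) - T (-3 * e) * c, ?_, ?_⟩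
    · have h1 : dd * (T (e * m - e) - T (-3 * e) * c) = dd * T (e * m - e) - T (-3 * e) * (dd * c) := by
        ring
      rw [h1, hc, mul_sub, mul_one, mul_left_comm (T (e * m)), ← T_add, mul_sub, ← T_add,
        mul_left_comm (T (-3 * e)), ← T_add, mul_sub, mul_one, mul_left_comm (T (e * ((m + 1 : ℕ) : ℤ))),
        ← T_add]
      unfold dd
      rw [sub_mul, neg_mul, ← T_add, ← T_add]
      have he' : e = 1 ∨ e = -1 := by
        rw [he]; cases s <;> simp
      rcases he' with h | h
      · subst h
        have e1 : (2 : ℤ) + (1 * m - 1) = m + 1 := by ring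
        have e2 : (-2 : ℤ) + (1 * m - 1) = m - 3 := by ring
        have e3 : (-3 * 1 : ℤ) + (1 * m) = m - 3 := by ring
        have e4 : (-3 * 1 : ℤ) + (1 * m + -4 * (1 * m)) = -3 * (m + 1) := by ring
        have e5 : (1 * ((m + 1 : ℕ) : ℤ)) + -4 * (1 * ((m + 1 : ℕ) : ℤ)) = -3 * (m + 1) := by
          push_cast; ring
        have e6 : (1 * ((m + 1 : ℕ) : ℤ)) = m + 1 := by push_cast; ring
        rw [e1, e2, e3, e4, e5, e6, pow_succ]
        ring
      · subst h
        have e1 : (2 : ℤ) + (-1 * m - -1) = -m + 3 := by ring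
        have e2 : (-2 : ℤ) + (-1 * m - -1) = -m - 1 := by ring
        have e3 : (-3 * -1 : ℤ) + (-1 * m) = -m + 3 := by ring
        have e4 : (-3 * -1 : ℤ) + (-1 * m + -4 * (-1 * m)) = 3 * (m + 1) := by ring
        have e5 : (-1 * ((m + 1 : ℕ) : ℤ)) + -4 * (-1 * ((m + 1 : ℕ) : ℤ)) = 3 * (m + 1) := by
          push_cast; ring
        have e6 : (-1 * ((m + 1 : ℕ) : ℤ)) = -m - 1 := by push_cast; ring
        rw [e1, e2, e3, e4, e5, e6, pow_succ]
        ring
    · rw [List.replicate_succ, app_cons, h]
      unfold act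
      simp only [if_true]
      have e1 : (if s = true then (1 : ℤ) else -1) = e := he.symm
      have e2 : (if s = true then (-1 : ℤ) else 1) = -e := by rw [he]; cases s <;> simp
      have e3 : (if s = true then (-3 : ℤ) else 3) = -3 * e := by rw [he]; cases s <;> simp
      rw [e1, e2, e3]
      ext1
      · show T e * (T (e * m) * u) = T (e * ((m + 1 : ℕ) : ℤ)) * u
        rw [← mul_assoc, ← T_add]
        congr 2
        push_cast; ring
      · show T (-e) * (T (e * m) * u) - T (-3 * e) * (c * u) = (T (e * m - e) - T (-3 * e) * c) * u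
        rw [← mul_assoc, ← T_add, sub_mul, mul_assoc (T (-3 * e))]
        congr 3
        ring

theorem vec_pw_x (n : ℤ) (hn : Even n) (w : List (Bool × Bool)) (v : Bool) (u : ℤ[T;T⁻¹])
    (h : vec w v = (u, 0)) :
    ∃ c, dd * c = T n * (T (-4 * n) - 1) ∧ vec (pw true n ++ w) v = (T n * u, c * u) := by
  have hN : (-1 : ℤ[T;T⁻¹]) ^ n.natAbs = 1 := (Int.natAbs_even.mpr hn).neg_one_pow
  rw [vec_app, h]
  unfold pw
  rcases lt_or_ge 0 n with h0 | h0
  · obtain ⟨c, hc, h1⟩ := pow_x 1 true rfl u n.natAbs
    have e : (1 * (n.natAbs : ℤ)) = n := by rw [one_mul]; omega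
    rw [e, hN, one_mul] at hc
    rw [e] at h1
    refine ⟨c, hc, ?_⟩
    rw [decide_eq_true h0, h1]
  · obtain ⟨c, hc, h1⟩ := pow_x (-1) false rfl u n.natAbs
    have e : (-1 * (n.natAbs : ℤ)) = n := by omega
    rw [e, hN, one_mul] at hc
    rw [e] at h1
    refine ⟨c, hc, ?_⟩
    rw [decide_eq_false (not_lt.mpr h0), h1]

theorem vec_pw_y (n : ℤ) (w : List (Bool × Bool)) (v : Bool) (u : ℤ[T;T⁻¹])
    (hu : IsU u) (h : vec w v = (u, 0)) : ∃ u', IsU u' ∧ vec (pw false n ++ w) v = (u', 0) := by
  rw [vec_app, h]
  unfold pw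
  generalize decide (0 < n) = s
  induction n.natAbs with
  | zero => exact ⟨u, hu, rfl⟩
  | succ m ih =>
    obtain ⟨u', ⟨k, ε, hε, hu'⟩, h1⟩ := ih
    rw [List.replicate_succ, app_cons, h1]
    refine ⟨-T (if s then 3 else -3) * u', ⟨(if s then 3 else -3) + k, -ε, ?_, ?_⟩, ?_⟩
    · rcases hε with h | h <;> simp [h]
    · rw [hu', T_add, map_neg]; ring
    · simp [act]

theorem frac_pw_x (n : ℤ) (w : List (Bool × Bool)) (v : Bool) :
    frac (pw true n ++ w) v = ((frac w v).1 + n * (frac w v).2, (frac w v).2) := by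
  rw [frac_app]
  generalize frac w v = z
  have key : ∀ (s : Bool) (m : ℕ), app fact (List.replicate m (true, s)) z =
      (z.1 + ((if s then 1 else -1) * (m : ℤ)) * z.2, z.2) := by
    intro s m
    induction m with
    | zero => simp [app]
    | succ m ih =>
      rw [List.replicate_succ, app_cons, ih]
      simp only [fact, if_true]
      ext1
      · simp only; push_cast; ring
      · rfl
  unfold pw
  rw [key]
  rcases lt_or_ge 0 n with h0 | h0
  · rw [decide_eq_true h0]
    simp only [if_true, one_mul]
    congr 2; congr 1; omega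
  · rw [decide_eq_false (not_lt.mpr h0)]
    simp only [Bool.false_eq_true, if_false]
    congr 2; congr 1; omega

theorem frac_pw_y (n : ℤ) (w : List (Bool × Bool)) (v : Bool) :
    frac (pw false n ++ w) v = ((frac w v).1, (frac w v).2 + n * (frac w v).1) := by
  rw [frac_app]
  generalize frac w v = z
  have key : ∀ (s : Bool) (m : ℕ), app fact (List.replicate m (false, s)) z =
      (z.1, z.2 + ((if s then 1 else -1) * (m : ℤ)) * z.1) := by
    intro s m
    induction m with
    | zero => simp [app]
    | succ m ih =>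
      rw [List.replicate_succ, app_cons, ih]
      simp only [fact, Bool.false_eq_true, if_false]
      ext1
      · rfl
      · simp only; push_cast; ring
  unfold pw
  rw [key]
  rcases lt_or_ge 0 n with h0 | h0
  · rw [decide_eq_true h0]
    simp only [if_true, one_mul]
    congr 2; congr 1; omega
  · rw [decide_eq_false (not_lt.mpr h0)]
    simp only [Bool.false_eq_true, if_false]
    congr 2; congr 1; omega

end Pool.Agent.H891R2.RF.R10
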