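import Pool.Agent.H891R2.RF.Defs

set_option autoImplicit false

/-! R11: the same slope means distance zero. -/

namespace Pool.Agent.H891R2.RF.R11

open Finset LaurentPolynomial Pool.Agent.H891R2.Jones Pool.Agent.H891R2.MT Pool.Agent.H891R2.RF

theorem frac_ne (w : List (Bool × Bool)) (v : Bool) : (frac w v).1 ≠ 0 ∨ (frac w v).2 ≠ 0 := by
  induction w with
  | nil => cases v <;> simp [frac]
  | cons x w ih =>
    obtain ⟨side, s⟩ := x
    cases side
    · rcases eq_or_ne (frac w v).1 0 with h | h
      · right
        simpa [frac, h] using ih
      · left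
        simpa [frac] using h
    · rcases eq_or_ne (frac w v).2 0 with h | h
      · left
        simpa [frac, h] using ih
      · right
        simpa [frac] using h

/-- R11: the same slope means distance zero -/
theorem slope_eq_iff (R R' : Tangle) : slope R = slope R' ↔ dist R R' = 0 := by
  have h1 := frac_ne R.1 R.2
  have h2 := frac_ne R'.1 R'.2
  unfold slope dist
  generalize (frac R.1 R.2).1 = p at *
  generalize (frac R.1 R.2).2 = q at *
  generalize (frac R'.1 R'.2).1 = p' at *
  generalize (frac R'.1 R'.2).2 = q' at *
  rw [Int.natAbs_eq_zero, sub_eq_zero]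
  by_cases hq : q = 0
  · subst hq
    have hp : p ≠ 0 := h1.resolve_right (fun h => h rfl)
    by_cases hq' : q' = 0
    · subst hq'
      simp
    · rw [if_pos rfl, if_neg hq']
      constructor
      · intro h
        exact absurd h (OnePoint.infty_ne_coe _)
      · intro h
        rw [mul_zero] at h
        exact absurd h (mul_ne_zero hp hq')
  · by_cases hq' : q' = 0
    · subst hq'
      have hp' : p' ≠ 0 := h2.resolve_right (fun h => h rfl)
      rw [if_neg hq, if_pos rfl]
      constructor
      · intro h
        exact absurd h (OnePoint.coe_ne_infty _)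
      · intro h
        rw [mul_zero] at h
        exact absurd h.symm (mul_ne_zero hp' hq)
    · rw [if_neg hq, if_neg hq', OnePoint.coe_eq_coe]
      have hqQ : (q : ℚ) ≠ 0 := by exact_mod_cast hq
      have hqQ' : (q' : ℚ) ≠ 0 := by exact_mod_cast hq'
      rw [div_eq_div_iff hqQ hqQ']
      exact_mod_cast Iff.rfl

end Pool.Agent.H891R2.RF.R11
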