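import Pool.Agent.H891R2.RF.Defs
import Pool.Agent.H891R2.MT.T6

set_option autoImplicit false

/-! Task FR12 (helper409): the trivial outside, diagrams with trivial Jones polynomial. -/

namespace Pool.Agent.H891R2.RF.R12

open Finset LaurentPolynomial Pool.Agent.H891R2.Jones Pool.Agent.H891R2.MT

/-- the bracket of a diagram without crossings -/
theorem br_nil {P : Type} (arcs : List (P × P)) :
    Diagram.bracket (⟨arcs, []⟩ : Diagram P) =
      (-T 2 - T (-2)) ^ (Nat.card (Quot (fun p q : P => (p, q) ∈ arcs)) - 1) := by
  have h : ∀ s, Diagram.Joined (⟨arcs, []⟩ : Diagram P) s = fun p q => (p, q) ∈ arcs := by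
    intro s
    funext p q
    apply propext
    constructor
    · rintro (h | ⟨i, -⟩)
      · exact h
      · exact Fin.elim0 i
    · intro h; exact Or.inl h
  have h2 : ∀ s, Diagram.loops (⟨arcs, []⟩ : Diagram P) s =
      Nat.card (Quot (fun p q : P => (p, q) ∈ arcs)) := by
    intro s
    unfold Diagram.loops
    rw [h s]
  have hw : ∀ s : Fin (⟨arcs, []⟩ : Diagram P).crossings.length → Bool,
      Diagram.weight s = 0 := fun s => Finset.sum_eq_zero (fun i _ => Fin.elim0 i)
  unfold Diagram.bracket
  simp only [h2, hw, T_zero, one_mul]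
  change ∑ s : Fin 0 → Bool, _ = _
  rw [Fintype.sum_unique]

theorem card_quot {P K : Type} (r : P → P → Prop) (g : P → K) (hg : ∀ p q, r p q → g p = g q)
    (hs : Function.Surjective g) (hi : ∀ p q, g p = g q → Quot.mk r p = Quot.mk r q) :
    Nat.card (Quot r) = Nat.card K := by
  refine Nat.card_congr (Equiv.ofBijective (Quot.lift g hg) ⟨?_, ?_⟩)
  · intro x y
    induction x using Quot.ind with
    | _ p =>
      induction y using Quot.ind with
      | _ q => exact fun h => hi p q h
  · intro k
    obtain ⟨p, rfl⟩ := hs k
    exact ⟨Quot.mk r p, rfl⟩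

theorem triv_false : Outer4.triv.br ([], false) = 1 := by
  change Diagram.bracket (⟨[((false, false), (true, false)), ((false, true), (true, true))] ++
    [((false, false), (false, true)), ((true, false), (true, true))], []⟩ :
      Diagram (Bool × Bool)) = 1
  rw [br_nil, card_quot _ (fun _ => ()) (fun _ _ _ => rfl) (fun _ => ⟨(false, false), rfl⟩)]
  · simp
  · set r : Bool × Bool → Bool × Bool → Prop := fun p q => (p, q) ∈
      [((false, false), (true, false)), ((false, true), (true, true))] ++
      [((false, false), (false, true)), ((true, false), (true, true))] with hr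
    have h1 : Quot.mk r (false, false) = Quot.mk r (true, false) := Quot.sound (by simp [hr])
    have h2 : Quot.mk r (false, true) = Quot.mk r (true, true) := Quot.sound (by simp [hr])
    have h3 : Quot.mk r (false, false) = Quot.mk r (false, true) := Quot.sound (by simp [hr])
    have h4 : ∀ p, Quot.mk r p = Quot.mk r (false, false) := by
      rintro ⟨a, b⟩
      cases a <;> cases b
      · rfl
      · exact h3.symm
      · exact h1.symm
      · rw [← h2, ← h3]
    intro p q _
    rw [h4 p, h4 q]

theorem triv_true : Outer4.triv.br ([], true) = dd := by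
  change Diagram.bracket (⟨[((false, false), (true, false)), ((false, true), (true, true))] ++
    [((false, false), (true, false)), ((false, true), (true, true))], []⟩ :
      Diagram (Bool × Bool)) = dd
  rw [br_nil, card_quot _ (fun p : Bool × Bool => p.2) _ (fun b => ⟨(false, b), rfl⟩)]
  · simp [dd]
  · set r : Bool × Bool → Bool × Bool → Prop := fun p q => (p, q) ∈
      [((false, false), (true, false)), ((false, true), (true, true))] ++
      [((false, false), (true, false)), ((false, true), (true, true))] with hr
    have h1 : Quot.mk r (false, false) = Quot.mk r (true, false) := Quot.sound (by simp [hr])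
    have h2 : Quot.mk r (false, true) = Quot.mk r (true, true) := Quot.sound (by simp [hr])
    have h4 : ∀ p : Bool × Bool, Quot.mk r p = Quot.mk r (false, p.2) := by
      rintro ⟨a, b⟩
      cases a <;> cases b
      · rfl
      · rfl
      · exact h1.symm
      · exact h2.symm
    intro p q h
    rw [h4 p, h4 q]
    rw [h]
  · rintro ⟨a, b⟩ ⟨c, d⟩ h
    simp only [List.cons_append, List.nil_append, List.mem_cons, Prod.mk.injEq,
      List.not_mem_nil, or_false] at h
    rcases h with ⟨⟨-, h1⟩, -, h2⟩ | ⟨⟨-, h1⟩, -, h2⟩ | ⟨⟨-, h1⟩, -, h2⟩ | ⟨⟨-, h1⟩, -, h2⟩ <;>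
      · rw [h1, h2]

theorem isU_of_jonesTrivial {P : Type} [Fintype P] [DecidableEq P] [Nonempty P] (U : UDiagram P)
    (h : JonesTrivial U) : IsU U.std.bracket := by
  obtain ⟨D, hD, hf⟩ := h
  rw [← MT.T6.bracket_orients D U hD]
  unfold Diagram.fPoly at hf
  refine ⟨3 * D.writhe, if Even D.writhe then 1 else -1, ?_, ?_⟩
  · split_ifs
    · exact Or.inl rfl
    · exact Or.inr rfl
  · have h1 : (T (3 * D.writhe) : ℤ[T;T⁻¹]) * T (-3 * D.writhe) = 1 := by
      rw [← T_add]
      have : 3 * D.writhe + -3 * D.writhe = 0 := by ring
      rw [this, T_zero]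
    by_cases hw : Even D.writhe
    · simp only [hw, if_true, one_mul, map_one] at hf ⊢
      linear_combination (-D.bracket) * h1 + T (3 * D.writhe) * hf
    · simp only [hw, if_false, map_neg, map_one] at hf ⊢
      linear_combination (-D.bracket) * h1 - T (3 * D.writhe) * hf

end Pool.Agent.H891R2.RF.R12
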