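import Pool.Agent.H891R2.RF.Defs
import Pool.Agent.H891R2.MT.T6

set_option autoImplicit false

/-! R2: the bracket of a rational filling (helper152) -/

namespace Pool.Agent.H891R2.RF.R2

open Finset LaurentPolynomial Pool.Agent.H891R2.Jones Pool.Agent.H891R2.MT

/-- the state sum with `N` colours of the diagram with the filling `v` -/
noncomputable def Zc (A : ℂ) (N : ℕ) (W : Outer4) (v : Bool) : ℂ :=
  ∑ col : W.P → Fin N, WW A (W.close v).std.arcs (W.close v).std.crossings col

theorem ev_br (N : ℕ) (hN : 3 ≤ N) (W : Outer4) (v : Bool) :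
    (N : ℂ) * ev N hN (W.br ([], v)) = Zc (Ar N) N W v := by
  haveI : Nonempty W.P := ⟨W.corner false false⟩
  exact ev_bracket N hN (W.close v).std

theorem step
    (hR1 : ∀ (W : Outer4) (side s : Bool) {A : ℂ} (_ : A ≠ 0) (N : ℕ) (a : ℂ) 
      (_ : a = if side = s then A else A⁻¹),
      Zc A N (W.push side s) (!side) = a * Zc A N W (!side) + a⁻¹ * Zc A N W side ∧
      Zc A N (W.push side s) side = (a + a⁻¹ * N) * Zc A N W side)
    (W : Outer4) (side s : Bool) (e : ℤ) (he : e = if side = s then 1 else -1) :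
    (W.push side s).br ([], !side) = T e * W.br ([], !side) + T (-e) * W.br ([], side) ∧
    (W.push side s).br ([], side) = (T e + T (-e) * dd) * W.br ([], side) := by
  have key : ∀ N (hN : 3 ≤ N), 
      ev N hN (T e) = (if side = s then Ar N else (Ar N)⁻¹) ∧
      ev N hN (T (-e)) = (if side = s then Ar N else (Ar N)⁻¹)⁻¹ := by
    intro N hN
    rw [ev_T, ev_T, he]
    split_ifs <;> simp
  have hN0 : ∀ N : ℕ, 3 ≤ N → (N : ℂ) ≠ 0 := by
    intro N hN
    exact_mod_cast (by omega : N ≠ 0)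
  have hd : ∀ N (hN : 3 ≤ N), ev N hN dd = (N : ℂ) := by
    intro N hN
    unfold dd
    rw [map_sub, map_neg, ev_T, ev_T, Ar_d N hN, inv_pow]
    rfl
  refine ⟨T6.eq_of_ev _ _ (fun N hN => ?_), T6.eq_of_ev _ _ (fun N hN => ?_)⟩
  · obtain ⟨k1, k2⟩ := key N hN
    have h := (hR1 W side s (Ar_ne N hN) N _ rfl).1
    rw [← ev_br N hN, ← ev_br N hN, ← ev_br N hN] at h
    rw [map_add, map_mul, map_mul, k1, k2]
    apply mul_left_cancel₀ (hN0 N hN)
    rw [h]
    ring
  · obtain ⟨k1, k2⟩ := key N hN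
    have h := (hR1 W side s (Ar_ne N hN) N _ rfl).2
    rw [← ev_br N hN, ← ev_br N hN] at h
    rw [map_mul, map_add, map_mul, k1, k2, hd N hN]
    apply mul_left_cancel₀ (hN0 N hN)
    rw [h]
    ring

theorem dd1 : (T 1 + T (-1) * dd : ℤ[T;T⁻¹]) = -T (-3) := by
  unfold dd
  rw [mul_sub, mul_neg, ← T_add, ← T_add]
  norm_num
  ring

theorem dd2 : (T (-1) + T 1 * dd : ℤ[T;T⁻¹]) = -T 3 := by
  unfold dd
  rw [mul_sub, mul_neg, ← T_add, ← T_add]
  norm_num

/-- R2: the bracket of a rational filling (uses R1) -/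
theorem R2 
    (hR1 : ∀ (W : Outer4) (side s : Bool) {A : ℂ} (_ : A ≠ 0) (N : ℕ) (a : ℂ) 
      (_ : a = if side = s then A else A⁻¹),
      Zc A N (W.push side s) (!side) = a * Zc A N W (!side) + a⁻¹ * Zc A N W side ∧
      Zc A N (W.push side s) side = (a + a⁻¹ * N) * Zc A N W side)
    (W : Outer4) (w : List (Bool × Bool)) (v : Bool) :
    W.br (w, v) = (vec w v).1 * W.br ([], false) + (vec w v).2 * W.br ([], true) := by
  induction w generalizing W with
  | nil => cases v <;> simp [vec]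
  | cons x w ih =>
    obtain ⟨side, s⟩ := x
    have h0 : W.br ((side, s) :: w, v) = (W.push side s).br (w, v) := rfl
    rw [h0, ih]
    obtain ⟨h1, h2⟩ := step @hR1 W side s _ rfl
    rw [vec]
    cases side <;> cases s <;> simp only [Bool.not_false, Bool.not_true, if_true, if_false,
      Bool.false_eq_true, Bool.true_eq_false, neg_neg] at h1 h2 <;>
      rw [h1, h2] <;> (try rw [dd1]) <;> (try rw [dd2]) <;> simp only [act, if_true, if_false,
      Bool.false_eq_true] <;> ring

end Pool.Agent.H891R2.RF.R2
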