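import Pool.Agent.H891R2.RF.Defs

set_option autoImplicit false

/-! R3: brackets at a primitive sixth root of unity. -/

namespace Pool.Agent.H891R2.RF.R3

open Finset LaurentPolynomial Pool.Agent.H891R2.Jones Pool.Agent.H891R2.MT

/-- evaluation at `A = a` -/
noncomputable def evA (a : ℂˣ) : ℤ[T;T⁻¹] →+* ℂ := LaurentPolynomial.eval₂ (Int.castRingHom ℂ) a

theorem evA_T (a : ℂˣ) (n : ℤ) : evA a (T n) = (a : ℂ) ^ n := by
  unfold evA
  rw [LaurentPolynomial.eval₂_T]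
  simp

/-- R3: at a primitive sixth root of unity every bracket is `1` -/
theorem R3 {P : Type} (U : UDiagram P) (a : ℂˣ) (ha : (a : ℂ) + (a : ℂ)⁻¹ = 1) :
    evA a U.std.bracket = 1 := by
  have ha0 : (a : ℂ) ≠ 0 := a.ne_zero
  have hd : -(a : ℂ) ^ (2 : ℤ) - (a : ℂ) ^ (-2 : ℤ) = 1 := by
    have h1 : (a : ℂ) ^ (-2 : ℤ) = ((a : ℂ)⁻¹) ^ 2 := by
      rw [zpow_neg, inv_pow]; rfl
    have h2 : (a : ℂ) ^ (2 : ℤ) = (a : ℂ) ^ 2 := rfl
    have h3 : (a : ℂ) * (a : ℂ)⁻¹ = 1 := mul_inv_cancel₀ ha0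
    rw [h1, h2]
    linear_combination (-((a : ℂ) + (a : ℂ)⁻¹) - 1) * ha + 2 * h3
  unfold Diagram.bracket
  rw [map_sum]
  have h4 : ∀ s : Fin U.std.crossings.length → Bool,
      evA a (T (Diagram.weight s) * (-T 2 - T (-2)) ^ (U.std.loops s - 1))
        = ∏ i, (a : ℂ) ^ (if s i then (1 : ℤ) else -1) := by
    intro s
    rw [map_mul, map_pow, map_sub, map_neg, evA_T, evA_T, evA_T, hd, one_pow, mul_one]
    unfold Diagram.weight
    exact zpow_sum _ ha0 _
  rw [Finset.sum_congr rfl (fun s _ => h4 s)]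
  have h5 := Finset.prod_univ_sum (fun _ : Fin U.std.crossings.length => (Finset.univ : Finset Bool))
    (fun _ b => (a : ℂ) ^ (if b then (1 : ℤ) else -1))
  rw [Fintype.piFinset_univ] at h5
  rw [← h5]
  refine Finset.prod_eq_one fun i _ => ?_
  simp only [Fintype.sum_bool]
  simpa using ha

end Pool.Agent.H891R2.RF.R3
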