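import Pool.Agent.H891R2.RF.Defs

set_option autoImplicit false

namespace Pool.Agent.H891R2.RF.R4

open Finset LaurentPolynomial Pool.Agent.H891R2.Jones Pool.Agent.H891R2.MT

/-- evaluation at `A = a` -/
noncomputable def evA (a : ℂˣ) : ℤ[T;T⁻¹] →+* ℂ := LaurentPolynomial.eval₂ (Int.castRingHom ℂ) a

theorem evA_T (a : ℂˣ) (k : ℤ) : evA a (T k) = (a : ℂ) ^ k := by
  unfold evA
  rw [LaurentPolynomial.eval₂_T]
  simp

/-- the sign character of `Fin 2` -/
def sgn (z : Fin 2) : ℤ := if z = 0 then 1 else -1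

theorem sgn_add : ∀ x y : Fin 2, sgn (x + y) = sgn x * sgn y := by decide

theorem sgn_cases : ∀ x : Fin 2, sgn x = 1 ∨ sgn x = -1 := by decide

theorem key16 : ∀ p q r s : Fin 2, (if p = q ∧ r = s then (1 : ℤ) else 0) -
    (if q = r ∧ s = p then (1 : ℤ) else 0) = if p ≠ r ∧ q ≠ s then sgn (p + q) else 0 := by decide

theorem ind_int (p : Prop) [Decidable p] : ind p = ((if p then (1 : ℤ) else 0 : ℤ) : ℂ) := by
  unfold ind
  by_cases h : p <;> simp [h]

variable {P : Type}

theorem crossW_I (col : P → Fin 2) (x : Crossing P) :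
    crossW Complex.I col x = Complex.I *
      ((if col x.a ≠ col x.c ∧ col x.b ≠ col x.d then sgn (col x.a + col x.b) else 0 : ℤ) : ℂ) := by
  unfold crossW
  rw [← key16 (col x.a) (col x.b) (col x.c) (col x.d), ind_int, ind_int, Complex.inv_I]
  push_cast
  ring

/-- product of the signs -/
def chi (cr : List (Crossing P)) (col : P → Fin 2) : ℤ :=
  (cr.map fun x => sgn (col x.a + col x.b)).prod

open Classical in
theorem prod_crossW (cr : List (Crossing P)) (col : P → Fin 2) :
    (cr.map (crossW Complex.I col)).prod = Complex.I ^ cr.length *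
      ((if ∀ x ∈ cr, col x.a ≠ col x.c ∧ col x.b ≠ col x.d then chi cr col else 0 : ℤ) : ℂ) := by
  induction cr with
  | nil => simp [chi]
  | cons x l ih =>
    rw [List.map_cons, List.prod_cons, ih, crossW_I, List.length_cons, pow_succ']
    have hchi : chi (x :: l) col = sgn (col x.a + col x.b) * chi l col := by
      unfold chi; rw [List.map_cons, List.prod_cons]
    rw [hchi]
    by_cases h1 : col x.a ≠ col x.c ∧ col x.b ≠ col x.d
    · by_cases h2 : ∀ y ∈ l, col y.a ≠ col y.c ∧ col y.b ≠ col y.d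
      · have h3 : ∀ y ∈ x :: l, col y.a ≠ col y.c ∧ col y.b ≠ col y.d := by
          intro y hy
          rcases List.mem_cons.mp hy with rfl | hy
          · exact h1
          · exact h2 y hy
        rw [if_pos h1, if_pos h2, if_pos h3]
        push_cast
        ring
      · have h3 : ¬ ∀ y ∈ x :: l, col y.a ≠ col y.c ∧ col y.b ≠ col y.d :=
          fun h => h2 fun y hy => h y (List.mem_cons_of_mem _ hy)
        rw [if_neg h2, if_neg h3]
        simp
    · have h3 : ¬ ∀ y ∈ x :: l, col y.a ≠ col y.c ∧ col y.b ≠ col y.d :=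
        fun h => h1 (h x List.mem_cons_self)
      rw [if_neg h1, if_neg h3]
      simp

/-- the colourings which contribute -/
def Good (arcs : List (P × P)) (cr : List (Crossing P)) (col : P → Fin 2) : Prop :=
  (∀ x ∈ arcs, col x.1 = col x.2) ∧ ∀ x ∈ cr, col x.a ≠ col x.c ∧ col x.b ≠ col x.d

open Classical in
theorem WW_I (arcs : List (P × P)) (cr : List (Crossing P)) (col : P → Fin 2) :
    WW Complex.I arcs cr col = Complex.I ^ cr.length *
      ((if Good arcs cr col then chi cr col else 0 : ℤ) : ℂ) := by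
  unfold WW
  rw [arcs_prod, prod_crossW]
  by_cases h1 : ∀ x ∈ arcs, col x.1 = col x.2
  · rw [ind_pos h1, one_mul]
    by_cases h2 : ∀ x ∈ cr, col x.a ≠ col x.c ∧ col x.b ≠ col x.d
    · rw [if_pos h2, if_pos (show Good arcs cr col from ⟨h1, h2⟩)]
    · rw [if_neg h2, if_neg (fun h : Good arcs cr col => h2 h.2)]
  · rw [ind_neg h1, if_neg (fun h : Good arcs cr col => h1 h.1)]
    simp

/-- the differences of good colourings -/
def LL (arcs : List (P × P)) (cr : List (Crossing P)) : AddSubgroup (P → Fin 2) where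
  carrier := {v | (∀ x ∈ arcs, v x.1 = v x.2) ∧ ∀ x ∈ cr, v x.a = v x.c ∧ v x.b = v x.d}
  zero_mem' := ⟨fun _ _ => rfl, fun _ _ => ⟨rfl, rfl⟩⟩
  add_mem' := by
    rintro u v ⟨h1, h2⟩ ⟨h3, h4⟩
    refine ⟨fun x hx => ?_, fun x hx => ⟨?_, ?_⟩⟩
    · simp only [Pi.add_apply, h1 x hx, h3 x hx]
    · simp only [Pi.add_apply, (h2 x hx).1, (h4 x hx).1]
    · simp only [Pi.add_apply, (h2 x hx).2, (h4 x hx).2]
  neg_mem' := by
    rintro u ⟨h1, h2⟩
    refine ⟨fun x hx => ?_, fun x hx => ⟨?_, ?_⟩⟩
    · simp only [Pi.neg_apply, h1 x hx]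
    · simp only [Pi.neg_apply, (h2 x hx).1]
    · simp only [Pi.neg_apply, (h2 x hx).2]

theorem chi_add (cr : List (Crossing P)) (u v : P → Fin 2) :
    chi cr (u + v) = chi cr u * chi cr v := by
  induction cr with
  | nil => simp [chi]
  | cons x l ih =>
    have hchi : ∀ w : P → Fin 2, chi (x :: l) w = sgn (w x.a + w x.b) * chi l w := by
      intro w; unfold chi; rw [List.map_cons, List.prod_cons]
    rw [hchi, hchi, hchi, ih]
    have : (u + v) x.a + (u + v) x.b = (u x.a + u x.b) + (v x.a + v x.b) := by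
      simp only [Pi.add_apply]; abel
    rw [this, sgn_add]
    ring

theorem chi_cases (cr : List (Crossing P)) (u : P → Fin 2) : chi cr u = 1 ∨ chi cr u = -1 := by
  induction cr with
  | nil => left; simp [chi]
  | cons x l ih =>
    have hchi : chi (x :: l) u = sgn (u x.a + u x.b) * chi l u := by
      unfold chi; rw [List.map_cons, List.prod_cons]
    rw [hchi]
    rcases sgn_cases (u x.a + u x.b) with h | h <;> rcases ih with h' | h' <;> rw [h, h'] <;> simp

theorem shift_aux : ∀ x y z w : Fin 2, z ≠ w → (x + z ≠ y + w ↔ x = y) := by decide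

theorem good_shift (arcs : List (P × P)) (cr : List (Crossing P)) (c0 v : P → Fin 2)
    (h0 : Good arcs cr c0) : Good arcs cr (v + c0) ↔ v ∈ LL arcs cr := by
  constructor
  · rintro ⟨h1, h2⟩
    refine ⟨fun x hx => ?_, fun x hx => ⟨?_, ?_⟩⟩
    · have h3 := h1 x hx
      have h4 := h0.1 x hx
      simp only [Pi.add_apply, h4] at h3
      exact add_right_cancel h3
    · exact (shift_aux _ _ _ _ (h0.2 x hx).1).mp (h2 x hx).1
    · exact (shift_aux _ _ _ _ (h0.2 x hx).2).mp (h2 x hx).2
  · rintro ⟨h1, h2⟩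
    refine ⟨fun x hx => ?_, fun x hx => ⟨?_, ?_⟩⟩
    · simp only [Pi.add_apply, h1 x hx, h0.1 x hx]
    · exact (shift_aux _ _ _ _ (h0.2 x hx).1).mpr (h2 x hx).1
    · exact (shift_aux _ _ _ _ (h0.2 x hx).2).mpr (h2 x hx).2

open Classical in
theorem sum_chi [Fintype P] [DecidableEq P] [Nonempty P] (arcs : List (P × P)) (cr : List (Crossing P)) :
    ∃ z : ℤ, (∑ col : P → Fin 2, if Good arcs cr col then chi cr col else 0) = 2 * z ∧
      (z = 0 ∨ ∃ j : ℕ, z = 2 ^ j ∨ z = -2 ^ j) := by
  by_cases hne : ∃ c0, Good arcs cr c0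
  · obtain ⟨c0, h0⟩ := hne
    have e1 : (∑ col : P → Fin 2, if Good arcs cr col then chi cr col else 0) =
        chi cr c0 * ∑ v : P → Fin 2, if v ∈ LL arcs cr then chi cr v else 0 := by
      rw [← Equiv.sum_comp (Equiv.addRight c0), Finset.mul_sum]
      refine Finset.sum_congr rfl fun v _ => ?_
      rw [Equiv.coe_addRight]
      by_cases hv : v ∈ LL arcs cr
      · rw [if_pos hv, if_pos ((good_shift arcs cr c0 v h0).mpr hv), chi_add, mul_comm]
      · rw [if_neg hv, if_neg (fun h => hv ((good_shift arcs cr c0 v h0).mp h)), mul_zero]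
    by_cases htriv : ∀ v ∈ LL arcs cr, chi cr v = 1
    · -- the sum is the cardinality
      have e2 : (∑ v : P → Fin 2, if v ∈ LL arcs cr then chi cr v else 0) =
          (Nat.card (LL arcs cr) : ℤ) := by
        have e3 : (∑ v : P → Fin 2, if v ∈ LL arcs cr then chi cr v else 0) =
            ∑ v : P → Fin 2, if v ∈ LL arcs cr then (1 : ℤ) else 0 :=
          Finset.sum_congr rfl fun v _ => by
            by_cases hv : v ∈ LL arcs cr
            · rw [if_pos hv, if_pos hv, htriv v hv]
            · rw [if_neg hv, if_neg hv]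
        rw [e3, Finset.sum_boole, Nat.card_eq_fintype_card, Fintype.card_subtype]
      have hdvd : Nat.card (LL arcs cr) ∣ 2 ^ Fintype.card P := by
        have := AddSubgroup.card_addSubgroup_dvd_card (LL arcs cr)
        rwa [Nat.card_eq_fintype_card (α := P → Fin 2), Fintype.card_fun, Fintype.card_fin] at this
      obtain ⟨k, hk, hk2⟩ := (Nat.dvd_prime_pow Nat.prime_two).mp hdvd
      have hk0 : k ≠ 0 := by
        rintro rfl
        rw [pow_zero, Nat.card_eq_one_iff_unique] at hk2
        obtain ⟨hs, _⟩ := hk2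
        have h1 : (fun _ => 1 : P → Fin 2) ∈ LL arcs cr := ⟨fun _ _ => rfl, fun _ _ => ⟨rfl, rfl⟩⟩
        have h2 : (⟨_, h1⟩ : LL arcs cr) = 0 := Subsingleton.elim _ _
        have h3 : (fun _ => 1 : P → Fin 2) = 0 := congrArg Subtype.val h2
        have h4 : (1 : Fin 2) = 0 := congrFun h3 (Classical.arbitrary P)
        exact absurd h4 (by decide)
      obtain ⟨j, rfl⟩ := Nat.exists_eq_succ_of_ne_zero hk0
      rw [e1, e2, hk2, Nat.succ_eq_add_one, pow_succ]
      rcases chi_cases cr c0 with h | h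
      · exact ⟨2 ^ j, by rw [h]; push_cast; ring, Or.inr ⟨j, Or.inl rfl⟩⟩
      · exact ⟨-2 ^ j, by rw [h]; push_cast; ring, Or.inr ⟨j, Or.inr rfl⟩⟩
    · push Not at htriv
      obtain ⟨v0, hv0, hc0⟩ := htriv
      have hc1 : chi cr v0 = -1 := (chi_cases cr v0).resolve_left hc0
      have e4 : (∑ v : P → Fin 2, if v ∈ LL arcs cr then chi cr v else 0) =
          - ∑ v : P → Fin 2, if v ∈ LL arcs cr then chi cr v else 0 := by
        conv_lhs => rw [← Equiv.sum_comp (Equiv.addRight v0)]
        rw [← Finset.sum_neg_distrib]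
        refine Finset.sum_congr rfl fun v _ => ?_
        rw [Equiv.coe_addRight]
        by_cases hv : v ∈ LL arcs cr
        · rw [if_pos hv, if_pos ((LL arcs cr).add_mem hv hv0), chi_add, hc1]; ring
        · rw [if_neg hv, if_neg (fun h => hv (by
            have := (LL arcs cr).sub_mem h hv0
            rwa [add_sub_cancel_right] at this)), neg_zero]
      refine ⟨0, ?_, Or.inl rfl⟩
      rw [e1]
      have e5 : (∑ v : P → Fin 2, if v ∈ LL arcs cr then chi cr v else 0) = 0 := by linarith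
      rw [e5]; ring
  · refine ⟨0, ?_, Or.inl rfl⟩
    rw [mul_zero]
    refine Finset.sum_eq_zero fun col _ => ?_
    rw [if_neg (fun h => hne ⟨col, h⟩)]

theorem ev_sum [Fintype P] [DecidableEq P] [Nonempty P] (D : Diagram P) (a : ℂˣ)
    (ha : (a : ℂ) = Complex.I) :
    2 * evA a D.bracket = ∑ col : P → Fin 2, WW Complex.I D.arcs D.crossings col := by
  rw [sum_colourings Complex.I_ne_zero, Diagram.bracket, map_sum, Finset.mul_sum]
  refine Finset.sum_congr rfl fun s _ => ?_
  rw [map_mul, map_pow, map_sub, map_neg, evA_T, evA_T, evA_T, ha]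
  have h1 : -Complex.I ^ (2:ℤ) - Complex.I ^ (-2:ℤ) = 2 := by
    have h2 : Complex.I ^ (2:ℤ) = -1 := by
      have : Complex.I ^ (2:ℤ) = Complex.I ^ (2:ℕ) := by norm_cast
      rw [this, Complex.I_sq]
    rw [zpow_neg, h2]
    norm_num
  rw [h1]
  have h2 : 0 < D.loops s := by
    unfold Diagram.loops
    have : Finite (Quot (D.Joined s)) := Quot.finite _
    have : Nonempty (Quot (D.Joined s)) := ⟨Quot.mk _ (Classical.arbitrary P)⟩
    exact Nat.card_pos
  obtain ⟨l, hl⟩ : ∃ l, D.loops s = l + 1 := ⟨D.loops s - 1, by omega⟩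
  rw [hl]
  simp only [Nat.add_sub_cancel]
  push_cast
  ring

/-- R4: at `A = i` every bracket is `i^c` times `0` or `± 2^j` -/
theorem R4 {P : Type} [Fintype P] [DecidableEq P] [Nonempty P] (U : UDiagram P) (a : ℂˣ) 
    (ha : (a : ℂ) = Complex.I) :
    ∃ z : ℤ, evA a U.std.bracket = Complex.I ^ U.crossings.length * z ∧ 
      (z = 0 ∨ ∃ j : ℕ, z = 2 ^ j ∨ z = -2 ^ j) := by
  classical
  obtain ⟨z, hz, hz2⟩ := sum_chi U.std.arcs U.std.crossings
  refine ⟨z, ?_, hz2⟩
  have h1 := ev_sum U.std a ha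
  simp only [WW_I] at h1
  rw [← Finset.mul_sum, ← Int.cast_sum] at h1
  have hlen : U.std.crossings.length = U.crossings.length := by simp [UDiagram.std]
  rw [hlen] at h1
  have h2 : (2 : ℂ) * evA a U.std.bracket = 2 * (Complex.I ^ U.crossings.length * z) := by
    rw [h1]
    have h3 : ((∑ col : P → Fin 2, if Good U.std.arcs U.std.crossings col then
        chi U.std.crossings col else 0 : ℤ) : ℂ) = 2 * z := by
      have h4 : ((2 : ℂ) * z) = ((2 * z : ℤ) : ℂ) := by push_cast; ring
      rw [h4]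
      congr 1
    rw [h3]; ring
  exact mul_left_cancel₀ two_ne_zero h2

end Pool.Agent.H891R2.RF.R4
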