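import Pool.Agent.H891R2.RF.Defs

set_option autoImplicit false

/-! R5: evaluation at a primitive eighth root of unity -/

namespace Pool.Agent.H891R2.RF.R5

open Finset LaurentPolynomial Pool.Agent.H891R2.Jones Pool.Agent.H891R2.MT Pool.Agent.H891R2.RF

/-- R5: evaluation at a primitive eighth root of unity -/
theorem R5 {S : Type} [CommRing S] (φ : ℤ[T;T⁻¹] →+* S) (hφ : φ (T 4) = -1) 
    (w : List (Bool × Bool)) (v : Bool) :
    ∃ k : ℤ, φ (vec w v).1 = φ (T k) * (frac w v).2 ∧ φ (vec w v).2 = - φ (T (k + 2)) * (frac w v).1 := by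
  have hadd : ∀ a b : ℤ, φ (T a) * φ (T b) = φ (T (a + b)) := fun a b => by
    rw [← map_mul, ← T_add]
  have h4 : ∀ a : ℤ, φ (T (a + 4)) = - φ (T a) := fun a => by
    rw [← hadd, hφ, mul_neg_one]
  induction w with
  | nil =>
    cases v
    · refine ⟨0, ?_, ?_⟩ <;> simp [vec, frac]
    · refine ⟨2, ?_, ?_⟩
      · simp [vec, frac]
      · simp [vec, frac, hφ]
  | cons x w ih =>
    obtain ⟨k, h1, h2⟩ := ih
    obtain ⟨side, s⟩ := x
    cases side <;> cases s
    · -- false false
      refine ⟨k + 1, ?_, ?_⟩
      · simp only [vec, act, frac, if_false, map_add, map_mul, map_neg, h1, h2,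
          Bool.false_eq_true]
        have e1 : φ (T (-3)) * φ (T k) = - φ (T (k + 1)) := by
          rw [hadd, show (k + 1 : ℤ) = (-3 + k) + 4 by ring, h4, neg_neg]
        have e2 : φ (T (-1)) * φ (T (k + 2)) = φ (T (k + 1)) := by
          rw [hadd]; congr 2; ring
        push_cast
        linear_combination (-(((frac w v).2 : ℤ) : S)) * e1 - (((frac w v).1 : ℤ) : S) * e2
      · simp only [vec, act, frac, if_false, map_mul, h2, Bool.false_eq_true]
        have e2 : φ (T 1) * φ (T (k + 2)) = φ (T (k + 1 + 2)) := by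
          rw [hadd]; congr 2; ring
        linear_combination (-(((frac w v).1 : ℤ) : S)) * e2
    · -- false true
      refine ⟨k - 1, ?_, ?_⟩
      · simp only [vec, act, frac, if_false, if_true, map_add, map_mul, map_neg, h1, h2,
          Bool.false_eq_true]
        have e1 : φ (T 3) * φ (T k) = - φ (T (k - 1)) := by
          rw [hadd, show (3 + k : ℤ) = (k - 1) + 4 by ring, h4]
        have e2 : φ (T 1) * φ (T (k + 2)) = - φ (T (k - 1)) := by
          rw [hadd, show (1 + (k + 2) : ℤ) = (k - 1) + 4 by ring, h4]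
        push_cast
        linear_combination (-(((frac w v).2 : ℤ) : S)) * e1 - (((frac w v).1 : ℤ) : S) * e2
      · simp only [vec, act, frac, if_false, if_true, map_mul, h2, Bool.false_eq_true]
        have e2 : φ (T (-1)) * φ (T (k + 2)) = φ (T (k - 1 + 2)) := by
          rw [hadd]; congr 2; ring
        linear_combination (-(((frac w v).1 : ℤ) : S)) * e2
    · -- true false
      refine ⟨k - 1, ?_, ?_⟩
      · simp only [vec, act, frac, if_true, if_false, map_mul, h1, Bool.false_eq_true]
        have e1 : φ (T (-1)) * φ (T k) = φ (T (k - 1)) := by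
          rw [hadd]; congr 2; ring
        linear_combination (((frac w v).2 : ℤ) : S) * e1
      · simp only [vec, act, frac, if_true, if_false, map_sub, map_mul, h1, h2,
          Bool.false_eq_true]
        have e1 : φ (T 1) * φ (T k) = φ (T (k - 1 + 2)) := by
          rw [hadd]; congr 2; ring
        have e2 : φ (T 3) * φ (T (k + 2)) = - φ (T (k - 1 + 2)) := by
          rw [hadd, show (3 + (k + 2) : ℤ) = (k - 1 + 2) + 4 by ring, h4]
        push_cast
        linear_combination (((frac w v).2 : ℤ) : S) * e1 + (((frac w v).1 : ℤ) : S) * e2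
    · -- true true
      refine ⟨k + 1, ?_, ?_⟩
      · simp only [vec, act, frac, if_true, map_mul, h1]
        have e1 : φ (T 1) * φ (T k) = φ (T (k + 1)) := by
          rw [hadd]; congr 2; ring
        linear_combination (((frac w v).2 : ℤ) : S) * e1
      · simp only [vec, act, frac, if_true, map_sub, map_mul, h1, h2]
        have e1 : φ (T (-1)) * φ (T k) = - φ (T (k + 1 + 2)) := by
          rw [hadd, show (k + 1 + 2 : ℤ) = (-1 + k) + 4 by ring, h4, neg_neg]
        have e2 : φ (T (-3)) * φ (T (k + 2)) = - φ (T (k + 1 + 2)) := by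
          rw [hadd, show (k + 1 + 2 : ℤ) = (-3 + (k + 2)) + 4 by ring, h4, neg_neg]
        push_cast
        linear_combination (((frac w v).2 : ℤ) : S) * e1 + (((frac w v).1 : ℤ) : S) * e2

end Pool.Agent.H891R2.RF.R5
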