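import Pool.Agent.H891R2.RF.Defs
import Pool.Agent.H891R2.RF.R5

set_option autoImplicit false

/-! R6: the denominator is ±1 modulo the numerator -/

namespace Pool.Agent.H891R2.RF.R6

open Finset LaurentPolynomial Pool.Agent.H891R2.Jones Pool.Agent.H891R2.MT Pool.Agent.H891R2.RF

/-- `X ^ 4 + 1` -/
noncomputable abbrev F (D : ℕ) : Polynomial (ZMod D) := Polynomial.X ^ 4 + 1

abbrev S (D : ℕ) : Type := AdjoinRoot (F D)

lemma root_pow (D : ℕ) : (AdjoinRoot.root (F D)) ^ 4 = (-1 : S D) := by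
  have h := AdjoinRoot.mk_self (f := F D)
  simp only [F, map_add, map_pow, AdjoinRoot.mk_X, map_one] at h
  exact eq_neg_of_add_eq_zero_left h

noncomputable def u (D : ℕ) : (S D)ˣ where
  val := AdjoinRoot.root (F D)
  inv := - (AdjoinRoot.root (F D)) ^ 3
  val_inv := by
    have := root_pow D
    linear_combination -this
  inv_val := by
    have := root_pow D
    linear_combination -this

lemma u_pow (D : ℕ) : u D ^ 4 = -1 := by
  ext
  simp only [Units.val_pow_eq_pow_val, Units.val_neg, Units.val_one]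
  exact root_pow D

noncomputable def φ (D : ℕ) : ℤ[T;T⁻¹] →+* S D :=
  LaurentPolynomial.eval₂ (Int.castRingHom (S D)) (u D)

lemma φ_T (D : ℕ) (n : ℤ) : φ D (T n) = ((u D ^ n : (S D)ˣ) : S D) := by
  simp [φ]

lemma φ_C (D : ℕ) (n : ℤ) : φ D (C n) = (n : S D) := by
  simp [φ]

lemma zpow_red (D : ℕ) (j : ℤ) : ∃ (δ : ℤ) (r : ℕ), (δ = 1 ∨ δ = -1) ∧ r < 4 ∧ 
    ((u D ^ j : (S D)ˣ) : S D) = (δ : S D) * AdjoinRoot.root (F D) ^ r := by
  have hj : j = 4 * (j / 4) + j % 4 := (Int.mul_ediv_add_emod j 4).symm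
  have hr0 : 0 ≤ j % 4 := Int.emod_nonneg _ (by norm_num)
  have hr4 : j % 4 < 4 := Int.emod_lt_of_pos _ (by norm_num)
  have h1 : (u D ^ j : (S D)ˣ) = (-1) ^ (j / 4) * u D ^ (j % 4).toNat := by
    conv_lhs => rw [hj]
    rw [zpow_add, zpow_mul]
    congr 1
    · congr 1
      exact_mod_cast u_pow D
    · rw [← zpow_natCast, Int.toNat_of_nonneg hr0]
  rcases Int.even_or_odd (j / 4) with he | ho
  · refine ⟨1, (j % 4).toNat, Or.inl rfl, by omega, ?_⟩
    rw [h1, he.neg_one_zpow]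
    simp [u]
  · refine ⟨-1, (j % 4).toNat, Or.inr rfl, by omega, ?_⟩
    rw [h1, ho.neg_one_zpow]
    simp [u]

/-- R6 (uses R5) -/
theorem R6 (w0 w1 : ℤ[T;T⁻¹]) (w : List (Bool × Bool)) (v : Bool) (h0 : IsU w0)
    (h : IsU (w0 * (vec w v).1 + w1 * (vec w v).2)) (hp : 2 ≤ |(frac w v).1|) :
    ∃ t η : ℤ, (η = 1 ∨ η = -1) ∧ (frac w v).2 = t * (frac w v).1 + η := by
  obtain ⟨m0, ε0, hε0, h0⟩ := h0
  obtain ⟨m1, ε1, hε1, h1⟩ := h
  set p := (frac w v).1 with hpdef
  set q := (frac w v).2 with hqdef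
  set D := p.natAbs with hD
  have hD2 : 2 ≤ D := by
    rw [Int.abs_eq_natAbs] at hp
    exact_mod_cast hp
  have : Fact (1 < D) := ⟨by omega⟩
  have hpD : (p : S D) = 0 := by
    have : (p : ZMod D) = 0 := by
      rw [ZMod.intCast_zmod_eq_zero_iff_dvd]
      exact Int.natAbs_dvd.mpr dvd_rfl
    have h2 : ((p : ZMod D) : ZMod D) = 0 := this
    have h3 := congrArg (algebraMap (ZMod D) (S D)) h2
    simpa using h3
  have hφ4 : φ D (T 4) = -1 := by
    rw [φ_T]
    have := u_pow D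
    have h2 : (u D ^ (4 : ℤ) : (S D)ˣ) = -1 := by exact_mod_cast this
    rw [h2]; simp
  obtain ⟨k, e1, e2⟩ := R5.R5 (φ D) hφ4 w v
  rw [← hpdef] at e2
  rw [← hqdef] at e1
  rw [hpD, mul_zero] at e2
  have e3 := congrArg (φ D) h1
  rw [map_add, map_mul, map_mul, e1, e2, mul_zero, add_zero, h0, map_mul, map_mul, φ_C, φ_C,
    φ_T, φ_T, φ_T] at e3
  -- solve for q
  have hε0' : (ε0 : S D) * ε0 = 1 := by
    rcases hε0 with rfl | rfl <;> simp
  have e4 : (q : S D) = ((ε0 * ε1 : ℤ) : S D) * ((u D ^ (m1 - m0 - k) : (S D)ˣ) : S D) := by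
    have hinv : ((u D ^ (-m0 - k) : (S D)ˣ) : S D) * (((u D ^ m0 : (S D)ˣ) : S D) * 
        ((u D ^ k : (S D)ˣ) : S D)) = 1 := by
      rw [← Units.val_mul, ← Units.val_mul, ← zpow_add, ← zpow_add]
      rw [show -m0 - k + (m0 + k) = 0 by ring]; simp
    have hm : ((u D ^ (m1 - m0 - k) : (S D)ˣ) : S D) = ((u D ^ (-m0 - k) : (S D)ˣ) : S D) *
        ((u D ^ m1 : (S D)ˣ) : S D) := by
      rw [← Units.val_mul, ← zpow_add]; congr 2; ring
    rw [hm]
    push_cast
    linear_combination (ε0 : S D) * ((u D ^ (-m0 - k) : (S D)ˣ) : S D) * e3 - 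
      (q : S D) * hinv * ((ε0 : S D) * ε0) - (q : S D) * hε0'
  obtain ⟨δ, r, hδ, hr, e5⟩ := zpow_red D (m1 - m0 - k)
  rw [e5] at e4
  set δ' : ℤ := ε0 * ε1 * δ with hδ'
  have hδ1 : δ' = 1 ∨ δ' = -1 := by
    rcases hε0 with rfl | rfl <;> rcases hε1 with rfl | rfl <;> rcases hδ with rfl | rfl <;>
      simp [hδ']
  have e6 : AdjoinRoot.mk (F D) (Polynomial.C (q : ZMod D) - 
      Polynomial.C (δ' : ZMod D) * Polynomial.X ^ r) = 0 := by
    rw [map_sub, map_mul, map_pow, AdjoinRoot.mk_X]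
    simp only [map_intCast]
    rw [e4, hδ']
    push_cast
    ring
  rw [AdjoinRoot.mk_eq_zero] at e6
  have hmonic : (F D).Monic := by
    have : (F D) = Polynomial.X ^ 4 + Polynomial.C 1 := by simp [F]
    rw [this]
    exact Polynomial.monic_X_pow_add_C _ (by norm_num)
  have hdegF : (F D).degree = 4 := by
    have : (F D) = Polynomial.X ^ 4 + Polynomial.C 1 := by simp [F]
    rw [this]
    exact Polynomial.degree_X_pow_add_C (by norm_num) _
  have hzero : Polynomial.C (q : ZMod D) - Polynomial.C (δ' : ZMod D) * Polynomial.X ^ r = 0 := by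
    by_contra hne
    refine Polynomial.Monic.not_dvd_of_degree_lt hmonic hne ?_ e6
    rw [hdegF]
    refine (Polynomial.degree_sub_le _ _).trans_lt (max_lt ?_ ?_)
    · exact Polynomial.degree_C_le.trans_lt (by norm_num)
    · refine (Polynomial.degree_C_mul_X_pow_le _ _).trans_lt ?_
      exact_mod_cast hr
  have hδne : (δ' : ZMod D) ≠ 0 := by
    rcases hδ1 with h | h <;> rw [h] <;> simp
  have hr0 : r = 0 := by
    by_contra hr0
    have h9 : (Polynomial.C (q : ZMod D) - 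
        Polynomial.C (δ' : ZMod D) * Polynomial.X ^ r).coeff r = 0 := by rw [hzero]; rfl
    rw [Polynomial.coeff_sub, Polynomial.coeff_C_ne_zero hr0, Polynomial.coeff_C_mul,
      Polynomial.coeff_X_pow_self, mul_one, zero_sub, neg_eq_zero] at h9
    exact hδne h9
  rw [hr0, pow_zero, mul_one, ← Polynomial.C_sub, Polynomial.C_eq_zero] at hzero
  have h7 : ((q - δ' : ℤ) : ZMod D) = 0 := by push_cast; exact hzero
  rw [ZMod.intCast_zmod_eq_zero_iff_dvd] at h7
  have h8 : p ∣ q - δ' := Int.natAbs_dvd.mp h7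
  obtain ⟨t, ht⟩ := h8
  exact ⟨t, δ', hδ1, by linarith [mul_comm p t]⟩

end Pool.Agent.H891R2.RF.R6
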