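import Pool.Agent.H891R2.RF.Defs

set_option autoImplicit false

/-! R7: tangles of slope `0` have the vector of the tangle `0` up to a unit. -/

namespace Pool.Agent.H891R2.RF.R7

open Finset LaurentPolynomial Pool.Agent.H891R2.Jones Pool.Agent.H891R2.MT Pool.Agent.H891R2.RF

abbrev RR : Type := LaurentPolynomial ℤ

theorem tt : (T 1 : RR) * T (-1) = 1 := by
  rw [← T_add]; exact T_zero

theorem T3 : (T 3 : RR) = T 1 ^ 3 := by rw [T_pow]; norm_num
theorem Tm3 : (T (-3) : RR) = T (-1) ^ 3 := by rw [T_pow]; norm_num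

theorem IsU_mul {f g : RR} (hf : IsU f) (hg : IsU g) : IsU (f * g) := by
  obtain ⟨m, ε, hε, rfl⟩ := hf
  obtain ⟨n, δ, hδ, rfl⟩ := hg
  refine ⟨m + n, ε * δ, ?_, ?_⟩
  · rcases hε with rfl | rfl <;> rcases hδ with rfl | rfl <;> simp
  · rw [T_add, C_mul_eq]
    ring
where C_mul_eq {a b : ℤ} : (C (a * b) : RR) = C a * C b := by simp

theorem IsU_one : IsU (1 : RR) := ⟨0, 1, Or.inl rfl, by simp⟩
theorem IsU_T (n : ℤ) : IsU (T n : RR) := ⟨n, 1, Or.inl rfl, by simp⟩
theorem IsU_negT (n : ℤ) : IsU (-T n : RR) := ⟨n, -1, Or.inr rfl, by simp⟩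

/-- one step on the slopes -/
def fact (side s : Bool) (x : ℤ × ℤ) : ℤ × ℤ :=
  if side then (x.1 + (if s then 1 else -1) * x.2, x.2)
  else (x.1, x.2 + (if s then 1 else -1) * x.1)

theorem frac_cons (side s : Bool) (w : List (Bool × Bool)) (v : Bool) :
    frac ((side, s) :: w) v = fact side s (frac w v) := by
  simp only [frac, fact]

/-- same up to a unit and a sign -/
def St (V : RR × RR) (F : ℤ × ℤ) (V0 : RR × RR) (F0 : ℤ × ℤ) : Prop :=
  (∃ u : RR, IsU u ∧ V = (u * V0.1, u * V0.2)) ∧
    ∃ ε : ℤ, (ε = 1 ∨ ε = -1) ∧ F = (ε * F0.1, ε * F0.2)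

theorem St.trans {V V0 V1 : RR × RR} {F F0 F1 : ℤ × ℤ} (h : St V F V0 F0) (h' : St V0 F0 V1 F1) :
    St V F V1 F1 := by
  obtain ⟨⟨u, hu, rfl⟩, ε, hε, rfl⟩ := h
  obtain ⟨⟨u', hu', rfl⟩, ε', hε', rfl⟩ := h'
  refine ⟨⟨u * u', IsU_mul hu hu', ?_⟩, ε * ε', ?_, ?_⟩
  · simp only [mul_assoc]
  · rcases hε with rfl | rfl <;> rcases hε' with rfl | rfl <;> simp
  · simp only [mul_assoc]

theorem St.act {V V0 : RR × RR} {F F0 : ℤ × ℤ} (side s : Bool) (h : St V F V0 F0) :
    St (RF.act side s V) (fact side s F) (RF.act side s V0) (fact side s F0) := by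
  obtain ⟨⟨u, hu, rfl⟩, ε, hε, rfl⟩ := h
  refine ⟨⟨u, hu, ?_⟩, ε, hε, ?_⟩
  · cases side <;> cases s <;> simp only [RF.act, Prod.mk.injEq, if_true, Bool.false_eq_true, if_false] <;>
      constructor <;> grind
  · cases side <;> cases s <;> simp only [fact, Prod.mk.injEq, if_true, Bool.false_eq_true, if_false] <;>
      constructor <;> grind

theorem St.of_eq {V V0 : RR × RR} {F F0 : ℤ × ℤ} (u : RR) (hu : IsU u) (ε : ℤ) (hε : ε = 1 ∨ ε = -1)
    (h1 : V = (u * V0.1, u * V0.2)) (h2 : F = (ε * F0.1, ε * F0.2)) : St V F V0 F0 :=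
  ⟨⟨u, hu, h1⟩, ε, hε, h2⟩

/-- positive words -/
noncomputable def mv : List Bool → RR × RR
  | [] => (T 1, T (-1))
  | (b :: m) => RF.act b true (mv m)

def mf : List Bool → ℤ × ℤ
  | [] => (1, 1)
  | (b :: m) => fact b true (mf m)

/-- the swap -/
def sw (V : RR × RR) : RR × RR := (V.2, V.1)
def sf (F : ℤ × ℤ) : ℤ × ℤ := (-F.2, F.1)

theorem mf_pos (m : List Bool) : 0 < (mf m).1 ∧ 0 < (mf m).2 := by
  induction m with
  | nil => simp [mf]
  | cons b m ih =>
    cases b <;> simp only [mf, fact, if_true, Bool.false_eq_true, if_false] <;>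
      constructor <;> omega

/-- the invariant -/
def Inv (V : RR × RR) (F : ℤ × ℤ) : Prop :=
  St V F (1, 0) (0, 1) ∨ St V F (0, 1) (1, 0) ∨ (∃ m, St V F (mv m) (mf m)) ∨
    ∃ m, St V F (sw (mv m)) (sf (mf m))

/-- algebraic identities -/
theorem c1 (s : Bool) (side : Bool) (V : RR × RR) (F : ℤ × ℤ) :
    St (RF.act side (!s) (RF.act side s V)) (fact side (!s) (fact side s F)) V F := by
  obtain ⟨a, b⟩ := V
  obtain ⟨p, q⟩ := F
  have h := tt
  refine St.of_eq 1 IsU_one 1 (Or.inl rfl) ?_ ?_
  · cases side <;> cases s <;>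
      simp only [RF.act, Prod.mk.injEq, if_true, Bool.false_eq_true, if_false, Bool.not_true,
        Bool.not_false, T3, Tm3] <;> constructor <;> grind
  · cases side <;> cases s <;>
      simp only [fact, Prod.mk.injEq, if_true, Bool.false_eq_true, if_false, Bool.not_true,
        Bool.not_false] <;> constructor <;> ring

/-- `S y = x' S`, `S x = y' S` -/
theorem c2 (side : Bool) (V : RR × RR) (F : ℤ × ℤ) :
    St (RF.act side false (sw V)) (fact side false (sf F)) (sw (RF.act (!side) true V))
      (sf (fact (!side) true F)) := by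
  obtain ⟨a, b⟩ := V
  obtain ⟨p, q⟩ := F
  have h := tt
  refine St.of_eq 1 IsU_one 1 (Or.inl rfl) ?_ ?_
  · cases side <;>
      simp only [RF.act, sw, Prod.mk.injEq, if_true, Bool.false_eq_true, if_false, Bool.not_true,
        Bool.not_false, T3, Tm3] <;> constructor <;> grind
  · cases side <;>
      simp only [fact, sf, Prod.mk.injEq, if_true, Bool.false_eq_true, if_false, Bool.not_true,
        Bool.not_false] <;> constructor <;> ring

/-- `x S x ~ y`, `y S y ~ x` -/
theorem c3 (side : Bool) (V : RR × RR) (F : ℤ × ℤ) :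
    St (RF.act side true (sw (RF.act side true V))) (fact side true (sf (fact side true F)))
      (RF.act (!side) true V) (fact (!side) true F) := by
  obtain ⟨a, b⟩ := V
  obtain ⟨p, q⟩ := F
  have h := tt
  cases side
  · refine St.of_eq (-T 3) (IsU_negT 3) (-1) (Or.inr rfl) ?_ ?_
    · simp only [RF.act, sw, Prod.mk.injEq, if_true, Bool.false_eq_true, if_false, Bool.not_true,
        Bool.not_false, T3, Tm3]
      constructor <;> grind
    · simp only [fact, sf, Prod.mk.injEq, if_true, Bool.false_eq_true, if_false, Bool.not_true,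
        Bool.not_false]
      constructor <;> ring
  · refine St.of_eq (-T (-3)) (IsU_negT (-3)) 1 (Or.inl rfl) ?_ ?_
    · simp only [RF.act, sw, Prod.mk.injEq, if_true, Bool.false_eq_true, if_false, Bool.not_true,
        Bool.not_false, T3, Tm3]
      constructor <;> grind
    · simp only [fact, sf, Prod.mk.injEq, if_true, Bool.false_eq_true, if_false, Bool.not_true,
        Bool.not_false]
      constructor <;> ring

/-- `x' y ~ S x`, `y' x ~ S y` -/
theorem c4 (side : Bool) (V : RR × RR) (F : ℤ × ℤ) :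
    St (RF.act side false (RF.act (!side) true V)) (fact side false (fact (!side) true F))
      (sw (RF.act side true V)) (sf (fact side true F)) := by
  obtain ⟨a, b⟩ := V
  obtain ⟨p, q⟩ := F
  have h := tt
  cases side
  · refine St.of_eq (-T (-3)) (IsU_negT (-3)) (-1) (Or.inr rfl) ?_ ?_
    · simp only [RF.act, sw, Prod.mk.injEq, if_true, Bool.false_eq_true, if_false, Bool.not_true,
        Bool.not_false, T3, Tm3]
      constructor <;> grind
    · simp only [fact, sf, Prod.mk.injEq, if_true, Bool.false_eq_true, if_false, Bool.not_true,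
        Bool.not_false]
      constructor <;> ring
  · refine St.of_eq (-T 3) (IsU_negT 3) 1 (Or.inl rfl) ?_ ?_
    · simp only [RF.act, sw, Prod.mk.injEq, if_true, Bool.false_eq_true, if_false, Bool.not_true,
        Bool.not_false, T3, Tm3]
      constructor <;> grind
    · simp only [fact, sf, Prod.mk.injEq, if_true, Bool.false_eq_true, if_false, Bool.not_true,
        Bool.not_false]
      constructor <;> ring

/-- base cases -/
theorem b0x (s : Bool) : St (RF.act true s (1, 0)) (fact true s (0, 1))
    (if s then mv [] else sw (mv [])) (if s then mf [] else sf (mf [])) := by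
  cases s
  · refine St.of_eq 1 IsU_one 1 (Or.inl rfl) ?_ ?_ <;> simp [RF.act, fact, mv, mf, sw, sf]
  · refine St.of_eq 1 IsU_one 1 (Or.inl rfl) ?_ ?_ <;> simp [RF.act, fact, mv, mf, sw, sf]

theorem b0y (s : Bool) : St (RF.act false s (1, 0)) (fact false s (0, 1)) (1, 0) (0, 1) := by
  cases s
  · refine St.of_eq (-T (-3)) (IsU_negT (-3)) 1 (Or.inl rfl) ?_ ?_ <;> simp [RF.act, fact]
  · refine St.of_eq (-T 3) (IsU_negT 3) 1 (Or.inl rfl) ?_ ?_ <;> simp [RF.act, fact]

theorem b1x (s : Bool) : St (RF.act true s (0, 1)) (fact true s (1, 0)) (0, 1) (1, 0) := by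
  cases s
  · refine St.of_eq (-T 3) (IsU_negT 3) 1 (Or.inl rfl) ?_ ?_ <;> simp [RF.act, fact]
  · refine St.of_eq (-T (-3)) (IsU_negT (-3)) 1 (Or.inl rfl) ?_ ?_ <;> simp [RF.act, fact]

theorem b1y (s : Bool) : St (RF.act false s (0, 1)) (fact false s (1, 0))
    (if s then mv [] else sw (mv [])) (if s then mf [] else sf (mf [])) := by
  cases s
  · refine St.of_eq 1 IsU_one (-1) (Or.inr rfl) ?_ ?_ <;> simp [RF.act, fact, mv, mf, sw, sf]
  · refine St.of_eq 1 IsU_one 1 (Or.inl rfl) ?_ ?_ <;> simp [RF.act, fact, mv, mf, sw, sf]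

theorem e1 (side : Bool) : St (RF.act side false (mv [])) (fact side false (mf []))
    (if side then (1, 0) else (0, 1)) (if side then (0, 1) else (1, 0)) := by
  have h := tt
  cases side
  · refine St.of_eq 1 IsU_one 1 (Or.inl rfl) ?_ ?_
    · simp only [RF.act, mv, Prod.mk.injEq, if_true, Bool.false_eq_true, if_false, T3, Tm3]
      constructor <;> grind
    · simp [fact, mf]
  · refine St.of_eq 1 IsU_one 1 (Or.inl rfl) ?_ ?_
    · simp only [RF.act, mv, Prod.mk.injEq, if_true, Bool.false_eq_true, if_false, T3, Tm3]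
      constructor <;> grind
    · simp [fact, mf]

theorem e2 (side : Bool) : St (RF.act side true (sw (mv []))) (fact side true (sf (mf [])))
    (if side then (1, 0) else (0, 1)) (if side then (0, 1) else (1, 0)) := by
  have h := tt
  cases side
  · refine St.of_eq 1 IsU_one (-1) (Or.inr rfl) ?_ ?_
    · simp only [RF.act, mv, sw, Prod.mk.injEq, if_true, Bool.false_eq_true, if_false, T3, Tm3]
      constructor <;> grind
    · simp [fact, mf, sf]
  · refine St.of_eq 1 IsU_one 1 (Or.inl rfl) ?_ ?_
    · simp only [RF.act, mv, sw, Prod.mk.injEq, if_true, Bool.false_eq_true, if_false, T3, Tm3]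
      constructor <;> grind
    · simp [fact, mf, sf]

theorem Inv.step {V : RR × RR} {F : ℤ × ℤ} (side s : Bool) (h : Inv V F) :
    Inv (RF.act side s V) (fact side s F) := by
  rcases h with h | h | ⟨m, h⟩ | ⟨m, h⟩
  · have h' := h.act side s
    cases side
    · exact Or.inl (h'.trans (b0y s))
    · cases s
      · exact Or.inr (Or.inr (Or.inr ⟨[], h'.trans (b0x false)⟩))
      · exact Or.inr (Or.inr (Or.inl ⟨[], h'.trans (b0x true)⟩))
  · have h' := h.act side s
    cases side
    · cases s
      · exact Or.inr (Or.inr (Or.inr ⟨[], h'.trans (b1y false)⟩))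
      · exact Or.inr (Or.inr (Or.inl ⟨[], h'.trans (b1y true)⟩))
    · exact Or.inr (Or.inl (h'.trans (b1x s)))
  · have h' := h.act side s
    cases s
    · cases m with
      | nil =>
        cases side
        · exact Or.inr (Or.inl (h'.trans (e1 false)))
        · exact Or.inl (h'.trans (e1 true))
      | cons b m =>
        by_cases hb : b = side
        · subst hb
          exact Or.inr (Or.inr (Or.inl ⟨m, h'.trans (c1 true b (mv m) (mf m))⟩))
        · have hb' : b = !side := by cases b <;> cases side <;> simp_all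
          subst hb'
          exact Or.inr (Or.inr (Or.inr ⟨side :: m, h'.trans (c4 side (mv m) (mf m))⟩))
    · exact Or.inr (Or.inr (Or.inl ⟨side :: m, h'⟩))
  · have h' := h.act side s
    cases s
    · exact Or.inr (Or.inr (Or.inr ⟨(!side) :: m, h'.trans (c2 side (mv m) (mf m))⟩))
    · cases m with
      | nil =>
        cases side
        · exact Or.inr (Or.inl (h'.trans (e2 false)))
        · exact Or.inl (h'.trans (e2 true))
      | cons b m =>
        by_cases hb : b = side
        · subst hb
          exact Or.inr (Or.inr (Or.inl ⟨(!b) :: m, h'.trans (c3 b (mv m) (mf m))⟩))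
        · have hb' : b = !side := by cases b <;> cases side <;> simp_all
          subst hb'
          refine Or.inr (Or.inr (Or.inr ⟨m, h'.trans ?_⟩))
          -- act side true (sw (act (!side) true V)) ~ act side true (act side false (sw V)) ~ sw V
          have h1 := c2 side (mv m) (mf m)
          have h2 := c1 false side (sw (mv m)) (sf (mf m))
          obtain ⟨⟨u, hu, e1⟩, ε, hε, e2⟩ := h1
          have h3 : St (sw (RF.act (!side) true (mv m))) (sf (fact (!side) true (mf m)))
              (RF.act side false (sw (mv m))) (fact side false (sf (mf m))) := by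
            obtain ⟨a, b⟩ := mv m
            obtain ⟨p, q⟩ := mf m
            have h := tt
            refine St.of_eq 1 IsU_one 1 (Or.inl rfl) ?_ ?_
            · cases side <;>
                simp only [RF.act, sw, Prod.mk.injEq, if_true, Bool.false_eq_true, if_false,
                  Bool.not_true, Bool.not_false, T3, Tm3] <;> constructor <;> grind
            · cases side <;>
                simp only [fact, sf, Prod.mk.injEq, if_true, Bool.false_eq_true, if_false,
                  Bool.not_true, Bool.not_false] <;> constructor <;> ring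
          exact (h3.act side true).trans h2

theorem inv_all (w : List (Bool × Bool)) (v : Bool) : Inv (vec w v) (frac w v) := by
  induction w with
  | nil =>
    cases v
    · exact Or.inl (St.of_eq 1 IsU_one 1 (Or.inl rfl) (by simp [vec]) (by simp [frac]))
    · exact Or.inr (Or.inl (St.of_eq 1 IsU_one 1 (Or.inl rfl) (by simp [vec]) (by simp [frac])))
  | cons x w ih =>
    obtain ⟨side, s⟩ := x
    rw [frac_cons]
    exact ih.step side s

/-- R7: the tangles of slope `0` -/
theorem R7 (w : List (Bool × Bool)) (v : Bool) (h : (frac w v).1 = 0) :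
    ∃ u, IsU u ∧ vec w v = (u, 0) := by
  rcases inv_all w v with h1 | h1 | ⟨m, h1⟩ | ⟨m, h1⟩
  · obtain ⟨⟨u, hu, h2⟩, -⟩ := h1
    exact ⟨u, hu, by rw [h2]; simp⟩
  · obtain ⟨-, ε, hε, h2⟩ := h1
    rw [h2] at h
    rcases hε with rfl | rfl <;> simp at h
  · obtain ⟨-, ε, hε, h2⟩ := h1
    rw [h2] at h
    have := (mf_pos m).1
    rcases hε with rfl | rfl <;> simp at h <;> omega
  · obtain ⟨-, ε, hε, h2⟩ := h1
    rw [h2] at h
    have := (mf_pos m).2
    rcases hε with rfl | rfl <;> simp [sf] at h <;> omega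

end Pool.Agent.H891R2.RF.R7
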