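import Pool.Agent.H891R2.RF.Defs

set_option autoImplicit false

/-! R8a: the main algebraic step for `|n| ≥ 4` -/

namespace Pool.Agent.H891R2.RF.R8a

open Finset LaurentPolynomial Pool.Agent.H891R2.Jones Pool.Agent.H891R2.MT

/-- evaluation at `A = a` -/
noncomputable def evA (a : ℂˣ) : ℤ[T;T⁻¹] →+* ℂ := LaurentPolynomial.eval₂ (Int.castRingHom ℂ) a

theorem evA_T (a : ℂˣ) (n : ℤ) : evA a (T n) = (a : ℂ) ^ n := by
  unfold evA
  rw [eval₂_T, Units.val_zpow_eq_zpow_val]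

theorem evA_C (a : ℂˣ) (n : ℤ) : evA a (C n) = (n : ℂ) := by
  unfold evA
  rw [eval₂_C]
  rfl

theorem evA_dd (a : ℂˣ) : evA a dd = -(a : ℂ) ^ (2 : ℤ) - (a : ℂ) ^ (-2 : ℤ) := by
  unfold dd
  rw [map_sub, map_neg, evA_T, evA_T]

theorem T_sub_one_ne (n : ℤ) (hn : n ≠ 0) : (T n : ℤ[T;T⁻¹]) - 1 ≠ 0 := by
  intro h
  let x : ℝˣ := Units.mk0 2 two_ne_zero
  have h1 := congrArg (LaurentPolynomial.eval₂ (Int.castRingHom ℝ) x) h
  rw [map_sub, map_one, map_zero, eval₂_T, Units.val_zpow_eq_zpow_val, sub_eq_zero] at h1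
  have h2 : (2 : ℝ) ^ n = 2 ^ (0 : ℤ) := by
    rw [zpow_zero]
    exact h1
  exact hn (zpow_right_injective₀ (by norm_num) (by norm_num) h2)

/-- geometric sums -/
theorem geom (φ : ℤ[T;T⁻¹] →+* ℂ) (k m : ℤ) (hφ : φ (T k) = 1) :
    ∃ G : ℤ[T;T⁻¹], (T (k * m) : ℤ[T;T⁻¹]) - 1 = (T k - 1) * G ∧ φ G = m := by
  have nat : ∀ j : ℕ, (T (k * (j : ℤ)) : ℤ[T;T⁻¹]) - 1 =
      (T k - 1) * ∑ i ∈ range j, (T k : ℤ[T;T⁻¹]) ^ i := by
    intro j
    rw [mul_geom_sum, T_pow, mul_comm]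
  have nat2 : ∀ j : ℕ, φ (∑ i ∈ range j, (T k : ℤ[T;T⁻¹]) ^ i) = j := by
    intro j
    rw [map_sum]
    simp only [map_pow, hφ, one_pow, sum_const, card_range, nsmul_eq_mul, mul_one]
  have hφj : ∀ j : ℕ, φ (T (-(k * (j : ℤ)))) = 1 := by
    intro j
    have h1 : φ (T (k * (j : ℤ))) = 1 := by
      rw [mul_comm, ← T_pow, map_pow, hφ, one_pow]
    have h2 : (T (k * (j : ℤ)) : ℤ[T;T⁻¹]) * T (-(k * (j : ℤ))) = 1 := by
      rw [← T_add, add_neg_cancel, T_zero]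
    have h3 := congrArg φ h2
    rw [map_mul, h1, one_mul, map_one] at h3
    exact h3
  obtain ⟨j, rfl | rfl⟩ := Int.eq_nat_or_neg m
  · exact ⟨_, nat j, by rw [nat2]; simp⟩
  · refine ⟨-(T (-(k * (j : ℤ)))) * ∑ i ∈ range j, (T k : ℤ[T;T⁻¹]) ^ i, ?_, ?_⟩
    · have h1 : (T (k * -(j : ℤ)) : ℤ[T;T⁻¹]) = T (-(k * (j : ℤ))) := by
        congr 1
        ring
      have h2 : (T (k * (j : ℤ)) : ℤ[T;T⁻¹]) * T (-(k * (j : ℤ))) = 1 := by
        rw [← T_add, add_neg_cancel, T_zero]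
      rw [h1]
      calc (T (-(k * (j : ℤ))) : ℤ[T;T⁻¹]) - 1
          = T (-(k * (j : ℤ))) - T (k * (j : ℤ)) * T (-(k * (j : ℤ))) := by rw [h2]
        _ = -(T (-(k * (j : ℤ)))) * (T (k * (j : ℤ)) - 1) := by ring
        _ = _ := by rw [nat j]; ring
    · rw [map_mul, map_neg, hφj, nat2]
      push_cast
      ring

/-- `|1 - 2m|` is a power of two only for `m = 0, 1` -/
theorem arith (z0 z1 m : ℤ) (h0 : z0 = 1 ∨ z0 = -1) (h1 : z1 = 2 * m * z0)
    (h : z0 - z1 = 0 ∨ ∃ j : ℕ, z0 - z1 = 2 ^ j ∨ z0 - z1 = - 2 ^ j) : m = 0 ∨ m = 1 := by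
  rcases h with h | ⟨j, hj⟩
  · exfalso
    rcases h0 with rfl | rfl <;> omega
  · rcases j with _ | j
    · rw [pow_zero] at hj
      rcases h0 with rfl | rfl <;> omega
    · exfalso
      rw [pow_succ] at hj
      generalize (2 : ℤ) ^ j = P at hj
      rcases h0 with rfl | rfl <;> omega

theorem R8a (w0 w1 c : ℤ[T;T⁻¹]) (n : ℤ) (hn : Even n) (hn4 : 4 ≤ |n|)
    (hc : dd * c = T n * (T (-4 * n) - 1)) (h0 : IsU w0) (h : IsU (T n * w0 + c * w1))
    (h6 : ∀ a : ℂˣ, (a : ℂ) + (a : ℂ)⁻¹ = 1 → evA a w1 = 1)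
    (hI : ∀ a : ℂˣ, (a : ℂ) = Complex.I → ∃ (k : ℕ) (z0 z1 : ℤ), evA a w0 = Complex.I ^ k * z0 ∧
      evA a w1 = Complex.I ^ k * z1 ∧ (z0 - z1 = 0 ∨ ∃ j : ℕ, z0 - z1 = 2 ^ j ∨ z0 - z1 = - 2 ^ j)) :
    w1 = dd * w0 := by
  obtain ⟨k1, e0, he0, hw0⟩ := h0
  obtain ⟨k2, e2, he2, hw2⟩ := h
  have hn0 : n ≠ 0 := by
    rintro rfl
    simp at hn4
  have hne : -4 * n ≠ 0 := mul_ne_zero (by norm_num) hn0
  have he0sq : e0 * e0 = 1 := by rcases he0 with rfl | rfl <;> norm_num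
  -- the basic identity
  have key : (T (-4 * n) - 1) * w1 = dd * w0 * (C (e0 * e2) * T (k2 - n - k1) - 1) := by
    have e1 : dd * (T n * w0 + c * w1) = dd * (C e2 * T k2) := by rw [hw2]
    have e2' : (T n : ℤ[T;T⁻¹]) * ((T (-4 * n) - 1) * w1) = T n * (dd * (C e2 * T (k2 - n)) - dd * w0) := by
      have e3 : (T n : ℤ[T;T⁻¹]) * (dd * (C e2 * T (k2 - n))) = dd * (C e2 * T k2) := by
        have : (T k2 : ℤ[T;T⁻¹]) = T n * T (k2 - n) := by
          rw [← T_add]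
          congr 1
          ring
        rw [this]
        ring
      rw [mul_sub, e3, ← e1]
      calc (T n : ℤ[T;T⁻¹]) * ((T (-4 * n) - 1) * w1) = (T n * (T (-4 * n) - 1)) * w1 := by ring
        _ = dd * c * w1 := by rw [hc]
        _ = _ := by ring
    have e4 := (isUnit_T n).mul_left_cancel e2'
    rw [e4, hw0]
    have e5 : (T (k2 - n) : ℤ[T;T⁻¹]) = T k1 * T (k2 - n - k1) := by
      rw [← T_add]
      congr 1
      ring
    have e6 : (C e0 : ℤ[T;T⁻¹]) * C e0 = 1 := by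
      rw [← map_mul, he0sq, map_one]
    rw [e5, map_mul]
    calc dd * (C e2 * (T k1 * T (k2 - n - k1))) - dd * (C e0 * T k1)
        = dd * ((1 : ℤ[T;T⁻¹]) * C e2 * (T k1 * T (k2 - n - k1))) - dd * (C e0 * T k1) := by ring
      _ = dd * (C e0 * C e0 * C e2 * (T k1 * T (k2 - n - k1))) - dd * (C e0 * T k1) := by rw [e6]
      _ = _ := by ring
  -- evaluation at `A = 1`
  have he : e0 * e2 = 1 := by
    have h1 := congrArg (evA 1) key
    rw [map_mul, map_mul, map_mul, map_sub, map_sub, map_mul, evA_T, evA_T, evA_C, evA_dd, hw0,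
      map_mul, evA_C, evA_T, map_one] at h1
    simp only [Units.val_one, one_zpow, sub_self, zero_mul, mul_one] at h1
    have h2 : (-1 - 1 : ℂ) ≠ 0 := by norm_num
    have h3 : (e0 : ℂ) ≠ 0 := by
      rcases he0 with rfl | rfl <;> norm_num
    have h4 := (mul_eq_zero.mp h1.symm).resolve_left (mul_ne_zero h2 h3)
    have h5 : ((e0 * e2 : ℤ) : ℂ) = ((1 : ℤ) : ℂ) := by
      rw [Int.cast_one]
      exact sub_eq_zero.mp h4
    exact_mod_cast h5
  rw [he, map_one, one_mul] at key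
  -- evaluation at a primitive root of unity
  have hdvd : (4 * n) ∣ (k2 - n - k1) := by
    have hN : 4 * n.natAbs ≠ 0 := by
      have := Int.natAbs_ne_zero.mpr hn0
      omega
    have hprim := Complex.isPrimitiveRoot_exp (4 * n.natAbs) hN
    set ζ := Complex.exp (2 * Real.pi * Complex.I / ((4 * n.natAbs : ℕ) : ℂ)) with hζ
    have hζ0 : ζ ≠ 0 := Complex.exp_ne_zero _
    let a : ℂˣ := Units.mk0 ζ hζ0
    have ha : (a : ℂ) = ζ := rfl
    have h1 := congrArg (evA a) key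
    rw [map_mul, map_mul, map_mul, map_sub, map_sub, evA_T, evA_T, evA_dd, hw0, map_mul, evA_C,
      evA_T, map_one, ha] at h1
    have h2 : ζ ^ (-4 * n) = 1 := by
      rw [hprim.zpow_eq_one_iff_dvd]
      rw [Nat.cast_mul, Int.natCast_natAbs]
      rcases abs_choice n with h | h
      · rw [h]
        exact ⟨-1, by push_cast; ring⟩
      · rw [h]
        exact ⟨1, by push_cast; ring⟩
    rw [h2, sub_self, zero_mul] at h1
    have h3 : -ζ ^ (2 : ℤ) - ζ ^ (-2 : ℤ) ≠ 0 := by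
      intro h4
      have h5 : ζ ^ (8 : ℤ) = 1 := by
        have h6 : ζ ^ (4 : ℤ) = -1 := by
          have h7 : ζ ^ (2 : ℤ) * (-ζ ^ (2 : ℤ) - ζ ^ (-2 : ℤ)) = 0 := by rw [h4, mul_zero]
          rw [mul_sub, ← zpow_add₀ hζ0, mul_neg, ← zpow_add₀ hζ0] at h7
          norm_num at h7
          have h8 : ζ ^ (4 : ℤ) = ζ ^ 4 := by norm_cast
          rw [h8]
          linear_combination -h7
        have h9 : (8 : ℤ) = 4 + 4 := by norm_num
        rw [h9, zpow_add₀ hζ0, h6]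
        norm_num
      rw [hprim.zpow_eq_one_iff_dvd] at h5
      have h6 := Int.le_of_dvd (by norm_num) h5
      push_cast at h6
      omega
    have h4 : (e0 : ℂ) * ζ ^ k1 ≠ 0 := by
      apply mul_ne_zero
      · rcases he0 with rfl | rfl <;> norm_num
      · exact zpow_ne_zero _ hζ0
    have h5 := (mul_eq_zero.mp h1.symm).resolve_left (mul_ne_zero h3 h4)
    rw [sub_eq_zero, hprim.zpow_eq_one_iff_dvd] at h5
    rw [← Int.dvd_natAbs, ← Int.natAbs_dvd] 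
    rw [← Int.dvd_natAbs] at h5
    rw [Int.natAbs_mul]
    exact h5
  obtain ⟨m', hm'⟩ := hdvd
  obtain ⟨m, hm⟩ : ∃ m : ℤ, m = -m' := ⟨_, rfl⟩
  have hkk : k2 - n - k1 = -4 * n * m := by rw [hm', hm]; ring
  rw [hkk] at key
  -- evaluation at `A = i`
  let ai : ℂˣ := Units.mk0 Complex.I Complex.I_ne_zero
  have hai : (ai : ℂ) = Complex.I := rfl
  have hφ : evA ai (T (-4 * n)) = 1 := by
    rw [evA_T, hai]
    have h1 : (-4 * n : ℤ) = 4 * (-n) := by ring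
    rw [h1, zpow_mul]
    have h2 : Complex.I ^ (4 : ℤ) = 1 := by
      have : Complex.I ^ (4 : ℤ) = Complex.I ^ 4 := by norm_cast
      rw [this, Complex.I_pow_four]
    rw [h2, one_zpow]
  obtain ⟨G, hG, hGi⟩ := geom (evA ai) (-4 * n) m hφ
  rw [hG] at key
  have hw1 : w1 = dd * w0 * G := by
    have h1 : (T (-4 * n) - 1 : ℤ[T;T⁻¹]) ≠ 0 := T_sub_one_ne _ hne
    apply mul_left_cancel₀ h1
    rw [key]
    ring
  obtain ⟨k, z0, z1, hz0, hz1, hz⟩ := hI ai hai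
  have hz0' : z0 = 1 ∨ z0 = -1 := by
    rw [hw0, map_mul, evA_C, evA_T, hai] at hz0
    have h1 := congrArg norm hz0
    rw [norm_mul, norm_mul, norm_zpow, norm_pow, Complex.norm_I, one_zpow, one_pow, one_mul,
      mul_one, Complex.norm_intCast, Complex.norm_intCast] at h1
    have h2 : |(e0 : ℝ)| = 1 := by
      rcases he0 with rfl | rfl <;> norm_num
    rw [h2] at h1
    have h3 : |z0| = 1 := by
      have : ((|z0| : ℤ) : ℝ) = ((1 : ℤ) : ℝ) := by
        push_cast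
        exact h1.symm
      exact_mod_cast this
    rcases abs_eq (zero_le_one' ℤ) |>.mp h3 with h | h
    · exact Or.inl h
    · exact Or.inr h
  have hz1' : z1 = 2 * m * z0 := by
    rw [hw1, map_mul, map_mul, hz0, hGi, evA_dd, hai] at hz1
    have h1 : -Complex.I ^ (2 : ℤ) - Complex.I ^ (-2 : ℤ) = 2 := by
      have e1 : Complex.I ^ (2 : ℤ) = Complex.I ^ 2 := by norm_cast
      have e2 : Complex.I ^ (-2 : ℤ) = (Complex.I ^ 2)⁻¹ := by
        rw [zpow_neg, e1]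
      rw [e2, e1, Complex.I_sq]
      norm_num
    rw [h1] at hz1
    have h2 : Complex.I ^ k ≠ 0 := pow_ne_zero _ Complex.I_ne_zero
    have h3 : Complex.I ^ k * ((2 * m * z0 : ℤ) : ℂ) = Complex.I ^ k * (z1 : ℂ) := by
      rw [← hz1]
      push_cast
      ring
    have h4 := mul_left_cancel₀ h2 h3
    exact_mod_cast h4.symm
  rcases arith z0 z1 m hz0' hz1' hz with hm0 | hm1
  · exfalso
    rw [hm0, mul_zero, T_zero, sub_self] at hG
    have h1 : (T (-4 * n) - 1 : ℤ[T;T⁻¹]) ≠ 0 := T_sub_one_ne _ hne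
    have h2 := (mul_eq_zero.mp hG.symm).resolve_left h1
    rw [h2, mul_zero] at hw1
    have hex : ∃ a : ℂˣ, (a : ℂ) + (a : ℂ)⁻¹ = 1 := by
      refine ⟨Units.mk0 (Complex.exp ((Real.pi / 3 : ℝ) * Complex.I)) (Complex.exp_ne_zero _), ?_⟩
      show Complex.exp ((Real.pi / 3 : ℝ) * Complex.I) +
        (Complex.exp ((Real.pi / 3 : ℝ) * Complex.I))⁻¹ = 1
      rw [← Complex.exp_neg]
      have h3 := Complex.two_cos ((Real.pi / 3 : ℝ) : ℂ)
      rw [neg_mul] at h3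
      rw [← h3, ← Complex.ofReal_cos, Real.cos_pi_div_three]
      norm_num
    obtain ⟨a, ha⟩ := hex
    have h3 := h6 a ha
    rw [hw1, map_zero] at h3
    exact zero_ne_one h3
  · rw [hm1, mul_one] at hG
    have h1 : (T (-4 * n) - 1 : ℤ[T;T⁻¹]) ≠ 0 := T_sub_one_ne _ hne
    have h2 : G = 1 := by
      apply mul_left_cancel₀ h1
      rw [← hG, mul_one]
    rw [hw1, h2, mul_one]

end Pool.Agent.H891R2.RF.R8a
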