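import Pool.Agent.H891R2.RF.Defs

set_option autoImplicit false

/-!
# R8b: the main algebraic step for `n = 2` and `n = -2`
-/

namespace Pool.Agent.H891R2.RF.R8b

open Finset LaurentPolynomial Pool.Agent.H891R2.Jones Pool.Agent.H891R2.MT Pool.Agent.H891R2.RF

/-- evaluation at `A = a` -/
noncomputable def evA (a : ℂˣ) : ℤ[T;T⁻¹] →+* ℂ := LaurentPolynomial.eval₂ (Int.castRingHom ℂ) a

theorem evA_T (a : ℂˣ) (n : ℤ) : evA a (T n) = (a : ℂ) ^ n := by
  unfold evA
  rw [LaurentPolynomial.eval₂_T]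
  simp

theorem evA_C (a : ℂˣ) (e : ℤ) : evA a (C e) = e := by
  unfold evA
  rw [LaurentPolynomial.eval₂_C]
  simp

theorem evA_dd (a : ℂˣ) : evA a dd = -(a : ℂ) ^ (2 : ℤ) - (a : ℂ) ^ (-2 : ℤ) := by
  unfold dd
  rw [map_sub, map_neg, evA_T, evA_T]

/-- geometric sums -/
theorem exists_G (m : ℤ) : ∃ G : ℤ[T;T⁻¹], (T 4 - 1) * G = T (4 * m) - 1 ∧
    ∀ a : ℂˣ, (a : ℂ) ^ (4 : ℤ) = 1 → evA a G = m := by
  induction m using Int.induction_on with
  | zero => exact ⟨0, by simp, fun a _ => by simp⟩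
  | succ i ih =>
    obtain ⟨G, h1, h2⟩ := ih
    refine ⟨G + T (4 * i), ?_, fun a ha => ?_⟩
    · have e : (T (4 * ((i : ℤ) + 1)) : ℤ[T;T⁻¹]) = T 4 * T (4 * i) := by
        rw [← T_add]; congr 1; ring
      rw [e, mul_add, h1]
      ring
    · rw [map_add, h2 a ha, evA_T, zpow_mul, ha, one_zpow]
      push_cast
      ring
  | pred i ih =>
    obtain ⟨G, h1, h2⟩ := ih
    refine ⟨G - T (4 * (-(i : ℤ) - 1)), ?_, fun a ha => ?_⟩
    · have e : (T (4 * (-(i : ℤ))) : ℤ[T;T⁻¹]) = T 4 * T (4 * (-(i : ℤ) - 1)) := by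
        rw [← T_add]; congr 1; ring
      rw [mul_sub, h1, e]
      ring
    · rw [map_sub, h2 a ha, evA_T, zpow_mul, ha, one_zpow]
      push_cast
      ring

theorem T4_ne : (T 4 - 1 : ℤ[T;T⁻¹]) ≠ 0 := by
  intro h
  have h1 := congrArg (evA (Units.mk0 (2 : ℂ) two_ne_zero)) h
  rw [map_sub, evA_T, map_one, map_zero, Units.val_mk0] at h1
  have h2 : (2 : ℂ) ^ (4 : ℤ) = 16 := by norm_num
  rw [h2] at h1
  norm_num at h1

theorem T4_ne' : (T 4 + 1 : ℤ[T;T⁻¹]) ≠ 0 := by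
  intro h
  have h1 := congrArg (fun f : ℤ[T;T⁻¹] => evA 1 f) h
  simp only [map_add, evA_T, map_one, map_zero] at h1
  simp at h1

theorem odd_pow2 (x : ℤ) (hx : Odd x) (h : x = 0 ∨ ∃ j : ℕ, x = 2 ^ j ∨ x = -2 ^ j) :
    x = 1 ∨ x = -1 := by
  rcases h with rfl | ⟨j, hj⟩
  · exact absurd hx (by decide)
  · cases j with
    | zero => simpa using hj
    | succ j =>
      exfalso
      rw [← Int.not_even_iff_odd] at hx
      apply hx
      rcases hj with rfl | rfl
      · exact ⟨2 ^ j, by rw [pow_succ]; ring⟩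
      · exact ⟨-2 ^ j, by rw [pow_succ]; ring⟩

theorem pow2_cases (m : ℤ) (h1 : m = 0 ∨ ∃ j : ℕ, m = 2 ^ j ∨ m = -2 ^ j)
    (h2 : 1 + m = 0 ∨ ∃ j : ℕ, 1 + m = 2 ^ j ∨ 1 + m = -2 ^ j) :
    m = 0 ∨ m = 1 ∨ m = -1 ∨ m = -2 := by
  rcases Int.even_or_odd m with h | h
  · have h3 : Odd (1 + m) := by
      rw [add_comm]
      exact h.add_one
    rcases odd_pow2 _ h3 h2 with h4 | h4 <;> omega
  · rcases odd_pow2 _ h h1 with h4 | h4 <;> omega

/-- sign changes do not matter -/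
theorem pow2_neg (e x : ℤ) (he : e = 1 ∨ e = -1)
    (h : e * x = 0 ∨ ∃ j : ℕ, e * x = 2 ^ j ∨ e * x = -2 ^ j) :
    x = 0 ∨ ∃ j : ℕ, x = 2 ^ j ∨ x = -2 ^ j := by
  rcases he with rfl | rfl
  · simpa using h
  · rcases h with h | ⟨j, h | h⟩
    · left; omega
    · right; exact ⟨j, Or.inr (by linarith)⟩
    · right; exact ⟨j, Or.inl (by linarith)⟩

theorem I_zpow (k : ℤ) (h : (Complex.I : ℂ) ^ k = 1) : ∃ m : ℤ, k = 4 * m := by
  have h4 : (Complex.I : ℂ) ^ (4 : ℤ) = 1 := by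
    have := Complex.I_pow_four
    exact_mod_cast this
  have h1 : (Complex.I : ℂ) ^ k = Complex.I ^ (k % 4) := by
    conv_lhs => rw [← Int.emod_add_mul_ediv k 4]
    rw [zpow_add₀ Complex.I_ne_zero, zpow_mul, h4, one_zpow, mul_one]
  rw [h1] at h
  have h2 : k % 4 = 0 ∨ k % 4 = 1 ∨ k % 4 = 2 ∨ k % 4 = 3 := by omega
  rcases h2 with h2 | h2 | h2 | h2
  · exact ⟨k / 4, by omega⟩
  · rw [h2, zpow_one] at h
    exact absurd (congrArg Complex.im h) (by simp)
  · rw [h2] at h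
    have h3 : (Complex.I : ℂ) ^ (2 : ℤ) = -1 := by
      have := Complex.I_sq
      exact_mod_cast this
    rw [h3] at h
    norm_num at h
  · rw [h2] at h
    have h3 : (Complex.I : ℂ) ^ (3 : ℤ) = -Complex.I := by
      have := Complex.I_pow_three
      exact_mod_cast this
    rw [h3] at h
    exact absurd (congrArg Complex.im h) (by simp)

/-- the first step: a formula for `w1` -/
theorem step (w0 w1 c : ℤ[T;T⁻¹]) (n : ℤ) (hc : dd * c = T n * (T (-4 * n) - 1))
    (m0 ε0 m1 ε1 : ℤ) (hε0 : ε0 = 1 ∨ ε0 = -1) (h0 : w0 = C ε0 * T m0)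
    (h1 : T n * w0 + c * w1 = C ε1 * T m1) :
    (T (-4 * n) - 1) * w1 = dd * w0 * (C (ε0 * ε1) * T (m1 - n - m0) - 1) := by
  have h2 : w0 * (C (ε0 * ε1) * T (m1 - n - m0)) * T n = C ε1 * T m1 := by
    rw [h0]
    have e1 : (T m1 : ℤ[T;T⁻¹]) = T m0 * T (m1 - n - m0) * T n := by
      rw [← T_add, ← T_add]; congr 1; ring
    have e2 : (C ε0 * C ε0 : ℤ[T;T⁻¹]) = 1 := by
      rw [← map_mul]
      rcases hε0 with rfl | rfl <;> simp
    rw [e1, map_mul]
    linear_combination (C ε1 * (T m0 * T (m1 - n - m0) * T n)) * e2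
  have hu : IsUnit (T n : ℤ[T;T⁻¹]) := isUnit_T n
  apply hu.mul_left_cancel
  linear_combination -w1 * hc + dd * h1 - dd * h2

theorem main_eq (w0 w1 c : ℤ[T;T⁻¹]) (n : ℤ) (hn : n = 2 ∨ n = -2)
    (hc : dd * c = T n * (T (-4 * n) - 1)) (h0 : IsU w0) (h : IsU (T n * w0 + c * w1)) :
    ∃ m : ℤ, (T (-4 * n) - 1) * w1 = dd * w0 * (T (4 * m) - 1) := by
  obtain ⟨m0, ε0, hε0, h0⟩ := h0
  obtain ⟨m1, ε1, hε1, h1⟩ := h
  have hs := step w0 w1 c n hc m0 ε0 m1 ε1 hε0 h0 h1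
  generalize m1 - n - m0 = kk at hs
  have he : ε0 * ε1 = 1 := by
    have h2 := congrArg (evA 1) hs
    rw [h0] at h2
    simp only [map_mul, map_sub, evA_dd, evA_T, evA_C, map_one] at h2
    simp at h2
    have h3 : ((ε0 : ℂ)) ≠ 0 := by
      rcases hε0 with rfl | rfl <;> simp
    rcases hε0 with rfl | rfl <;> rcases hε1 with rfl | rfl <;>
      first
      | (norm_num; done)
      | (exfalso; norm_num at h2; done)
  rw [he] at hs
  have hk : (Complex.I : ℂ) ^ kk = 1 := by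
    have h2 := congrArg (evA (Units.mk0 Complex.I Complex.I_ne_zero)) hs
    rw [h0] at h2
    simp only [map_mul, map_sub, evA_dd, evA_T, evA_C, map_one, Units.val_mk0] at h2
    have h8 : (Complex.I : ℂ) ^ (-4 * n) = 1 := by
      have h4 : (Complex.I : ℂ) ^ (4 : ℤ) = 1 := by
        have := Complex.I_pow_four
        exact_mod_cast this
      have : (-4 * n) = 4 * (-n) := by ring
      rw [this, zpow_mul, h4, one_zpow]
    have h3 : (Complex.I : ℂ) ^ (2 : ℤ) = -1 := by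
      have := Complex.I_sq
      exact_mod_cast this
    have h3' : (Complex.I : ℂ) ^ (-2 : ℤ) = -1 := by
      rw [zpow_neg, h3]
      norm_num
    rw [h8, h3, h3', sub_self, zero_mul] at h2
    have h5 : ((ε0 : ℂ)) ≠ 0 := by
      rcases hε0 with rfl | rfl <;> simp
    have h6 : (Complex.I : ℂ) ^ m0 ≠ 0 := zpow_ne_zero _ Complex.I_ne_zero
    have h7 : (- (-1 : ℂ) - -1) * ((ε0 : ℂ) * Complex.I ^ m0) ≠ 0 := by
      refine mul_ne_zero (by norm_num) (mul_ne_zero h5 h6)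
    have h9 := (mul_eq_zero.1 h2.symm).resolve_left h7
    simpa [sub_eq_zero] using h9
  obtain ⟨m, rfl⟩ := I_zpow kk hk
  refine ⟨m, ?_⟩
  rw [hs]
  simp

theorem exists_a : ∃ a : ℂˣ, (a : ℂ) + (a : ℂ)⁻¹ = 1 := by
  obtain ⟨s, hs⟩ := IsAlgClosed.exists_pow_nat_eq (-3 : ℂ) (n := 2) (by norm_num)
  have h1 : ((1 + s) / 2) ^ 2 - (1 + s) / 2 + 1 = 0 := by linear_combination hs / 4
  have h2 : (1 + s) / 2 ≠ 0 := by
    intro h
    rw [h] at h1
    norm_num at h1
  refine ⟨Units.mk0 ((1 + s) / 2) h2, ?_⟩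
  rw [Units.val_mk0]
  apply mul_left_cancel₀ h2
  rw [mul_add, mul_inv_cancel₀ h2]
  linear_combination h1

theorem R8b (w0 w1 c : ℤ[T;T⁻¹]) (n : ℤ) (hn : n = 2 ∨ n = -2)
    (hc : dd * c = T n * (T (-4 * n) - 1)) (h0 : IsU w0) (h : IsU (T n * w0 + c * w1))
    (h6 : ∀ a : ℂˣ, (a : ℂ) + (a : ℂ)⁻¹ = 1 → evA a w0 = 1 ∧ evA a w1 = 1)
    (hI : ∀ a : ℂˣ, (a : ℂ) = Complex.I → ∃ (k : ℕ) (z0 z1 : ℤ), evA a w0 = Complex.I ^ k * z0 ∧
      evA a w1 = Complex.I ^ k * z1 ∧ (z1 = 0 ∨ ∃ j : ℕ, z1 = 2 ^ j ∨ z1 = - 2 ^ j) ∧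
      (z0 - z1 = 0 ∨ ∃ j : ℕ, z0 - z1 = 2 ^ j ∨ z0 - z1 = - 2 ^ j)) :
    w1 = dd * w0 ∨ w1 = T 6 * w0 ∨ w1 = T (-6) * w0 := by
  obtain ⟨m, hm⟩ := main_eq w0 w1 c n hn hc h0 h
  obtain ⟨G, hG, hGI⟩ := exists_G m
  obtain ⟨a, ha⟩ := exists_a
  obtain ⟨ha0, ha1⟩ := h6 a ha
  have hane : (a : ℂ) ≠ 0 := a.ne_zero
  have ha2 : (a : ℂ) ^ 2 = a - 1 := by
    have := congrArg (fun z => z * (a : ℂ)) ha
    simp only [add_mul, inv_mul_cancel₀ hane, one_mul] at this
    linear_combination this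
  have ha3 : (a : ℂ) ^ 3 = -1 := by
    linear_combination ((a : ℂ) + 1) * ha2
  have ha6 : (a : ℂ) ^ (6 : ℤ) = 1 := by
    have : (a : ℂ) ^ 6 = 1 := by
      have e : (a : ℂ) ^ 6 = ((a : ℂ) ^ 3) ^ 2 := by ring
      rw [e, ha3]; norm_num
    exact_mod_cast this
  have ha4 : (a : ℂ) ^ (4 : ℤ) = -a := by
    have : (a : ℂ) ^ 4 = -a := by linear_combination (a : ℂ) * ha3
    exact_mod_cast this
  have ha1' : (a : ℂ) ≠ 1 := by
    intro h1
    rw [h1] at ha2
    norm_num at ha2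
  -- values at `i`
  obtain ⟨m0, ε0, hε0, hw0⟩ := h0
  obtain ⟨k, z0, z1, e0, e1, p1, p2⟩ := hI (Units.mk0 Complex.I Complex.I_ne_zero) rfl
  have hIk : (Complex.I : ℂ) ^ k ≠ 0 := pow_ne_zero _ Complex.I_ne_zero
  have hz0 : z0 = 1 ∨ z0 = -1 := by
    have h1 : ‖evA (Units.mk0 Complex.I Complex.I_ne_zero) w0‖ = 1 := by
      rw [hw0, map_mul, evA_C, evA_T, Units.val_mk0, norm_mul, norm_zpow, Complex.norm_I, one_zpow,
        mul_one]
      rcases hε0 with rfl | rfl <;> simp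
    rw [e0, norm_mul, norm_pow, Complex.norm_I, one_pow, one_mul, Complex.norm_intCast] at h1
    have h2 : |z0| = 1 := by exact_mod_cast h1
    exact (abs_eq (by norm_num)).1 h2
  have hGi : evA (Units.mk0 Complex.I Complex.I_ne_zero) G = m := by
    apply hGI
    rw [Units.val_mk0]
    have := Complex.I_pow_four
    exact_mod_cast this
  have hI2 : (Complex.I : ℂ) ^ (-2 : ℤ) = -1 := by
    rw [zpow_neg]
    have h3 : (Complex.I : ℂ) ^ (2 : ℤ) = -1 := by
      have := Complex.I_sq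
      exact_mod_cast this
    rw [h3]
    norm_num
  have hI6 : (Complex.I : ℂ) ^ (6 : ℤ) = -1 := by
    have h3 : (Complex.I : ℂ) ^ 6 = -1 := by
      have e : (Complex.I : ℂ) ^ 6 = (Complex.I ^ 2) ^ 3 := by ring
      rw [e, Complex.I_sq]; norm_num
    exact_mod_cast h3
  have hdd : (dd : ℤ[T;T⁻¹]) = -(T (-2) * (T 4 + 1)) := by
    unfold dd
    have e : (T 2 : ℤ[T;T⁻¹]) = T (-2) * T 4 := by rw [← T_add]; congr 1
    rw [e]
    ring
  have hT : ∀ x y : ℤ, (T x * T y : ℤ[T;T⁻¹]) = T (x + y) := fun x y => (T_add x y).symm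
  rcases hn with rfl | rfl
  · -- `n = 2`
    have hw1 : w1 = T 6 * w0 * G := by
      have e8 : (T (-4 * 2) : ℤ[T;T⁻¹]) * T 8 = 1 := by rw [← T_add]; simp
      have e8' : (T 8 : ℤ[T;T⁻¹]) = T 4 * T 4 := by rw [← T_add]; congr 1
      have e6 : (T 6 : ℤ[T;T⁻¹]) = T 8 * T (-2) := by rw [← T_add]; congr 1
      apply mul_left_cancel₀ (mul_ne_zero T4_ne T4_ne')
      have h1 : (T 4 - 1) * (T 4 + 1) * w1 = -(T 8 * ((T (-4 * 2) - 1) * w1)) := by
        linear_combination w1 * e8 - w1 * e8'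
      rw [h1, hm, hdd, e6, ← hG]
      ring
    have hz : z1 = -m * z0 := by
      have h1 := congrArg (evA (Units.mk0 Complex.I Complex.I_ne_zero)) hw1
      rw [map_mul, map_mul, e0, e1, hGi, evA_T, Units.val_mk0, hI6] at h1
      have h2 : (z1 : ℂ) = ((-m * z0 : ℤ) : ℂ) := by
        apply mul_left_cancel₀ hIk
        rw [h1]
        push_cast
        ring
      exact_mod_cast h2
    have hmc : m = 0 ∨ m = 1 ∨ m = -1 ∨ m = -2 := by
      apply pow2_cases
      · apply pow2_neg (-z0) m (by rcases hz0 with rfl | rfl <;> simp)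
        have : -z0 * m = z1 := by rw [hz]; ring
        rw [this]
        exact p1
      · apply pow2_neg z0 (1 + m) hz0
        have : z0 * (1 + m) = z0 - z1 := by rw [hz]; ring
        rw [this]
        exact p2
    have hGa : evA a G = 1 := by
      have h1 := congrArg (evA a) hw1
      rw [map_mul, map_mul, ha0, ha1, evA_T, ha6] at h1
      simpa using h1.symm
    rcases hmc with rfl | rfl | rfl | rfl
    · exfalso
      have h1 : (T 4 - 1) * G = 0 := by rw [hG]; simp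
      rcases mul_eq_zero.1 h1 with h2 | h2
      · exact T4_ne h2
      · rw [h2] at hGa
        simp at hGa
    · right; left
      have h1 : G = 1 := by
        apply mul_left_cancel₀ T4_ne
        rw [hG]; simp
      rw [hw1, h1, mul_one]
    · exfalso
      have h1 : G = -T (-4) := by
        apply mul_left_cancel₀ T4_ne
        rw [hG]
        have e : (T 4 * T (-4) : ℤ[T;T⁻¹]) = 1 := by rw [← T_add]; simp
        have e' : (T (4 * -1) : ℤ[T;T⁻¹]) = T (-4) := by congr 1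
        rw [e']
        linear_combination e
      rw [h1, map_neg, evA_T, zpow_neg, ha4] at hGa
      apply ha1'
      have h2 : -((-(a : ℂ))⁻¹) = (a : ℂ)⁻¹ := by rw [inv_neg, neg_neg]
      rw [h2, inv_eq_one] at hGa
      exact hGa
    · left
      have h1 : G = -T (-8) - T (-4) := by
        apply mul_left_cancel₀ T4_ne
        rw [hG]
        have e : (T 4 * T (-4) : ℤ[T;T⁻¹]) = 1 := by rw [← T_add]; simp
        have e2 : (T 4 * T (-8) : ℤ[T;T⁻¹]) = T (-4) := by rw [← T_add]; congr 1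
        have e' : (T (4 * -2) : ℤ[T;T⁻¹]) = T (-8) := by congr 1
        rw [e']
        linear_combination e + e2
      rw [hw1, h1, hdd]
      have e3 : (T 6 * T (-8) : ℤ[T;T⁻¹]) = T (-2) := by rw [← T_add]; congr 1
      have e4 : (T 6 * T (-4) : ℤ[T;T⁻¹]) = T (-2) * T 4 := by rw [← T_add, ← T_add]; congr 1
      linear_combination -w0 * e3 - w0 * e4
  · -- `n = -2`
    have hw1 : w1 = -T (-2) * w0 * G := by
      have e8' : (T (-4 * -2) : ℤ[T;T⁻¹]) = T 4 * T 4 := by rw [← T_add]; congr 1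
      apply mul_left_cancel₀ (mul_ne_zero T4_ne T4_ne')
      have h1 : (T 4 - 1) * (T 4 + 1) * w1 = (T (-4 * -2) - 1) * w1 := by
        rw [e8']; ring
      rw [h1, hm, hdd, ← hG]
      ring
    have hz : z1 = m * z0 := by
      have h1 := congrArg (evA (Units.mk0 Complex.I Complex.I_ne_zero)) hw1
      rw [map_mul, map_mul, map_neg, e0, e1, hGi, evA_T, Units.val_mk0, hI2] at h1
      have h2 : (z1 : ℂ) = ((m * z0 : ℤ) : ℂ) := by
        apply mul_left_cancel₀ hIk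
        rw [h1]
        push_cast
        ring
      exact_mod_cast h2
    have hmc : -m = 0 ∨ -m = 1 ∨ -m = -1 ∨ -m = -2 := by
      apply pow2_cases
      · apply pow2_neg (-z0) (-m) (by rcases hz0 with rfl | rfl <;> simp)
        have : -z0 * -m = z1 := by rw [hz]; ring
        rw [this]
        exact p1
      · apply pow2_neg z0 (1 + -m) hz0
        have : z0 * (1 + -m) = z0 - z1 := by rw [hz]; ring
        rw [this]
        exact p2
    have hGa : -(a : ℂ) ^ (-2 : ℤ) * evA a G = 1 := by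
      have h1 := congrArg (evA a) hw1
      rw [map_mul, map_mul, map_neg, ha0, ha1, evA_T] at h1
      simpa using h1.symm
    have hmc' : m = 0 ∨ m = -1 ∨ m = 1 ∨ m = 2 := by omega
    rcases hmc' with rfl | rfl | rfl | rfl
    · exfalso
      have h1 : (T 4 - 1) * G = 0 := by rw [hG]; simp
      rcases mul_eq_zero.1 h1 with h2 | h2
      · exact T4_ne h2
      · rw [h2] at hGa
        simp at hGa
    · right; right
      have h1 : G = -T (-4) := by
        apply mul_left_cancel₀ T4_ne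
        rw [hG]
        have e : (T 4 * T (-4) : ℤ[T;T⁻¹]) = 1 := by rw [← T_add]; simp
        have e' : (T (4 * -1) : ℤ[T;T⁻¹]) = T (-4) := by congr 1
        rw [e']
        linear_combination e
      rw [hw1, h1]
      have e3 : (T (-6) : ℤ[T;T⁻¹]) = T (-2) * T (-4) := by rw [← T_add]; congr 1
      rw [e3]
      ring
    · exfalso
      have h1 : G = 1 := by
        apply mul_left_cancel₀ T4_ne
        rw [hG]; simp
      rw [h1, map_one, mul_one] at hGa
      have h2 : (a : ℂ) ^ (-2 : ℤ) = -1 := by linear_combination -hGa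
      have h3 : (a : ℂ) ^ 2 = -1 := by
        have h4 : ((a : ℂ) ^ 2)⁻¹ = -1 := by
          rw [← h2, zpow_neg]
          norm_cast
        rw [← inv_inv ((a : ℂ) ^ 2), h4]
        norm_num
      rw [ha2] at h3
      apply hane
      linear_combination h3
    · left
      have h1 : G = 1 + T 4 := by
        apply mul_left_cancel₀ T4_ne
        rw [hG]
        have e' : (T (4 * 2) : ℤ[T;T⁻¹]) = T 4 * T 4 := by rw [← T_add]; congr 1
        rw [e']
        ring
      rw [hw1, h1, hdd]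
      ring

end Pool.Agent.H891R2.RF.R8b
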