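import Pool.Agent.H891R2.RF.Defs

set_option autoImplicit false

/-! R9: three slopes with pairwise odd distances. -/

namespace Pool.Agent.H891R2.RF.R9

open Finset LaurentPolynomial Pool.Agent.H891R2.Jones Pool.Agent.H891R2.MT
open Pool.Agent.H891R2.RF

/-- reduction modulo two and `A = 1` -/
noncomputable def phi : ℤ[T;T⁻¹] →+* ZMod 2 :=
  LaurentPolynomial.eval₂ (Int.castRingHom (ZMod 2)) 1

theorem phi_T (n : ℤ) : phi (T n) = 1 := by
  unfold phi
  rw [LaurentPolynomial.eval₂_T, one_zpow, Units.val_one]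

theorem phi_IsU (f : ℤ[T;T⁻¹]) (h : IsU f) : phi f = 1 := by
  obtain ⟨m, ε, hε, rfl⟩ := h
  rw [map_mul, phi_T, mul_one]
  unfold phi
  rw [LaurentPolynomial.eval₂_C]
  rcases hε with rfl | rfl
  · simp
  · simp

theorem phi_vec (w : List (Bool × Bool)) (v : Bool) :
    phi (vec w v).1 = ((frac w v).2 : ZMod 2) ∧ phi (vec w v).2 = ((frac w v).1 : ZMod 2) := by
  induction w with
  | nil =>
    cases v <;> simp [vec, frac]
  | cons x w ih =>
    obtain ⟨side, s⟩ := x
    obtain ⟨h1, h2⟩ := ih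
    have hneg : ∀ y : ZMod 2, -y = y := by decide
    have hs : ((if s then (1:ℤ) else -1 : ℤ) : ZMod 2) = 1 := by
      cases s <;> simp
    cases side
    · constructor
      · show phi (- T (if s then 3 else -3) * (vec w v).1 + T (if s then 1 else -1) * (vec w v).2) =
          (((frac w v).2 + (if s then 1 else -1) * (frac w v).1 : ℤ) : ZMod 2)
        rw [map_add, map_mul, map_mul, map_neg, phi_T, phi_T, h1, h2]
        push_cast
        rw [← Int.cast_one (R := ZMod 2)]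
        cases s <;> simp [hneg]
      · show phi (T (if s then -1 else 1) * (vec w v).2) = (((frac w v).1 : ℤ) : ZMod 2)
        rw [map_mul, phi_T, h2, one_mul]
    · constructor
      · show phi (T (if s then 1 else -1) * (vec w v).1) = (((frac w v).2 : ℤ) : ZMod 2)
        rw [map_mul, phi_T, h1, one_mul]
      · show phi (T (if s then -1 else 1) * (vec w v).1 - T (if s then -3 else 3) * (vec w v).2) =
          (((frac w v).1 + (if s then 1 else -1) * (frac w v).2 : ℤ) : ZMod 2)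
        rw [map_sub, map_mul, map_mul, phi_T, phi_T, h1, h2]
        cases s
        · push_cast
          simp [sub_eq_add_neg, hneg, add_comm]
        · push_cast
          simp [sub_eq_add_neg, hneg, add_comm]

theorem fin_check : ∀ a b p1 q1 p2 q2 p3 q3 : ZMod 2, a * q1 + b * p1 = 1 → a * q2 + b * p2 = 1 →
    a * q3 + b * p3 = 1 → p1 * q2 - p2 * q1 = 1 → p1 * q3 - p3 * q1 = 1 → p2 * q3 - p3 * q2 = 1 →
    False := by
  decide

theorem odd_dist (R R' : Tangle) (h : Odd (dist R R')) :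
    ((frac R.1 R.2).1 : ZMod 2) * ((frac R'.1 R'.2).2 : ZMod 2) -
      ((frac R'.1 R'.2).1 : ZMod 2) * ((frac R.1 R.2).2 : ZMod 2) = 1 := by
  unfold dist at h
  rw [Int.natAbs_odd] at h
  obtain ⟨k, hk⟩ := h
  have h2 := congrArg (Int.cast : ℤ → ZMod 2) hk
  push_cast at h2
  rw [h2]
  have : (2 : ZMod 2) = 0 := by decide
  rw [this]
  ring

/-- R9: the three slopes modulo two -/
theorem R9 (w0 w1 : ℤ[T;T⁻¹]) (R₁ R₂ R₃ : Tangle)
    (h1 : IsU (w0 * (vec R₁.1 R₁.2).1 + w1 * (vec R₁.1 R₁.2).2))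
    (h2 : IsU (w0 * (vec R₂.1 R₂.2).1 + w1 * (vec R₂.1 R₂.2).2))
    (h3 : IsU (w0 * (vec R₃.1 R₃.2).1 + w1 * (vec R₃.1 R₃.2).2))
    (h12 : Odd (dist R₁ R₂)) (h13 : Odd (dist R₁ R₃)) (h23 : Odd (dist R₂ R₃)) : False := by
  have key : ∀ R : Tangle, IsU (w0 * (vec R.1 R.2).1 + w1 * (vec R.1 R.2).2) →
      phi w0 * ((frac R.1 R.2).2 : ZMod 2) + phi w1 * ((frac R.1 R.2).1 : ZMod 2) = 1 := by
    intro R h
    have := phi_IsU _ h
    rwa [map_add, map_mul, map_mul, (phi_vec R.1 R.2).1, (phi_vec R.1 R.2).2] at this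
  exact fin_check (phi w0) (phi w1) _ _ _ _ _ _ (key R₁ h1) (key R₂ h2) (key R₃ h3)
    (odd_dist _ _ h12) (odd_dist _ _ h13) (odd_dist _ _ h23)

end Pool.Agent.H891R2.RF.R9
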