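import Pool.Agent.H891R2.RF.R1
import Pool.Agent.H891R2.RF.R2
import Pool.Agent.H891R2.RF.R3
import Pool.Agent.H891R2.RF.R4
import Pool.Agent.H891R2.RF.R5
import Pool.Agent.H891R2.RF.R6
import Pool.Agent.H891R2.RF.R7
import Pool.Agent.H891R2.RF.R8a
import Pool.Agent.H891R2.RF.R8b
import Pool.Agent.H891R2.RF.R9
import Pool.Agent.H891R2.RF.R10
import Pool.Agent.H891R2.RF.R11
import Pool.Agent.H891R2.RF.R12

set_option autoImplicit false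

/-!
The lemmas of the project, proved by the helpers named in the files R1, ..., R12.
-/

namespace Pool.Agent.H891R2.RF

open Finset LaurentPolynomial Pool.Agent.H891R2.Jones Pool.Agent.H891R2.MT

/-- evaluation at `A = a` -/
noncomputable def evA (a : ℂˣ) : ℤ[T;T⁻¹] →+* ℂ := LaurentPolynomial.eval₂ (Int.castRingHom ℂ) a

theorem R2 (W : Outer4) (w : List (Bool × Bool)) (v : Bool) :
    W.br (w, v) = (vec w v).1 * W.br ([], false) + (vec w v).2 * W.br ([], true) :=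
  R2.R2 (fun W side s A hA N a ha => R1.R1 W side s hA N a ha) W w v

theorem R3 {P : Type} (U : UDiagram P) (a : ℂˣ) (ha : (a : ℂ) + (a : ℂ)⁻¹ = 1) :
    evA a U.std.bracket = 1 := R3.R3 U a ha

theorem R4 {P : Type} [Fintype P] [DecidableEq P] [Nonempty P] (U : UDiagram P) (a : ℂˣ) 
    (ha : (a : ℂ) = Complex.I) :
    ∃ z : ℤ, evA a U.std.bracket = Complex.I ^ U.crossings.length * z ∧ 
      (z = 0 ∨ ∃ j : ℕ, z = 2 ^ j ∨ z = -2 ^ j) := R4.R4 U a ha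

theorem R5 {S : Type} [CommRing S] (φ : ℤ[T;T⁻¹] →+* S) (hφ : φ (T 4) = -1) 
    (w : List (Bool × Bool)) (v : Bool) :
    ∃ k : ℤ, φ (vec w v).1 = φ (T k) * (frac w v).2 ∧ φ (vec w v).2 = - φ (T (k + 2)) * (frac w v).1 :=
  R5.R5 φ hφ w v

theorem R6 (w0 w1 : ℤ[T;T⁻¹]) (w : List (Bool × Bool)) (v : Bool) (h0 : IsU w0)
    (h : IsU (w0 * (vec w v).1 + w1 * (vec w v).2)) (hp : 2 ≤ |(frac w v).1|) :
    ∃ t η : ℤ, (η = 1 ∨ η = -1) ∧ (frac w v).2 = t * (frac w v).1 + η :=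
  R6.R6 w0 w1 w v h0 h hp

theorem R7 (w : List (Bool × Bool)) (v : Bool) (h : (frac w v).1 = 0) : 
    ∃ u, IsU u ∧ vec w v = (u, 0) := R7.R7 w v h

theorem R8a (w0 w1 c : ℤ[T;T⁻¹]) (n : ℤ) (hn : Even n) (hn4 : 4 ≤ |n|) 
    (hc : dd * c = T n * (T (-4 * n) - 1)) (h0 : IsU w0) (h : IsU (T n * w0 + c * w1)) 
    (h6 : ∀ a : ℂˣ, (a : ℂ) + (a : ℂ)⁻¹ = 1 → evA a w1 = 1)
    (hI : ∀ a : ℂˣ, (a : ℂ) = Complex.I → ∃ (k : ℕ) (z0 z1 : ℤ), evA a w0 = Complex.I ^ k * z0 ∧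
      evA a w1 = Complex.I ^ k * z1 ∧ (z0 - z1 = 0 ∨ ∃ j : ℕ, z0 - z1 = 2 ^ j ∨ z0 - z1 = - 2 ^ j)) :
    w1 = dd * w0 := R8a.R8a w0 w1 c n hn hn4 hc h0 h h6 hI

theorem R8b (w0 w1 c : ℤ[T;T⁻¹]) (n : ℤ) (hn : n = 2 ∨ n = -2)
    (hc : dd * c = T n * (T (-4 * n) - 1)) (h0 : IsU w0) (h : IsU (T n * w0 + c * w1)) 
    (h6 : ∀ a : ℂˣ, (a : ℂ) + (a : ℂ)⁻¹ = 1 → evA a w0 = 1 ∧ evA a w1 = 1)
    (hI : ∀ a : ℂˣ, (a : ℂ) = Complex.I → ∃ (k : ℕ) (z0 z1 : ℤ), evA a w0 = Complex.I ^ k * z0 ∧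
      evA a w1 = Complex.I ^ k * z1 ∧ (z1 = 0 ∨ ∃ j : ℕ, z1 = 2 ^ j ∨ z1 = - 2 ^ j) ∧ 
      (z0 - z1 = 0 ∨ ∃ j : ℕ, z0 - z1 = 2 ^ j ∨ z0 - z1 = - 2 ^ j)) :
    w1 = dd * w0 ∨ w1 = T 6 * w0 ∨ w1 = T (-6) * w0 := 
  R8b.R8b w0 w1 c n hn hc h0 h h6 hI

theorem R9 (w0 w1 : ℤ[T;T⁻¹]) (R₁ R₂ R₃ : Tangle) 
    (h1 : IsU (w0 * (vec R₁.1 R₁.2).1 + w1 * (vec R₁.1 R₁.2).2))
    (h2 : IsU (w0 * (vec R₂.1 R₂.2).1 + w1 * (vec R₂.1 R₂.2).2))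
    (h3 : IsU (w0 * (vec R₃.1 R₃.2).1 + w1 * (vec R₃.1 R₃.2).2))
    (h12 : Odd (dist R₁ R₂)) (h13 : Odd (dist R₁ R₃)) (h23 : Odd (dist R₂ R₃)) : False :=
  R9.R9 w0 w1 R₁ R₂ R₃ h1 h2 h3 h12 h13 h23

theorem vec_inv (w w' : List (Bool × Bool)) (v : Bool) : vec (w ++ inv w ++ w') v = vec w' v := 
  R10.vec_inv w w' v

theorem frac_inv (w w' : List (Bool × Bool)) (v : Bool) : frac (w ++ inv w ++ w') v = frac w' v := 
  R10.frac_inv w w' v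

theorem dist_append (w w₁ w₂ : List (Bool × Bool)) (v₁ v₂ : Bool) : 
    dist (w ++ w₁, v₁) (w ++ w₂, v₂) = dist (w₁, v₁) (w₂, v₂) := R10.dist_append w w₁ w₂ v₁ v₂

/-- the word `x^n` or `y^n` -/
def pw (side : Bool) (n : ℤ) : List (Bool × Bool) := List.replicate n.natAbs (side, decide (0 < n))

theorem vec_pw_x (n : ℤ) (hn : Even n) (w : List (Bool × Bool)) (v : Bool) (u : ℤ[T;T⁻¹]) 
    (h : vec w v = (u, 0)) : 
    ∃ c, dd * c = T n * (T (-4 * n) - 1) ∧ vec (pw true n ++ w) v = (T n * u, c * u) := 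
  R10.vec_pw_x n hn w v u h

theorem vec_pw_y (n : ℤ) (w : List (Bool × Bool)) (v : Bool) (u : ℤ[T;T⁻¹]) 
    (hu : IsU u) (h : vec w v = (u, 0)) : ∃ u', IsU u' ∧ vec (pw false n ++ w) v = (u', 0) := 
  R10.vec_pw_y n w v u hu h

theorem frac_pw_x (n : ℤ) (w : List (Bool × Bool)) (v : Bool) : 
    frac (pw true n ++ w) v = ((frac w v).1 + n * (frac w v).2, (frac w v).2) := 
  R10.frac_pw_x n w v

theorem frac_pw_y (n : ℤ) (w : List (Bool × Bool)) (v : Bool) : 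
    frac (pw false n ++ w) v = ((frac w v).1, (frac w v).2 + n * (frac w v).1) := 
  R10.frac_pw_y n w v

theorem slope_eq_iff (R R' : Tangle) : slope R = slope R' ↔ dist R R' = 0 := R11.slope_eq_iff R R'

theorem triv_false : Outer4.triv.br ([], false) = 1 := R12.triv_false

theorem triv_true : Outer4.triv.br ([], true) = dd := R12.triv_true

theorem isU_of_jonesTrivial {P : Type} [Fintype P] [DecidableEq P] [Nonempty P] (U : UDiagram P)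
    (h : JonesTrivial U) : IsU U.std.bracket := R12.isU_of_jonesTrivial U h

end Pool.Agent.H891R2.RF
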