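import Pool.Agent.H891R2.MT.Defs

set_option autoImplicit false

/-!
Rational fillings of a 2-tangle.
-/

namespace Pool.Agent.H891R2.RF

open Finset LaurentPolynomial Pool.Agent.H891R2.Jones Pool.Agent.H891R2.MT

/-- The part of an unoriented link diagram outside of a box which the diagram meets in four points:
marked points `P`, arcs and crossings (as in `UDiagram`) outside the box, and the four corners of
the box: `corner t r` with `t = false` bottom, `t = true` top, `r = false` left, `r = true` right. -/
structure Outer4 where
  P : Type
  [fin : Fintype P]
  [dec : DecidableEq P]
  arcs : List (P × P)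
  crossings : List (P × P × P × P)
  corner : Bool → Bool → P

attribute [instance] Outer4.fin Outer4.dec

/-- A rational tangle diagram: a word of steps (from the outside to the inside) and the innermost
part. A step `(true, s)` is one crossing at the right side of the rest, a step `(false, s)` one
crossing at the bottom of the rest, `s` is the kind of the crossing. The innermost part is `false`:
two horizontal strands (the tangle `0`), or `true`: two vertical strands (the tangle `∞`). -/
abbrev Tangle : Type := List (Bool × Bool) × Bool

/-- numerator and denominator of the slope (fraction) of a rational tangle: `0 = 0/1`, `∞ = 1/0`;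
a crossing at the right side: `p/q ↦ p/q ± 1`; a crossing at the bottom: `q/p ↦ q/p ± 1`. -/
def frac : List (Bool × Bool) → Bool → ℤ × ℤ
  | [], v => if v then (1, 0) else (0, 1)
  | (side, s) :: w, v => 
    if side then ((frac w v).1 + (if s then 1 else -1) * (frac w v).2, (frac w v).2)
    else ((frac w v).1, (frac w v).2 + (if s then 1 else -1) * (frac w v).1)

/-- the slope in `ℚ ∪ {∞}` -/
def slope (R : Tangle) : OnePoint ℚ :=
  if (frac R.1 R.2).2 = 0 then OnePoint.infty else (((frac R.1 R.2).1 / (frac R.1 R.2).2 : ℚ) : OnePoint ℚ)

/-- the distance `|p q' - p' q|` of the slopes of two rational tangles -/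
def dist (R R' : Tangle) : ℕ :=
  ((frac R.1 R.2).1 * (frac R'.1 R'.2).2 - (frac R'.1 R'.2).1 * (frac R.1 R.2).2).natAbs

namespace Outer4

/-- add one crossing to the outside, between the box and a smaller box: at the right side of the
smaller box (`side = true`) or at its bottom (`side = false`). The crossing has the new points
`inr (t, r)` (`t` top, `r` right). For `s = true` the over-strand goes from its lower right to its 
upper left point, for `s = false` from its lower left to its upper right point. -/
def push (W : Outer4) (side s : Bool) : Outer4 where
  P := W.P ⊕ (Bool × Bool)
  arcs := W.arcs.map (Prod.map .inl .inl) ++ 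
    (if side then [(.inl (W.corner false true), .inr (false, true)), 
      (.inl (W.corner true true), .inr (true, true))]
    else [(.inl (W.corner false false), .inr (false, false)), 
      (.inl (W.corner false true), .inr (false, true))])
  crossings := W.crossings.map (Prod.map .inl (Prod.map .inl (Prod.map .inl .inl))) ++
    [if s then (.inr (false, false), .inr (false, true), .inr (true, true), .inr (true, false))
    else (.inr (false, true), .inr (true, true), .inr (true, false), .inr (false, false))]
  corner := fun t r => 
    if side then (if r then .inr (t, false) else .inl (W.corner t false))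
    else (if t then .inl (W.corner true r) else .inr (true, r))

/-- fill the box with two strands without crossings: two vertical ones (`v = true`) or two
horizontal ones (`v = false`) -/
def close (W : Outer4) (v : Bool) : UDiagram W.P where
  arcs := W.arcs ++ (if v then [(W.corner false false, W.corner true false), 
      (W.corner false true, W.corner true true)]
    else [(W.corner false false, W.corner false true), (W.corner true false, W.corner true true)])
  crossings := W.crossings

/-- add several crossings, from the outside to the inside -/
def pushes (W : Outer4) (w : List (Bool × Bool)) : Outer4 := w.foldl (fun W x => W.push x.1 x.2) W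

/-- fill the box with a rational tangle -/
def fill (W : Outer4) (R : Tangle) : UDiagram (W.pushes R.1).P := (W.pushes R.1).close R.2

/-- the bracket of the filled diagram -/
noncomputable def br (W : Outer4) (R : Tangle) : ℤ[T;T⁻¹] := (W.fill R).std.bracket

/-- the outside of the box consists of two vertical strands without crossings -/
def triv : Outer4 where
  P := Bool × Bool
  arcs := [((false, false), (true, false)), ((false, true), (true, true))]
  crossings := []
  corner := fun t r => (t, r)

end Outer4

/-- the diagram `U` can be oriented such that its normalised Kauffman bracket is `1` -/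
def JonesTrivial {P : Type} (U : UDiagram P) : Prop := ∃ D : Diagram P, Orients D U ∧ D.fPoly = 1

/-- the outside `W` behaves like the outside of a rational tangle in a two-bridge diagram: up to one
unit, all rational fillings of `W` have the brackets of the fillings of a rational tangle (the
two-bridge diagrams `triv.fill (r ++ R)`). -/
def JonesRational (W : Outer4) : Prop :=
  ∃ (r : List (Bool × Bool)) (m ε : ℤ), (ε = 1 ∨ ε = -1) ∧ 
    ∀ R : Tangle, W.br R = C ε * T m * Outer4.triv.br (r ++ R.1, R.2)

/-! ### auxiliary notions -/

/-- `d = -A² - A⁻²` -/
noncomputable def dd : ℤ[T;T⁻¹] := -T 2 - T (-2)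

/-- coordinates of the tangle in the skein module: `⟨R⟩ = (vec R).1 ⟨0⟩ + (vec R).2 ⟨∞⟩` -/
noncomputable def act (side s : Bool) (x : ℤ[T;T⁻¹] × ℤ[T;T⁻¹]) : ℤ[T;T⁻¹] × ℤ[T;T⁻¹] :=
  if side then 
    (T (if s then 1 else -1) * x.1, T (if s then -1 else 1) * x.1 - T (if s then -3 else 3) * x.2)
  else 
    (- T (if s then 3 else -3) * x.1 + T (if s then 1 else -1) * x.2, T (if s then -1 else 1) * x.2)

noncomputable def vec : List (Bool × Bool) → Bool → ℤ[T;T⁻¹] × ℤ[T;T⁻¹]
  | [], v => if v then (0, 1) else (1, 0)
  | (side, s) :: w, v => act side s (vec w v)

/-- `f = ± A^m` -/
def IsU (f : ℤ[T;T⁻¹]) : Prop := ∃ m ε : ℤ, (ε = 1 ∨ ε = -1) ∧ f = C ε * T m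

/-- the inverse word -/
def inv (w : List (Bool × Bool)) : List (Bool × Bool) := (w.map (fun x => (x.1, !x.2))).reverse

end Pool.Agent.H891R2.RF
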