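import Pool.Agent.H891R2.RF.All

set_option autoImplicit false

/-! Assembly. -/

namespace Pool.Agent.H891R2.RF

open Finset LaurentPolynomial Pool.Agent.H891R2.Jones Pool.Agent.H891R2.MT

namespace Fin

theorem isU_one : IsU 1 := ⟨0, 1, Or.inl rfl, by simp⟩

theorem isU_T (m : ℤ) : IsU (T m) := ⟨m, 1, Or.inl rfl, by simp⟩

theorem isU_neg_T (m : ℤ) : IsU (-T m) := ⟨m, -1, Or.inr rfl, by simp⟩

theorem IsU_mul {f g : ℤ[T;T⁻¹]} (hf : IsU f) (hg : IsU g) : IsU (f * g) := by
  obtain ⟨m, e, he, rfl⟩ := hf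
  obtain ⟨m', e', he', rfl⟩ := hg
  refine ⟨m + m', e * e', ?_, ?_⟩
  · rcases he with rfl | rfl <;> rcases he' with rfl | rfl <;> simp
  · rw [T_add, map_mul]; ring

theorem IsU_inv {f : ℤ[T;T⁻¹]} (hf : IsU f) : ∃ g, IsU g ∧ f * g = 1 := by
  obtain ⟨m, e, he, rfl⟩ := hf
  refine ⟨C e * T (-m), ⟨-m, e, he, rfl⟩, ?_⟩
  have h1 : C e * C e = (1 : ℤ[T;T⁻¹]) := by
    rw [← map_mul]
    rcases he with rfl | rfl <;> simp
  have h2 : T m * T (-m) = (1 : ℤ[T;T⁻¹]) := by rw [← T_add, add_neg_cancel, T_zero]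
  calc C e * T m * (C e * T (-m)) = (C e * C e) * (T m * T (-m)) := by ring
    _ = 1 := by rw [h1, h2, one_mul]

theorem IsU_of_mul {f g : ℤ[T;T⁻¹]} (hf : IsU f) (h : IsU (f * g)) : IsU g := by
  obtain ⟨f', hf', h1⟩ := IsU_inv hf
  have : g = f' * (f * g) := by
    calc g = (f * f') * g := by rw [h1, one_mul]
      _ = f' * (f * g) := by ring
  rw [this]
  exact IsU_mul hf' h

/-! ### words -/

theorem act_smul (side s : Bool) (u : ℤ[T;T⁻¹]) (z : ℤ[T;T⁻¹] × ℤ[T;T⁻¹]) :
    act side s (u * z.1, u * z.2) = (u * (act side s z).1, u * (act side s z).2) := by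
  unfold act
  cases side <;> cases s <;> simp <;> constructor <;> ring

theorem vec_append_smul (w : List (Bool × Bool)) {w₁ w₂ : List (Bool × Bool)} {v₁ v₂ : Bool} 
    (u : ℤ[T;T⁻¹]) (h : vec w₁ v₁ = (u * (vec w₂ v₂).1, u * (vec w₂ v₂).2)) :
    vec (w ++ w₁) v₁ = (u * (vec (w ++ w₂) v₂).1, u * (vec (w ++ w₂) v₂).2) := by
  induction w with
  | nil => exact h
  | cons x w ih =>
    show act x.1 x.2 (vec (w ++ w₁) v₁) = _
    rw [ih, act_smul]
    rfl

theorem frac_append_congr (w : List (Bool × Bool)) {w₁ w₂ : List (Bool × Bool)} {v₁ v₂ : Bool} 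
    (h : frac w₁ v₁ = frac w₂ v₂) : frac (w ++ w₁) v₁ = frac (w ++ w₂) v₂ := by
  induction w with
  | nil => exact h
  | cons x w ih =>
    obtain ⟨side, s⟩ := x
    simp only [List.cons_append, frac, ih]

theorem pushes_append (W : Outer4) (w w' : List (Bool × Bool)) :
    W.pushes (w ++ w') = (W.pushes w).pushes w' := by
  unfold Outer4.pushes
  rw [List.foldl_append]

theorem br_append (W : Outer4) (w w' : List (Bool × Bool)) (v : Bool) :
    W.br (w ++ w', v) = (W.pushes w).br (w', v) := by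
  show ((W.pushes (w ++ w')).close v).std.bracket = (((W.pushes w).pushes w').close v).std.bracket
  rw [pushes_append]

theorem br_congr (W : Outer4) {w w' : List (Bool × Bool)} {v v' : Bool} (h : vec w v = vec w' v') :
    W.br (w, v) = W.br (w', v') := by
  rw [R2, R2 W w' v', h]

/-- the word `x y⁻¹ x` turns the tangle `0` into the tangle `∞` -/
def sw : List (Bool × Bool) := [(true, true), (false, false), (true, true)]

theorem vec_sw : vec sw false = (-T (-3) * (vec [] true).1, -T (-3) * (vec [] true).2) := by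
  simp only [sw, vec, act, if_true, if_false, Bool.false_eq_true, mul_one, mul_zero, sub_zero,
    mul_neg, neg_mul]
  have e1 : (T 1 * T 1 : ℤ[T;T⁻¹]) = T 2 := by rw [← T_add]; norm_num
  ext1
  · simp only [← T_add]
    ring_nf
  · simp only [mul_add, mul_neg, ← T_add]
    ring_nf

theorem frac_sw : frac sw false = frac [] true := by
  simp [sw, frac]

/-- move a trivial filling to the slope `0` -/
theorem normalise (W : Outer4) (R₁ : Tangle) (h : IsU (W.br R₁)) : ∃ g : List (Bool × Bool), 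
    IsU (W.br (g, false)) ∧ frac g false = frac R₁.1 R₁.2 := by
  obtain ⟨g1, v1⟩ := R₁
  cases v1
  · exact ⟨g1, h, rfl⟩
  · refine ⟨g1 ++ sw, ?_, ?_⟩
    · have h1 := vec_append_smul g1 (w₂ := []) (-T (-3)) vec_sw
      rw [List.append_nil] at h1
      rw [R2, h1]
      rw [R2] at h
      have : W.br ([], false) * (-T (-3) * (vec g1 true).1) + 
          W.br ([], true) * (-T (-3) * (vec g1 true).2) = 
          -T (-3) * ((vec g1 true).1 * W.br ([], false) + (vec g1 true).2 * W.br ([], true)) := by ring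
      have h2 := IsU_mul (isU_neg_T (-3)) h
      convert h2 using 1
      ring
    · have := frac_append_congr g1 (w₂ := []) frac_sw
      rw [List.append_nil] at this
      exact this

/-- the integer twists: the second slope is moved to an even integer -/
theorem integral (W : Outer4) (R₁ R₂ : Tangle) (h1 : IsU (W.br R₁)) (h2 : IsU (W.br R₂))
    (he : Even (dist R₁ R₂)) (h0 : dist R₁ R₂ ≠ 0) :
    ∃ (g : List (Bool × Bool)) (n : ℤ) (c : ℤ[T;T⁻¹]), Even n ∧ 2 ≤ |n| ∧ 
      dd * c = T n * (T (-4 * n) - 1) ∧ IsU ((W.pushes g).br ([], false)) ∧ 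
      IsU (T n * (W.pushes g).br ([], false) + c * (W.pushes g).br ([], true)) := by
  obtain ⟨g, hg, hf⟩ := normalise W R₁ h1
  obtain ⟨w₂, v₂⟩ := R₂
  -- first frame
  set W' := W.pushes g with hW'
  set w' := inv g ++ w₂ with hw'
  have hb0 : IsU (W'.br ([], false)) := by
    rw [hW', ← br_append, List.append_nil]; exact hg
  have hb2 : IsU (W'.br (w', v₂)) := by
    rw [hW', ← br_append]
    rw [br_congr W (w' := w₂) (v' := v₂)]
    · exact h2
    · rw [hw', ← List.append_assoc]; exact vec_inv g w₂ v₂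
  have hd : ((frac w' v₂).1).natAbs = dist R₁ (w₂, v₂) := by
    have e1 : dist R₁ (w₂, v₂) = dist (g ++ [], false) (g ++ w', v₂) := by
      unfold dist
      rw [hw', ← List.append_assoc]
      simp only [List.append_nil]
      rw [hf, frac_inv]
    rw [e1, dist_append]
    unfold dist
    simp [frac]
  have hD2 : 2 ≤ |(frac w' v₂).1| := by
    rw [Int.abs_eq_natAbs, hd]
    obtain ⟨r, hr⟩ := he
    omega
  obtain ⟨t, η, hη, hq⟩ := R6 (W'.br ([], false)) (W'.br ([], true)) w' v₂ hb0 (by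
    rw [R2] at hb2
    convert hb2 using 1
    ring) hD2
  -- second frame
  set h := pw false t with hh
  set W'' := W'.pushes h with hW''
  set w'' := inv h ++ w' with hw''
  have hfr : frac (h ++ w'') v₂ = frac w' v₂ := by
    rw [hw'', ← List.append_assoc]; exact frac_inv h w' v₂
  have hfr1 : (frac w'' v₂).1 = (frac w' v₂).1 := by
    have := frac_pw_y t w'' v₂
    rw [← hh, hfr] at this
    rw [this]
  have hfr2 : (frac w'' v₂).2 = η := by
    have := frac_pw_y t w'' v₂
    rw [← hh, hfr] at this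
    have h3 := congrArg Prod.snd this
    simp only at h3
    rw [hfr1] at h3
    linarith
  have hc0 : IsU (W''.br ([], false)) := by
    rw [hW'', ← br_append, R2]
    obtain ⟨u', hu', e⟩ := vec_pw_y t [] false 1 isU_one (by simp [vec])
    rw [← hh] at e
    rw [e]
    simp only [zero_mul, add_zero]
    exact IsU_mul hu' hb0
  have hc2 : IsU (W''.br (w'', v₂)) := by
    rw [hW'', ← br_append, br_congr W' (w' := w') (v' := v₂)]
    · exact hb2
    · rw [hw'', ← List.append_assoc]; exact vec_inv h w' v₂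
  -- the integer
  set n : ℤ := η * (frac w' v₂).1 with hn
  set w3 := inv (pw true n) ++ w'' with hw3
  have hfr3 : frac (pw true n ++ w3) v₂ = frac w'' v₂ := by
    rw [hw3, ← List.append_assoc]; exact frac_inv _ w'' v₂
  have hg3 : (frac w3 v₂).2 = η := by
    have := frac_pw_x n w3 v₂
    rw [hfr3] at this
    rw [← hfr2, this]
  have hg4 : (frac w3 v₂).1 = 0 := by
    have := frac_pw_x n w3 v₂
    rw [hfr3] at this
    have h3 := congrArg Prod.fst this
    simp only at h3
    rw [hg3, hfr1, hn] at h3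
    rcases hη with rfl | rfl <;> linarith
  obtain ⟨u, hu, hvec⟩ := R7 w3 v₂ hg4
  have hηabs : |n| = |(frac w' v₂).1| := by
    rw [hn, abs_mul]
    rcases hη with rfl | rfl <;> simp
  have hneven : Even n := by
    have h3 : Even ((frac w' v₂).1) := by
      rw [← Int.natAbs_even, hd]; exact he
    exact h3.mul_left η
  obtain ⟨c, hc, hvc⟩ := vec_pw_x n hneven w3 v₂ u hvec
  refine ⟨g ++ h, n, c, hneven, ?_, hc, ?_, ?_⟩
  · rw [hηabs]; exact hD2
  · rw [pushes_append]; exact hc0
  · rw [pushes_append]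
    have e : vec w'' v₂ = (T n * u, c * u) := by
      rw [← hvc, hw3, ← List.append_assoc]
      exact (vec_inv _ w'' v₂).symm
    rw [R2, e] at hc2
    refine IsU_of_mul hu ?_
    convert hc2 using 1
    ring

theorem crossings_close (W : Outer4) (v : Bool) : (W.close v).crossings = W.crossings := rfl

instance (W : Outer4) : Nonempty W.P := ⟨W.corner false false⟩

/-- the two covector entries in the frame of `integral` -/
theorem three_cases (W : Outer4) (n : ℤ) (c : ℤ[T;T⁻¹]) (hn : Even n) (hn2 : 2 ≤ |n|)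
    (hc : dd * c = T n * (T (-4 * n) - 1)) (h0 : IsU (W.br ([], false)))
    (h : IsU (T n * W.br ([], false) + c * W.br ([], true))) :
    W.br ([], true) = dd * W.br ([], false) ∨ W.br ([], true) = T 6 * W.br ([], false) ∨ 
      W.br ([], true) = T (-6) * W.br ([], false) := by
  have h6 : ∀ a : ℂˣ, (a : ℂ) + (a : ℂ)⁻¹ = 1 → evA a (W.br ([], false)) = 1 ∧ 
      evA a (W.br ([], true)) = 1 := by
    intro a ha
    exact ⟨R3 (W.close false) a ha, R3 (W.close true) a ha⟩
  have hI : ∀ a : ℂˣ, (a : ℂ) = Complex.I → ∃ (k : ℕ) (z0 z1 : ℤ), 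
      evA a (W.br ([], false)) = Complex.I ^ k * z0 ∧
      evA a (W.br ([], true)) = Complex.I ^ k * z1 ∧ (z1 = 0 ∨ ∃ j : ℕ, z1 = 2 ^ j ∨ z1 = - 2 ^ j) ∧ 
      (z0 - z1 = 0 ∨ ∃ j : ℕ, z0 - z1 = 2 ^ j ∨ z0 - z1 = - 2 ^ j) := by
    intro a ha
    obtain ⟨z0, e0, -⟩ := R4 (W.close false) a ha
    obtain ⟨z1, e1, e1'⟩ := R4 (W.close true) a ha
    obtain ⟨z2, e2, e2'⟩ := R4 ((W.push true true).close false) a ha
    have e3 : W.br ([(true, true)], false) = T 1 * W.br ([], false) + T (-1) * W.br ([], true) := by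
      rw [R2]
      simp [vec, act]
    have e4 : evA a (W.br ([(true, true)], false)) = 
        Complex.I * evA a (W.br ([], false)) - Complex.I * evA a (W.br ([], true)) := by
      rw [e3, map_add, map_mul, map_mul]
      have t1 : evA a (T 1) = Complex.I := by
        unfold evA; rw [LaurentPolynomial.eval₂_T]; simp [ha]
      have t2 : evA a (T (-1)) = -Complex.I := by
        unfold evA; rw [LaurentPolynomial.eval₂_T]; simp [ha]
      rw [t1, t2]
      ring
    have hlen : ((W.push true true).close false).crossings.length = W.crossings.length + 1 := by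
      simp [Outer4.close, Outer4.push]
    have e5 : z2 = z0 - z1 := by
      have a0 : evA a (W.br ([], false)) = Complex.I ^ W.crossings.length * z0 := e0
      have a1 : evA a (W.br ([], true)) = Complex.I ^ W.crossings.length * z1 := e1
      have a2 : evA a (W.br ([(true, true)], false)) = Complex.I ^ (W.crossings.length + 1) * z2 := by
        rw [← hlen]; exact e2
      rw [e4, a0, a1] at a2
      have hne : Complex.I ^ (W.crossings.length + 1) ≠ 0 := pow_ne_zero _ Complex.I_ne_zero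
      have : Complex.I ^ (W.crossings.length + 1) * ((z0 - z1 : ℤ) : ℂ) = 
          Complex.I ^ (W.crossings.length + 1) * (z2 : ℂ) := by
        rw [← a2]
        push_cast
        ring
      have := mul_left_cancel₀ hne this
      exact_mod_cast this.symm
    exact ⟨W.crossings.length, z0, z1, e0, e1, e1', e5 ▸ e2'⟩
  by_cases h4 : 4 ≤ |n|
  · left
    refine R8a _ _ c n hn h4 hc h0 h (fun a ha => (h6 a ha).2) (fun a ha => ?_)
    obtain ⟨k, z0, z1, a1, a2, a3, a4⟩ := hI a ha
    exact ⟨k, z0, z1, a1, a2, a4⟩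
  · have h2 : n = 2 ∨ n = -2 := by
      obtain ⟨r, hr⟩ := hn
      rcases abs_cases n with ⟨h5, _⟩ | ⟨h5, _⟩ <;> omega
    exact R8b _ _ c n h2 hc h0 h h6 hI

/-- the covectors of small rational outsides -/
theorem exists_triv (κ : ℤ[T;T⁻¹]) (hκ : κ = dd ∨ κ = T 6 ∨ κ = T (-6)) : 
    ∃ (r : List (Bool × Bool)) (u : ℤ[T;T⁻¹]), IsU u ∧ Outer4.triv.br (r, false) = u ∧ 
      Outer4.triv.br (r, true) = κ * u := by
  rcases hκ with rfl | rfl | rfl
  · exact ⟨[], 1, isU_one, triv_false, by rw [triv_true, mul_one]⟩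
  · refine ⟨[(false, false)], -T (-3), isU_neg_T _, ?_, ?_⟩
    · rw [R2, triv_false, triv_true]
      simp [vec, act]
    · rw [R2, triv_false, triv_true]
      simp only [vec, act, dd, if_true, if_false, Bool.false_eq_true]
      simp only [mul_zero, mul_one, zero_add, mul_sub, mul_neg, ← T_add]
      norm_num
  · refine ⟨[(false, true)], -T 3, isU_neg_T _, ?_, ?_⟩
    · rw [R2, triv_false, triv_true]
      simp [vec, act]
    · rw [R2, triv_false, triv_true]
      simp only [vec, act, dd, if_true, if_false, Bool.false_eq_true]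
      simp only [mul_zero, mul_one, zero_add, mul_sub, mul_neg, ← T_add]
      norm_num
      ring

/-- two trivial slopes at even distance: the outside is Jones-rational -/
theorem rational_of_even (W : Outer4) (R₁ R₂ : Tangle) (h1 : IsU (W.br R₁)) (h2 : IsU (W.br R₂))
    (he : Even (dist R₁ R₂)) (h0 : dist R₁ R₂ ≠ 0) : JonesRational W := by
  obtain ⟨g, n, c, hn, hn2, hc, hu0, hu⟩ := integral W R₁ R₂ h1 h2 he h0
  obtain ⟨κ, hκ, hw⟩ : ∃ κ : ℤ[T;T⁻¹], (κ = dd ∨ κ = T 6 ∨ κ = T (-6)) ∧ 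
      (W.pushes g).br ([], true) = κ * (W.pushes g).br ([], false) := by
    rcases three_cases (W.pushes g) n c hn hn2 hc hu0 hu with h | h | h
    · exact ⟨_, Or.inl rfl, h⟩
    · exact ⟨_, Or.inr (Or.inl rfl), h⟩
    · exact ⟨_, Or.inr (Or.inr rfl), h⟩
  obtain ⟨r, u, huu, t0, t1⟩ := exists_triv κ hκ
  obtain ⟨u', hu', huu'⟩ := IsU_inv huu
  obtain ⟨m, ε, hε, hm⟩ := IsU_mul hu0 hu'
  refine ⟨r ++ inv g, m, ε, hε, ?_⟩
  rintro ⟨w, v⟩
  have e1 : W.br (w, v) = (W.pushes g).br (inv g ++ w, v) := by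
    rw [← br_append]
    apply br_congr
    rw [← List.append_assoc]
    exact (vec_inv g w v).symm
  have e2 : Outer4.triv.br (r ++ inv g ++ w, v) = 
      u * ((vec (inv g ++ w) v).1 + κ * (vec (inv g ++ w) v).2) := by
    rw [List.append_assoc, br_append, R2]
    have a0 : (Outer4.triv.pushes r).br ([], false) = u := by
      rw [← br_append, List.append_nil]; exact t0
    have a1 : (Outer4.triv.pushes r).br ([], true) = κ * u := by
      rw [← br_append, List.append_nil]; exact t1
    rw [a0, a1]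
    ring
  show W.br (w, v) = C ε * T m * Outer4.triv.br (r ++ inv g ++ w, v)
  rw [e1, R2, hw, e2, ← hm]
  have e3 : (W.pushes g).br ([], false) * u' * (u * ((vec (inv g ++ w) v).1 + κ * (vec (inv g ++ w) v).2)) =
      (u * u') * ((W.pushes g).br ([], false) * ((vec (inv g ++ w) v).1 + κ * (vec (inv g ++ w) v).2)) := by
    ring
  rw [e3, huu', one_mul]
  ring

/-- the determinant of a filling of the trivial outside -/
theorem det_one (w : List (Bool × Bool)) (v : Bool) (h : IsU (Outer4.triv.br (w, v))) :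
    |(frac w v).2| = 1 := by
  set a : ℂˣ := Units.mk0 (Complex.exp (Real.pi / 4 * Complex.I)) (Complex.exp_ne_zero _) with ha
  have ha4 : (a : ℂ) ^ 4 = -1 := by
    rw [ha, Units.val_mk0, ← Complex.exp_nat_mul]
    have : ((4 : ℕ) : ℂ) * (Real.pi / 4 * Complex.I) = Real.pi * Complex.I := by push_cast; ring
    rw [this, Complex.exp_pi_mul_I]
  have hT : ∀ k : ℤ, evA a (T k) = (a : ℂ) ^ k := by
    intro k
    unfold evA
    rw [LaurentPolynomial.eval₂_T]
    simp
  have h4 : evA a (T 4) = -1 := by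
    rw [hT]
    exact_mod_cast ha4
  have hn : ‖(a : ℂ)‖ = 1 := by
    rw [ha, Units.val_mk0]
    have : (Real.pi / 4 * Complex.I : ℂ) = ((Real.pi / 4 : ℝ) : ℂ) * Complex.I := by push_cast; ring
    rw [this, Complex.norm_exp_ofReal_mul_I]
  have hnk : ∀ k : ℤ, ‖evA a (T k)‖ = 1 := by
    intro k
    rw [hT, norm_zpow, hn, one_zpow]
  obtain ⟨k, e1, e2⟩ := R5 (evA a) h4 w v
  obtain ⟨m, ε, hε, hm⟩ := h
  rw [R2, triv_false, triv_true] at hm
  have hd : evA a dd = 0 := by
    unfold dd
    have e3 : evA a (T 2) = - evA a (T (-2)) := by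
      have : (T 2 : ℤ[T;T⁻¹]) = T 4 * T (-2) := by rw [← T_add]; norm_num
      rw [this, map_mul, h4]
      ring
    rw [map_sub, map_neg, e3]
    ring
  have h5 := congrArg (evA a) hm
  rw [map_add, map_mul, map_mul, hd, mul_zero, add_zero, map_one, mul_one, e1] at h5
  have h6 := congrArg norm h5
  rw [norm_mul, hnk, one_mul, map_mul, norm_mul, hnk, mul_one] at h6
  have h7 : ‖evA a (C ε)‖ = 1 := by
    unfold evA
    rw [LaurentPolynomial.eval₂_C]
    rcases hε with rfl | rfl <;> simp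
  rw [h7, Complex.norm_intCast] at h6
  exact_mod_cast h6

theorem dist_of_den (w w' : List (Bool × Bool)) (v : Bool) : 
    dist (w', v) (inv w, true) = ((frac (w ++ w') v).2).natAbs := by
  have e1 : dist (w', v) (inv w, true) = dist (w ++ w', v) (w ++ inv w, true) := 
    (dist_append w w' (inv w) v true).symm
  rw [e1]
  unfold dist
  have e2 : frac (w ++ inv w) true = (1, 0) := by
    have := frac_inv w [] true
    rw [List.append_nil] at this
    rw [this]
    simp [frac]
  simp only [e2]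
  simp

theorem main (W : Outer4) : 
    (JonesRational W ∧ ∃ R₀ : Tangle, ∀ R : Tangle, JonesTrivial (W.fill R) → dist R R₀ = 1) ∨ 
    ((∀ R₁ R₂ : Tangle, JonesTrivial (W.fill R₁) → JonesTrivial (W.fill R₂) → slope R₁ ≠ slope R₂ →
      Odd (dist R₁ R₂)) ∧
     ∃ s₁ s₂ : OnePoint ℚ, ∀ R : Tangle, JonesTrivial (W.fill R) → slope R = s₁ ∨ slope R = s₂) := by
  have hJ : ∀ R, JonesTrivial (W.fill R) → IsU (W.br R) := fun R h => isU_of_jonesTrivial _ h
  by_cases hex : ∃ R₁ R₂ : Tangle, IsU (W.br R₁) ∧ IsU (W.br R₂) ∧ Even (dist R₁ R₂) ∧ dist R₁ R₂ ≠ 0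
  · left
    obtain ⟨R₁, R₂, h1, h2, he, h0⟩ := hex
    have hR := rational_of_even W R₁ R₂ h1 h2 he h0
    refine ⟨hR, ?_⟩
    obtain ⟨r, m, ε, hε, h⟩ := hR
    refine ⟨(inv r, true), ?_⟩
    rintro ⟨w, v⟩ hT
    rw [dist_of_den]
    have h3 := hJ _ hT
    rw [h] at h3
    have h4 := det_one _ _ (IsU_of_mul ⟨m, ε, hε, rfl⟩ h3)
    rw [Int.abs_eq_natAbs] at h4
    exact_mod_cast h4
  · right
    push Not at hex
    have hodd : ∀ R₁ R₂ : Tangle, JonesTrivial (W.fill R₁) → JonesTrivial (W.fill R₂) → 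
        slope R₁ ≠ slope R₂ → Odd (dist R₁ R₂) := by
      intro R₁ R₂ h1 h2 hne
      by_contra hno
      rw [Nat.not_odd_iff_even] at hno
      exact hne ((slope_eq_iff R₁ R₂).2 (hex R₁ R₂ (hJ _ h1) (hJ _ h2) hno))
    refine ⟨hodd, ?_⟩
    by_cases hA : ∃ R₁ R₂ : Tangle, JonesTrivial (W.fill R₁) ∧ JonesTrivial (W.fill R₂) ∧ slope R₁ ≠ slope R₂
    · obtain ⟨R₁, R₂, h1, h2, hne⟩ := hA
      refine ⟨slope R₁, slope R₂, fun R hR => ?_⟩
      by_contra hcon
      push Not at hcon
      have a1 := hodd R R₁ hR h1 hcon.1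
      have a2 := hodd R R₂ hR h2 hcon.2
      have a3 := hodd R₁ R₂ h1 h2 hne
      have b : ∀ R, JonesTrivial (W.fill R) → 
          IsU (W.br ([], false) * (vec R.1 R.2).1 + W.br ([], true) * (vec R.1 R.2).2) := by
        rintro ⟨w, v⟩ h
        have h3 := hJ _ h
        rw [R2] at h3
        convert h3 using 1
        ring
      exact R9 _ _ R R₁ R₂ (b R hR) (b R₁ h1) (b R₂ h2) a1 a2 a3
    · push Not at hA
      by_cases hB : ∃ R₁ : Tangle, JonesTrivial (W.fill R₁)
      · obtain ⟨R₁, h1⟩ := hB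
        exact ⟨slope R₁, slope R₁, fun R hR => Or.inl (hA R R₁ hR h1)⟩
      · push Not at hB
        exact ⟨OnePoint.infty, OnePoint.infty, fun R hR => absurd hR (hB R)⟩

end Fin

end Pool.Agent.H891R2.RF
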