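import Pool.Agent.H891R2.RF.Defs

set_option autoImplicit false

namespace Pool.Agent.H891R2.RF.R1

open Finset LaurentPolynomial Pool.Agent.H891R2.Jones Pool.Agent.H891R2.MT

/-- the state sum with `N` colours of the diagram with the filling `v` -/
noncomputable def Zc (A : ℂ) (N : ℕ) (W : Outer4) (v : Bool) : ℂ :=
  ∑ col : W.P → Fin N, WW A (W.close v).std.arcs (W.close v).std.crossings col

theorem ind_and (p q : Prop) : (ind (p ∧ q) : ℂ) = ind p * ind q := by
  by_cases hp : p <;> by_cases hq : q <;> simp [ind, hp, hq]

theorem sum_ind_eq {S : Type} [Fintype S] [DecidableEq S] (x : S) (f : S → ℂ) :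
    ∑ u, ind (x = u) * f u = f x := by
  rw [Finset.sum_eq_single x]
  · simp [ind]
  · intro b _ hb
    have : ¬ (x = b) := fun h => hb h.symm
    simp [ind, this]
  · intro h; exact absurd (mem_univ _) h

/-- four values -/
def e4 (S : Type) : (Bool × Bool → S) ≃ S × S × S × S where
  toFun x := (x (false, false), x (false, true), x (true, false), x (true, true))
  invFun z := fun b => if b.1 then (if b.2 then z.2.2.2 else z.2.2.1) else (if b.2 then z.2.1 else z.1)
  left_inv x := by
    funext b
    rcases b with ⟨_ | _, _ | _⟩ <;> rfl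
  right_inv z := rfl

theorem sum4 {S : Type} [Fintype S] (f : S → S → S → S → ℂ) :
    ∑ x : Bool × Bool → S, f (x (false, false)) (x (false, true)) (x (true, false)) (x (true, true)) =
      ∑ p, ∑ q, ∑ r, ∑ t, f p q r t := by
  have h : ∑ x : Bool × Bool → S, f (x (false, false)) (x (false, true)) (x (true, false)) 
      (x (true, true)) = ∑ z : S × S × S × S, f z.1 z.2.1 z.2.2.1 z.2.2.2 := 
    Fintype.sum_equiv (e4 S) _ (fun z => f z.1 z.2.1 z.2.2.1 z.2.2.2) (fun x => rfl)
  rw [h]
  simp only [Fintype.sum_prod_type]

/-- the local weight -/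
noncomputable def K (A : ℂ) {N : ℕ} (W : Outer4) (u : W.P → Fin N) : ℂ :=
  (W.arcs.map (arcW u)).prod * 
    (W.crossings.map (fun x => crossW A u ⟨x.1, x.2.1, x.2.2.1, x.2.2.2, true, true⟩)).prod

theorem Zc_eq (A : ℂ) (N : ℕ) (W : Outer4) (v : Bool) :
    Zc A N W v = ∑ u : W.P → Fin N, K A W u * 
      (if v then ind (u (W.corner false false) = u (W.corner true false)) * 
          ind (u (W.corner false true) = u (W.corner true true))
        else ind (u (W.corner false false) = u (W.corner false true)) * 
          ind (u (W.corner true false) = u (W.corner true true))) := by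
  unfold Zc
  refine Finset.sum_congr rfl fun u _ => ?_
  unfold WW K UDiagram.std Outer4.close
  dsimp only
  rw [List.map_append, List.prod_append, List.map_map]
  have : (crossW A u ∘ fun x : W.P × W.P × W.P × W.P => 
      (⟨x.1, x.2.1, x.2.2.1, x.2.2.2, true, true⟩ : Crossing W.P)) = 
      (fun x => crossW A u ⟨x.1, x.2.1, x.2.2.1, x.2.2.2, true, true⟩) := rfl
  rw [this]
  cases v
  · simp only [Bool.false_eq_true, if_false, List.map_cons, List.map_nil, List.prod_cons, 
      List.prod_nil, mul_one, arcW]
    ring
  · simp only [if_true, List.map_cons, List.map_nil, List.prod_cons, 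
      List.prod_nil, mul_one, arcW]
    ring

theorem K_push (A : ℂ) {N : ℕ} (W : Outer4) (side s : Bool) (u : W.P → Fin N) 
    (x : Bool × Bool → Fin N) (a : ℂ) (ha : a = if s then A else A⁻¹) :
    K A (W.push side s) (Sum.elim u x) = K A W u * 
      ((if side then ind (u (W.corner false true) = x (false, true)) * 
          ind (u (W.corner true true) = x (true, true))
        else ind (u (W.corner false false) = x (false, false)) * 
          ind (u (W.corner false true) = x (false, true))) * 
      (a * (ind (x (false, false) = x (false, true)) * ind (x (true, false) = x (true, true))) + 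
        a⁻¹ * (ind (x (false, false) = x (true, false)) * ind (x (false, true) = x (true, true))))) := by
  unfold K Outer4.push
  dsimp only
  rw [List.map_append, List.prod_append, List.map_append, List.prod_append, List.map_map, 
    List.map_map]
  have e1 : (arcW (Sum.elim u x) ∘ Prod.map Sum.inl Sum.inl) = arcW u := rfl
  have e2 : ((fun x_1 : (W.P ⊕ (Bool × Bool)) × (W.P ⊕ (Bool × Bool)) × (W.P ⊕ (Bool × Bool)) × 
        (W.P ⊕ (Bool × Bool)) => crossW A (Sum.elim u x) ⟨x_1.1, x_1.2.1, x_1.2.2.1, x_1.2.2.2, 
        true, true⟩) ∘ Prod.map Sum.inl (Prod.map Sum.inl (Prod.map Sum.inl Sum.inl))) = 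
      (fun x => crossW A u ⟨x.1, x.2.1, x.2.2.1, x.2.2.2, true, true⟩) := rfl
  rw [e1, e2]
  have hsym : ∀ p q : Fin N, ind (p = q) = ind (q = p) := fun p q => ind_congr eq_comm
  subst ha
  cases s
  · simp only [Bool.false_eq_true, if_false, List.map_cons, List.map_nil, List.prod_cons, 
      List.prod_nil, mul_one, arcW, crossW, ind_and, Sum.elim_inr, Sum.elim_inl, inv_inv]
    rw [hsym (x (true, true)) (x (true, false)), hsym (x (true, false)) (x (false, false))]
    cases side
    · simp only [Bool.false_eq_true, if_false, List.map_cons, List.map_nil, List.prod_cons, 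
        List.prod_nil, mul_one, arcW, Sum.elim_inr, Sum.elim_inl]
      ring
    · simp only [if_true, List.map_cons, List.map_nil, List.prod_cons, 
        List.prod_nil, mul_one, arcW, Sum.elim_inr, Sum.elim_inl]
      ring
  · simp only [if_true, List.map_cons, List.map_nil, List.prod_cons, 
      List.prod_nil, mul_one, arcW, crossW, ind_and, Sum.elim_inr, Sum.elim_inl]
    rw [hsym (x (true, true)) (x (true, false)), hsym (x (true, false)) (x (false, false))]
    cases side
    · simp only [Bool.false_eq_true, if_false, List.map_cons, List.map_nil, List.prod_cons, 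
        List.prod_nil, mul_one, arcW, Sum.elim_inr, Sum.elim_inl]
      ring
    · simp only [if_true, List.map_cons, List.map_nil, List.prod_cons, 
        List.prod_nil, mul_one, arcW, Sum.elim_inr, Sum.elim_inl]
      ring

theorem Zc_push (A : ℂ) (N : ℕ) (W : Outer4) (side s v : Bool) (a : ℂ) 
    (ha : a = if s then A else A⁻¹) :
    Zc A N (W.push side s) v = ∑ u : W.P → Fin N, K A W u * 
      ∑ x : Bool × Bool → Fin N, 
      ((if side then ind (u (W.corner false true) = x (false, true)) * 
          ind (u (W.corner true true) = x (true, true))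
        else ind (u (W.corner false false) = x (false, false)) * 
          ind (u (W.corner false true) = x (false, true))) * 
      (a * (ind (x (false, false) = x (false, true)) * ind (x (true, false) = x (true, true))) + 
        a⁻¹ * (ind (x (false, false) = x (true, false)) * ind (x (false, true) = x (true, true))))) * 
      (if v then ind (Sum.elim u x ((W.push side s).corner false false) = 
            Sum.elim u x ((W.push side s).corner true false)) * 
          ind (Sum.elim u x ((W.push side s).corner false true) = 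
            Sum.elim u x ((W.push side s).corner true true))
        else ind (Sum.elim u x ((W.push side s).corner false false) = 
            Sum.elim u x ((W.push side s).corner false true)) * 
          ind (Sum.elim u x ((W.push side s).corner true false) = 
            Sum.elim u x ((W.push side s).corner true true))) := by
  rw [Zc_eq]
  show ∑ u : W.P ⊕ (Bool × Bool) → Fin N, _ = _
  rw [← (Equiv.sumArrowEquivProdArrow W.P (Bool × Bool) (Fin N)).symm.sum_comp, 
    Fintype.sum_prod_type]
  refine Finset.sum_congr rfl fun u _ => ?_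
  rw [Finset.mul_sum]
  refine Finset.sum_congr rfl fun x _ => ?_
  have e0 : (Equiv.sumArrowEquivProdArrow W.P (Bool × Bool) (Fin N)).symm (u, x) = Sum.elim u x := rfl
  rw [e0, K_push A W side s u x a ha]
  ring

/-- the local sums -/
theorem loc1 {N : ℕ} (a b : ℂ) (c00 c01 c10 c11 : Fin N) :
    ∑ p, ∑ q, ∑ r, ∑ t, ((ind (c01 = q) * ind (c11 = t)) * 
      (a * (ind (p = q) * ind (r = t)) + b * (ind (p = r) * ind (q = t)))) * 
      (ind (c00 = p) * ind (c10 = r)) = 
    a * (ind (c00 = c01) * ind (c10 = c11)) + b * (ind (c00 = c10) * ind (c01 = c11)) := by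
  have h1 : ∀ p q r : Fin N, ∑ t, ((ind (c01 = q) * ind (c11 = t)) * 
      (a * (ind (p = q) * ind (r = t)) + b * (ind (p = r) * ind (q = t)))) * 
      (ind (c00 = p) * ind (c10 = r)) = 
      ind (c10 = r) * (ind (c01 = q) * (ind (c00 = p) * 
      (a * (ind (p = q) * ind (r = c11)) + b * (ind (p = r) * ind (q = c11))))) := by
    intro p q r
    rw [← sum_ind_eq c11 (fun t => ind (c10 = r) * (ind (c01 = q) * (ind (c00 = p) * 
      (a * (ind (p = q) * ind (r = t)) + b * (ind (p = r) * ind (q = t))))))]
    refine Finset.sum_congr rfl fun t _ => ?_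
    ring
  simp only [h1, sum_ind_eq]

theorem loc2 {N : ℕ} (a b : ℂ) (c00 c01 c10 c11 : Fin N) :
    ∑ p, ∑ q, ∑ r, ∑ t, ((ind (c01 = q) * ind (c11 = t)) * 
      (a * (ind (p = q) * ind (r = t)) + b * (ind (p = r) * ind (q = t)))) * 
      (ind (c00 = c10) * ind (p = r)) = 
    (a + b * N) * (ind (c00 = c10) * ind (c01 = c11)) := by
  have h1 : ∀ p q r : Fin N, ∑ t, ((ind (c01 = q) * ind (c11 = t)) * 
      (a * (ind (p = q) * ind (r = t)) + b * (ind (p = r) * ind (q = t)))) * 
      (ind (c00 = c10) * ind (p = r)) = 
      ind (p = r) * (ind (c01 = q) * (ind (c00 = c10) * 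
      (a * (ind (p = q) * ind (r = c11)) + b * (ind (p = r) * ind (q = c11))))) := by
    intro p q r
    rw [← sum_ind_eq c11 (fun t => ind (p = r) * (ind (c01 = q) * (ind (c00 = c10) * 
      (a * (ind (p = q) * ind (r = t)) + b * (ind (p = r) * ind (q = t))))))]
    refine Finset.sum_congr rfl fun t _ => ?_
    ring
  have hsym : ∀ p q : Fin N, ind (p = q) = ind (q = p) := fun p q => ind_congr eq_comm
  simp only [h1, sum_ind_eq]
  have h2 : ∀ p : Fin N, ind (c00 = c10) * (a * (ind (p = c01) * ind (p = c11)) + 
      b * (ind True * ind (c01 = c11))) = ind (c01 = p) * (a * (ind (c00 = c10) * ind (p = c11))) + 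
        b * (ind (c00 = c10) * ind (c01 = c11)) := by
    intro p
    rw [hsym p c01, ind_pos trivial]
    ring
  simp only [h2, Finset.sum_add_distrib, sum_ind_eq, Finset.sum_const, Finset.card_univ, 
    Fintype.card_fin, nsmul_eq_mul]
  ring

theorem loc3 {N : ℕ} (a b : ℂ) (c00 c01 c10 c11 : Fin N) :
    ∑ p, ∑ q, ∑ r, ∑ t, ((ind (c00 = p) * ind (c01 = q)) * 
      (a * (ind (p = q) * ind (r = t)) + b * (ind (p = r) * ind (q = t)))) * 
      (ind (r = c10) * ind (t = c11)) = 
    a * (ind (c00 = c01) * ind (c10 = c11)) + b * (ind (c00 = c10) * ind (c01 = c11)) := by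
  have hsym : ∀ p q : Fin N, ind (p = q) = ind (q = p) := fun p q => ind_congr eq_comm
  have h1 : ∀ p q r : Fin N, ∑ t, ((ind (c00 = p) * ind (c01 = q)) * 
      (a * (ind (p = q) * ind (r = t)) + b * (ind (p = r) * ind (q = t)))) * 
      (ind (r = c10) * ind (t = c11)) = 
      ind (c10 = r) * (ind (c01 = q) * (ind (c00 = p) * 
      (a * (ind (p = q) * ind (r = c11)) + b * (ind (p = r) * ind (q = c11))))) := by
    intro p q r
    rw [← sum_ind_eq c11 (fun t => ind (c10 = r) * (ind (c01 = q) * (ind (c00 = p) * 
      (a * (ind (p = q) * ind (r = t)) + b * (ind (p = r) * ind (q = t))))))]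
    refine Finset.sum_congr rfl fun t _ => ?_
    rw [hsym r c10, hsym t c11]
    ring
  simp only [h1, sum_ind_eq]

theorem loc4 {N : ℕ} (a b : ℂ) (c00 c01 c10 c11 : Fin N) :
    ∑ p, ∑ q, ∑ r, ∑ t, ((ind (c00 = p) * ind (c01 = q)) * 
      (a * (ind (p = q) * ind (r = t)) + b * (ind (p = r) * ind (q = t)))) * 
      (ind (r = t) * ind (c10 = c11)) = 
    (a * N + b) * (ind (c00 = c01) * ind (c10 = c11)) := by
  have hself : ∀ p : Fin N, ind (p = p) = 1 := fun p => ind_pos rfl
  have hsym : ∀ p q : Fin N, ind (p = q) = ind (q = p) := fun p q => ind_congr eq_comm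
  have h1 : ∀ p q r : Fin N, ∑ t, ((ind (c00 = p) * ind (c01 = q)) * 
      (a * (ind (p = q) * ind (r = t)) + b * (ind (p = r) * ind (q = t)))) * 
      (ind (r = t) * ind (c10 = c11)) = 
      ind (c01 = q) * (ind (c00 = p) * (ind (c10 = c11) * 
      (a * (ind (p = q) * 1) + b * (ind (p = r) * ind (q = r))))) := by
    intro p q r
    rw [← hself r, ← sum_ind_eq r (fun t => ind (c01 = q) * (ind (c00 = p) * (ind (c10 = c11) * 
      (a * (ind (p = q) * ind (r = t)) + b * (ind (p = r) * ind (q = t))))))]
    refine Finset.sum_congr rfl fun t _ => ?_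
    ring
  simp only [h1]
  have h2 : ∀ p q : Fin N, ∑ r : Fin N, ind (c01 = q) * (ind (c00 = p) * (ind (c10 = c11) * 
      (a * (ind (p = q) * 1) + b * (ind (p = r) * ind (q = r))))) = 
      ind (c01 = q) * (ind (c00 = p) * (ind (c10 = c11) * 
      (a * N * ind (p = q) + b * ind (q = p)))) := by
    intro p q
    have h4 : ∀ r : Fin N, ind (c01 = q) * (ind (c00 = p) * (ind (c10 = c11) * 
      (a * (ind (p = q) * 1) + b * (ind (p = r) * ind (q = r))))) = 
      ind (c01 = q) * (ind (c00 = p) * (ind (c10 = c11) * 
      (a * ind (p = q)))) + ind (p = r) * (ind (c01 = q) * (ind (c00 = p) * (ind (c10 = c11) * 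
      (b * (ind (q = r)))))) := by
      intro r
      ring
    simp only [h4, Finset.sum_add_distrib, sum_ind_eq, Finset.sum_const, Finset.card_univ, 
      Fintype.card_fin, nsmul_eq_mul]
    ring
  rw [Finset.sum_congr rfl fun p _ => Finset.sum_congr rfl fun q _ => h2 p q]
  simp only [sum_ind_eq]
  rw [hsym c01 c00]
  ring

set_option linter.unusedVariables false in
/-- R1: one more crossing -/
theorem R1 (W : Outer4) (side s : Bool) {A : ℂ} (hA : A ≠ 0) (N : ℕ) (a : ℂ) 
    (ha : a = if side = s then A else A⁻¹) :
    Zc A N (W.push side s) (!side) = a * Zc A N W (!side) + a⁻¹ * Zc A N W side ∧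
    Zc A N (W.push side s) side = (a + a⁻¹ * N) * Zc A N W side := by
  obtain ⟨b, hb⟩ : ∃ b : ℂ, b = if s then A else A⁻¹ := ⟨_, rfl⟩
  have hab : (side = true → a = b) ∧ (side = false → a = b⁻¹) := by
    subst ha hb
    cases side <;> cases s <;> simp
  cases side
  · have hab' := hab.2 rfl
    subst hab'
    rw [inv_inv]
    constructor
    · rw [Zc_push A N W false s _ b hb, Zc_eq, Zc_eq, Finset.mul_sum, Finset.mul_sum, 
        ← Finset.sum_add_distrib]
      refine Finset.sum_congr rfl fun u _ => ?_
      have := loc3 b b⁻¹ (u (W.corner false false)) (u (W.corner false true)) 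
        (u (W.corner true false)) (u (W.corner true true))
      rw [← sum4] at this
      simp only [Outer4.push, Bool.false_eq_true, if_false, if_true, Bool.not_false, 
        Sum.elim_inl, Sum.elim_inr]
      rw [this]
      ring
    · rw [Zc_push A N W false s _ b hb, Zc_eq, Finset.mul_sum]
      refine Finset.sum_congr rfl fun u _ => ?_
      have := loc4 b b⁻¹ (u (W.corner false false)) (u (W.corner false true)) 
        (u (W.corner true false)) (u (W.corner true true))
      rw [← sum4] at this
      simp only [Outer4.push, Bool.false_eq_true, if_false, if_true, 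
        Sum.elim_inl, Sum.elim_inr]
      rw [this]
      ring
  · have hab' := hab.1 rfl
    subst hab'
    constructor
    · rw [Zc_push A N W true s _ a hb, Zc_eq, Zc_eq, Finset.mul_sum, Finset.mul_sum, 
        ← Finset.sum_add_distrib]
      refine Finset.sum_congr rfl fun u _ => ?_
      have := loc1 a a⁻¹ (u (W.corner false false)) (u (W.corner false true)) 
        (u (W.corner true false)) (u (W.corner true true))
      rw [← sum4] at this
      simp only [Outer4.push, Bool.false_eq_true, if_false, if_true, Bool.not_true, 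
        Sum.elim_inl, Sum.elim_inr]
      rw [this]
      ring
    · rw [Zc_push A N W true s _ a hb, Zc_eq, Finset.mul_sum]
      refine Finset.sum_congr rfl fun u _ => ?_
      have := loc2 a a⁻¹ (u (W.corner false false)) (u (W.corner false true)) 
        (u (W.corner true false)) (u (W.corner true true))
      rw [← sum4] at this
      simp only [Outer4.push, Bool.false_eq_true, if_false, if_true, 
        Sum.elim_inl, Sum.elim_inr]
      rw [this]
      ring

end Pool.Agent.H891R2.RF.R1
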