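import Pool.Agent.H891R2.RF.Defs
import Pool.Agent.H891R2.MT.T6

set_option autoImplicit false

/-! Statements of the tasks (for distribution only; do not import). -/

namespace Pool.Agent.H891R2.RF

open Finset LaurentPolynomial Pool.Agent.H891R2.Jones Pool.Agent.H891R2.MT

/-- the state sum with `N` colours of the diagram with the filling `v` -/
noncomputable def Zc (A : ℂ) (N : ℕ) (W : Outer4) (v : Bool) : ℂ :=
  ∑ col : W.P → Fin N, WW A (W.close v).std.arcs (W.close v).std.crossings col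

/-- evaluation at `A = a` -/
noncomputable def evA (a : ℂˣ) : ℤ[T;T⁻¹] →+* ℂ := LaurentPolynomial.eval₂ (Int.castRingHom ℂ) a

/-- R1: one more crossing -/
theorem R1 (W : Outer4) (side s : Bool) {A : ℂ} (hA : A ≠ 0) (N : ℕ) (a : ℂ) 
    (ha : a = if side = s then A else A⁻¹) :
    Zc A N (W.push side s) (!side) = a * Zc A N W (!side) + a⁻¹ * Zc A N W side ∧
    Zc A N (W.push side s) side = (a + a⁻¹ * N) * Zc A N W side := by
  sorry

/-- R2: the bracket of a rational filling (uses R1) -/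
theorem R2 (W : Outer4) (w : List (Bool × Bool)) (v : Bool) :
    W.br (w, v) = (vec w v).1 * W.br ([], false) + (vec w v).2 * W.br ([], true) := by
  sorry

/-- R3: at a primitive sixth root of unity every bracket is `1` -/
theorem R3 {P : Type} (U : UDiagram P) (a : ℂˣ) (ha : (a : ℂ) + (a : ℂ)⁻¹ = 1) :
    evA a U.std.bracket = 1 := by
  sorry

/-- R4: at `A = i` every bracket is `i^c` times `0` or `± 2^j` -/
theorem R4 {P : Type} [Fintype P] [DecidableEq P] [Nonempty P] (U : UDiagram P) (a : ℂˣ) 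
    (ha : (a : ℂ) = Complex.I) :
    ∃ z : ℤ, evA a U.std.bracket = Complex.I ^ U.crossings.length * z ∧ 
      (z = 0 ∨ ∃ j : ℕ, z = 2 ^ j ∨ z = -2 ^ j) := by
  sorry

/-- R5: evaluation at a primitive eighth root of unity -/
theorem R5 {S : Type} [CommRing S] (φ : ℤ[T;T⁻¹] →+* S) (hφ : φ (T 4) = -1) 
    (w : List (Bool × Bool)) (v : Bool) :
    ∃ k : ℤ, φ (vec w v).1 = φ (T k) * (frac w v).2 ∧ φ (vec w v).2 = - φ (T (k + 2)) * (frac w v).1 := by
  sorry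

/-- R6 (uses R5) -/
theorem R6 (w0 w1 : ℤ[T;T⁻¹]) (w : List (Bool × Bool)) (v : Bool) (h0 : IsU w0)
    (h : IsU (w0 * (vec w v).1 + w1 * (vec w v).2)) (hp : 2 ≤ |(frac w v).1|) :
    ∃ t η : ℤ, (η = 1 ∨ η = -1) ∧ (frac w v).2 = t * (frac w v).1 + η := by
  sorry

/-- R7: the tangles of slope `0` -/
theorem R7 (w : List (Bool × Bool)) (v : Bool) (h : (frac w v).1 = 0) : 
    ∃ u, IsU u ∧ vec w v = (u, 0) := by
  sorry

/-- R8a: the main algebraic step for `|n| ≥ 4` -/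
theorem R8a (w0 w1 c : ℤ[T;T⁻¹]) (n : ℤ) (hn : Even n) (hn4 : 4 ≤ |n|) 
    (hc : dd * c = T n * (T (-4 * n) - 1)) (h0 : IsU w0) (h : IsU (T n * w0 + c * w1)) 
    (h6 : ∀ a : ℂˣ, (a : ℂ) + (a : ℂ)⁻¹ = 1 → evA a w1 = 1)
    (hI : ∀ a : ℂˣ, (a : ℂ) = Complex.I → ∃ (k : ℕ) (z0 z1 : ℤ), evA a w0 = Complex.I ^ k * z0 ∧
      evA a w1 = Complex.I ^ k * z1 ∧ (z0 - z1 = 0 ∨ ∃ j : ℕ, z0 - z1 = 2 ^ j ∨ z0 - z1 = - 2 ^ j)) :
    w1 = dd * w0 := by
  sorry

/-- R8b: the main algebraic step for `n = 2` and `n = -2` -/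
theorem R8b (w0 w1 c : ℤ[T;T⁻¹]) (n : ℤ) (hn : n = 2 ∨ n = -2)
    (hc : dd * c = T n * (T (-4 * n) - 1)) (h0 : IsU w0) (h : IsU (T n * w0 + c * w1)) 
    (h6 : ∀ a : ℂˣ, (a : ℂ) + (a : ℂ)⁻¹ = 1 → evA a w0 = 1 ∧ evA a w1 = 1)
    (hI : ∀ a : ℂˣ, (a : ℂ) = Complex.I → ∃ (k : ℕ) (z0 z1 : ℤ), evA a w0 = Complex.I ^ k * z0 ∧
      evA a w1 = Complex.I ^ k * z1 ∧ (z1 = 0 ∨ ∃ j : ℕ, z1 = 2 ^ j ∨ z1 = - 2 ^ j) ∧ 
      (z0 - z1 = 0 ∨ ∃ j : ℕ, z0 - z1 = 2 ^ j ∨ z0 - z1 = - 2 ^ j)) :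
    w1 = dd * w0 ∨ w1 = T 6 * w0 ∨ w1 = T (-6) * w0 := by
  sorry

/-- R9: the three slopes modulo two -/
theorem R9 (w0 w1 : ℤ[T;T⁻¹]) (R₁ R₂ R₃ : Tangle) 
    (h1 : IsU (w0 * (vec R₁.1 R₁.2).1 + w1 * (vec R₁.1 R₁.2).2))
    (h2 : IsU (w0 * (vec R₂.1 R₂.2).1 + w1 * (vec R₂.1 R₂.2).2))
    (h3 : IsU (w0 * (vec R₃.1 R₃.2).1 + w1 * (vec R₃.1 R₃.2).2))
    (h12 : Odd (dist R₁ R₂)) (h13 : Odd (dist R₁ R₃)) (h23 : Odd (dist R₂ R₃)) : False := by
  sorry

/-- R10: words and their inverses, powers -/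
theorem vec_inv (w w' : List (Bool × Bool)) (v : Bool) : vec (w ++ inv w ++ w') v = vec w' v := by
  sorry

theorem vec_inv' (w w' : List (Bool × Bool)) (v : Bool) : vec (inv w ++ w ++ w') v = vec w' v := by
  sorry

theorem frac_inv (w w' : List (Bool × Bool)) (v : Bool) : frac (w ++ inv w ++ w') v = frac w' v := by
  sorry

theorem dist_append (w w₁ w₂ : List (Bool × Bool)) (v₁ v₂ : Bool) : 
    dist (w ++ w₁, v₁) (w ++ w₂, v₂) = dist (w₁, v₁) (w₂, v₂) := by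
  sorry

/-- the word `x^n` or `y^n` -/
def pw (side : Bool) (n : ℤ) : List (Bool × Bool) := List.replicate n.natAbs (side, decide (0 < n))

theorem vec_pw_x (n : ℤ) (hn : Even n) (w : List (Bool × Bool)) (v : Bool) (u : ℤ[T;T⁻¹]) 
    (h : vec w v = (u, 0)) : 
    ∃ c, dd * c = T n * (T (-4 * n) - 1) ∧ vec (pw true n ++ w) v = (T n * u, c * u) := by
  sorry

theorem vec_pw_y (n : ℤ) (w : List (Bool × Bool)) (v : Bool) (u : ℤ[T;T⁻¹]) 
    (hu : IsU u) (h : vec w v = (u, 0)) : ∃ u', IsU u' ∧ vec (pw false n ++ w) v = (u', 0) := by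
  sorry

theorem frac_pw_x (n : ℤ) (w : List (Bool × Bool)) (v : Bool) : 
    frac (pw true n ++ w) v = ((frac w v).1 + n * (frac w v).2, (frac w v).2) := by
  sorry

theorem frac_pw_y (n : ℤ) (w : List (Bool × Bool)) (v : Bool) : 
    frac (pw false n ++ w) v = ((frac w v).1, (frac w v).2 + n * (frac w v).1) := by
  sorry

/-- R11: the same slope means distance zero -/
theorem slope_eq_iff (R R' : Tangle) : slope R = slope R' ↔ dist R R' = 0 := by
  sorry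

/-- R12: the trivial outside, and diagrams with trivial Jones polynomial -/
theorem triv_false : Outer4.triv.br ([], false) = 1 := by
  sorry

theorem triv_true : Outer4.triv.br ([], true) = dd := by
  sorry

theorem isU_of_jonesTrivial {P : Type} [Fintype P] [DecidableEq P] [Nonempty P] (U : UDiagram P)
    (h : JonesTrivial U) : IsU U.std.bracket := by
  sorry

end Pool.Agent.H891R2.RF
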